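import Pool.Agent.R257.SP.Stm2

/-!
SP-AE: a maximal inequality on balls implies convergence almost everywhere.
-/

namespace Pool.Agent.R257.SP.AEp

open MeasureTheory Set Metric Filter Topology
open scoped ENNReal NNReal FourierTransform SchwartzMap RealInnerProductSpace

variable {n : ℕ}

lemma norm_ch (x ξ : V n) : ‖ch x ξ‖ = 1 := by
  unfold ch
  exact Complex.norm_exp_ofReal_mul_I _

lemma cont_ch : Continuous fun p : V n × V n => ch p.1 p.2 := by
  unfold ch
  fun_prop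

lemma lp_int (g : Lp ℂ 2 (volume : Measure (V n))) (R : ℝ) :
    IntegrableOn (g : V n → ℂ) (closedBall 0 R) := by
  have : IsFiniteMeasure (volume.restrict (closedBall (0 : V n) R)) :=
    ⟨by simpa using measure_closedBall_lt_top⟩
  exact ((Lp.memLp g).restrict (closedBall 0 R)).integrable (by norm_num)

lemma int_ch {g : V n → ℂ} {A : Set (V n)} (hg : IntegrableOn g A) (x : V n) :
    IntegrableOn (fun ξ => g ξ * ch x ξ) A := by
  refine hg.mul_bdd (c := 1) ?_ (Filter.Eventually.of_forall fun ξ => (norm_ch x ξ).le)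
  exact (cont_ch.comp (by fun_prop : Continuous fun ξ : V n => (x, ξ))).aestronglyMeasurable

lemma part_cont {g : V n → ℂ} {A : Set (V n)} (hg : IntegrableOn g A) :
    Continuous (part g A) := by
  unfold part
  refine continuous_of_dominated (F := fun x ξ => g ξ * ch x ξ) (bound := fun ξ => ‖g ξ‖) ?_ ?_ ?_ ?_
  · intro x
    exact (int_ch hg x).aestronglyMeasurable
  · intro x
    exact Filter.Eventually.of_forall fun ξ => by rw [norm_mul, norm_ch, mul_one]
  · exact hg.norm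
  · exact Filter.Eventually.of_forall fun ξ =>
      continuous_const.mul (cont_ch.comp (by fun_prop : Continuous fun x : V n => (x, ξ)))

lemma lpSum_cont (f : Lp ℂ 2 (volume : Measure (V n))) (R : ℝ) : Continuous (lpSum f R) := by
  have := part_cont (lp_int (𝓕 f : Lp ℂ 2 (volume : Measure (V n))) R)
  exact this

lemma part_congr {g h : V n → ℂ} (hgh : g =ᵐ[volume] h) (A : Set (V n)) (x : V n) :
    part g A x = part h A x := by
  unfold part
  refine integral_congr_ae ?_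
  filter_upwards [ae_restrict_of_ae hgh] with ξ hξ
  rw [hξ]

lemma lpSum_sub (f g : Lp ℂ 2 (volume : Measure (V n))) (R : ℝ) (x : V n) :
    lpSum (f - g) R x = lpSum f R x - lpSum g R x := by
  unfold lpSum
  have h1 : (𝓕 (f - g) : Lp ℂ 2 (volume : Measure (V n))) = 𝓕 f - 𝓕 g :=
    map_sub (Lp.fourierTransformₗᵢ (V n) ℂ) f g
  rw [h1, part_congr (Lp.coeFn_sub _ _)]
  unfold part
  rw [← integral_sub (int_ch (lp_int _ R) x) (int_ch (lp_int _ R) x)]
  refine integral_congr_ae (Filter.Eventually.of_forall fun ξ => ?_)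
  simp only [Pi.sub_apply]
  ring

lemma lpSum_toLp (h : 𝓢(V n, ℂ)) (R : ℝ) (x : V n) :
    lpSum (h.toLp 2 volume) R x = ballSum h R x := by
  unfold lpSum ballSum
  rw [SchwartzMap.toLp_fourier_eq, part_congr (SchwartzMap.coeFn_toLp _ _ _)]
  rfl

lemma lint_norm (f : Lp ℂ 2 (volume : Measure (V n))) :
    ∫⁻ x, ‖f x‖ₑ ^ 2 = ENNReal.ofReal (‖f‖ ^ 2) := by
  have h := Lp.enorm_def f
  rw [eLpNorm_eq_lintegral_rpow_enorm_toReal (by norm_num) (by norm_num)] at h
  simp only [ENNReal.toReal_ofNat, ENNReal.rpow_ofNat] at h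
  rw [ENNReal.ofReal_pow (norm_nonneg _), ofReal_norm, h, ← ENNReal.rpow_natCast,
    ← ENNReal.rpow_mul]
  norm_num

lemma exists_close (f : Lp ℂ 2 (volume : Measure (V n))) (ε : ℝ) (hε : 0 < ε) :
    ∃ h : 𝓢(V n, ℂ), ‖f - h.toLp 2 volume‖ < ε := by
  have hd := SchwartzMap.denseRange_toLpCLM (E := V n) (F := ℂ) (p := 2)
    (μ := (volume : Measure (V n))) ENNReal.ofNat_ne_top
  obtain ⟨h, hh⟩ := Metric.denseRange_iff.1 hd f ε hε
  refine ⟨h, ?_⟩
  rw [dist_eq_norm] at hh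
  exact hh

/-- summable square integrals imply convergence to zero -/
lemma ae_tendsto {X : Type*} [MeasurableSpace X] {μ : Measure X} (F : ℕ → X → ℝ≥0∞)
    (hF : ∀ k, AEMeasurable (F k) μ) (hs : ∑' k, ∫⁻ x, F k x ^ 2 ∂μ ≠ ∞) :
    ∀ᵐ x ∂μ, Tendsto (fun k => F k x) atTop (𝓝 0) := by
  rw [← lintegral_tsum (fun k => (hF k).pow_const 2)] at hs
  have h1 := ae_lt_top' (AEMeasurable.tsum fun k => (hF k).pow_const 2) hs
  filter_upwards [h1] with x hx
  have h2 := ENNReal.tendsto_atTop_zero_of_tsum_ne_top hx.ne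
  have h3 : Tendsto (fun k => (F k x ^ 2) ^ (1 / 2 : ℝ)) atTop (𝓝 ((0 : ℝ≥0∞) ^ (1 / 2 : ℝ))) :=
    ENNReal.continuous_rpow_const.continuousAt.tendsto.comp h2
  rw [ENNReal.zero_rpow_of_pos (by norm_num)] at h3
  refine h3.congr fun k => ?_
  rw [← ENNReal.rpow_natCast, ← ENNReal.rpow_mul]
  norm_num

end Pool.Agent.R257.SP.AEp

namespace Pool.Agent.R257.SP

open MeasureTheory Set Metric Filter Topology AEp
open scoped ENNReal NNReal FourierTransform SchwartzMap RealInnerProductSpace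

theorem AE_proof (hINV : Stm.INV) : Stm.AE := by
  intro n E r M hr hM hmax f
  choose h hh using fun k : ℕ => exists_close f ((1 / 2 : ℝ) ^ k) (by positivity)
  -- the squares of the norms are summable
  have hnorm : ∀ k, ∫⁻ x, ‖(f - (h k).toLp 2 volume : Lp ℂ 2 (volume : Measure (V n))) x‖ₑ ^ 2 ≤
      ENNReal.ofReal ((1 / 4 : ℝ) ^ k) := by
    intro k
    rw [lint_norm]
    refine ENNReal.ofReal_le_ofReal ?_
    calc ‖f - (h k).toLp 2 volume‖ ^ 2 ≤ ((1 / 2 : ℝ) ^ k) ^ 2 :=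
          pow_le_pow_left₀ (norm_nonneg _) (hh k).le 2
      _ = (1 / 4 : ℝ) ^ k := by rw [← pow_mul, mul_comm, pow_mul]; norm_num
  have hsum : ∑' k : ℕ, ENNReal.ofReal ((1 / 4 : ℝ) ^ k) ≠ ∞ :=
    (summable_geometric_of_lt_one (by norm_num) (by norm_num)).tsum_ofReal_ne_top
  -- the maximal functions
  set S : ℕ → V n → ℝ≥0∞ := fun k x => ⨆ R ∈ E, ‖lpSum (f - (h k).toLp 2 volume) R x‖ₑ with hS
  have hSm : ∀ k, Measurable (S k) := by
    intro k
    refine LowerSemicontinuous.measurable ?_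
    refine lowerSemicontinuous_biSup fun R _ => ?_
    exact (continuous_enorm.comp (lpSum_cont _ R)).lowerSemicontinuous
  have h1 : ∀ y : V n, ∀ᵐ x ∂(volume.restrict (ball y r)), Tendsto (fun k => S k x) atTop (𝓝 0) := by
    intro y
    refine ae_tendsto S (fun k => (hSm k).aemeasurable) ?_
    refine ne_top_of_le_ne_top (ENNReal.mul_ne_top hM hsum) ?_
    rw [← ENNReal.tsum_mul_left]
    exact ENNReal.tsum_le_tsum fun k => (hmax _ y).trans (mul_le_mul_right (hnorm k) _)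
  have h2 : ∀ᵐ x : V n, Tendsto
      (fun k => ‖(f - (h k).toLp 2 volume : Lp ℂ 2 (volume : Measure (V n))) x‖ₑ) atTop (𝓝 0) := by
    refine ae_tendsto _ (fun k => (Lp.aestronglyMeasurable _).enorm) ?_
    exact ne_top_of_le_ne_top hsum (ENNReal.tsum_le_tsum hnorm)
  have h3 : ∀ᵐ x : V n, ∀ k, (f - (h k).toLp 2 volume : Lp ℂ 2 (volume : Measure (V n))) x =
      f x - h k x := by
    rw [ae_all_iff]
    intro k
    filter_upwards [Lp.coeFn_sub f ((h k).toLp 2 volume), SchwartzMap.coeFn_toLp (h k) 2 volume]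
      with x hx1 hx2
    rw [hx1, Pi.sub_apply, hx2]
  have h4 : ∀ᵐ x : V n, Tendsto (fun k => S k x) atTop (𝓝 0) := by
    -- countably many balls
    obtain ⟨D, hDc, hDd⟩ := TopologicalSpace.exists_countable_dense (V n)
    have hcov : (⋃ y ∈ D, ball y r) = univ := by
      refine eq_univ_of_forall fun x => ?_
      obtain ⟨y, hyD, hy⟩ := hDd.exists_dist_lt x hr
      exact mem_iUnion₂.2 ⟨y, hyD, by rwa [mem_ball]⟩
    have h5 : ∀ᵐ x ∂(volume.restrict (⋃ y ∈ D, ball y r)),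
        Tendsto (fun k => S k x) atTop (𝓝 0) := by
      rw [ae_restrict_biUnion_iff _ hDc]
      exact fun y _ => h1 y
    rwa [hcov, Measure.restrict_univ] at h5
  filter_upwards [h2, h3, h4] with x hx2 hx3 hx4
  rw [EMetric.tendsto_nhds]
  intro ε hε
  have hε3 : 0 < ε / 3 := ENNReal.div_pos hε.ne' (by norm_num)
  obtain ⟨k, hk1, hk2⟩ := ((hx2.eventually (gt_mem_nhds hε3)).and
    (hx4.eventually (gt_mem_nhds hε3))).exists
  have h6 : ∀ᶠ R : ℝ in atTop ⊓ 𝓟 E, edist (ballSum (h k) R x) (h k x) < ε / 3 :=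
    (EMetric.tendsto_nhds.1 ((hINV n (h k) x).mono_left inf_le_left)) (ε / 3) hε3
  have h7 : ∀ᶠ R : ℝ in atTop ⊓ 𝓟 E, R ∈ E := mem_inf_of_right (mem_principal_self E)
  filter_upwards [h6, h7] with R hR1 hR2
  have h8 : edist (lpSum f R x) (ballSum (h k) R x) < ε / 3 := by
    rw [edist_eq_enorm_sub, ← lpSum_toLp, ← lpSum_sub]
    exact (le_iSup₂ (f := fun R (_ : R ∈ E) => ‖lpSum (f - (h k).toLp 2 volume) R x‖ₑ) R hR2).trans_lt hk2
  have h9 : edist (h k x) (f x) < ε / 3 := by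
    rw [edist_comm, edist_eq_enorm_sub, ← hx3 k]
    exact hk1
  have h10 := edist_triangle4 (lpSum f R x) (ballSum (h k) R x) (h k x) (f x)
  have h11 := ENNReal.add_lt_add (ENNReal.add_lt_add h8 hR1) h9
  rw [ENNReal.add_thirds] at h11
  exact h10.trans_lt h11

end Pool.Agent.R257.SP
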