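import Pool.Agent.R257.SP.Stm
import Pool.Agent.H153R4.Pl

namespace Pool.Agent.R257.SP

open MeasureTheory Set Metric
open scoped ENNReal NNReal FourierTransform SchwartzMap RealInnerProductSpace

namespace BLK

variable {n : ℕ}

theorem meas_shell (a b : ℝ) : MeasurableSet (shell n a b) := by
  unfold shell
  exact (measurableSet_lt measurable_const measurable_norm).inter
    (measurableSet_le measurable_norm measurable_const)

theorem norm_ch (x ξ : V n) : ‖ch x ξ‖ = 1 := by
  unfold ch
  exact Complex.norm_exp_ofReal_mul_I _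

theorem cont_ch_right (x : V n) : Continuous (fun ξ : V n => ch x ξ) := by
  unfold ch
  fun_prop

theorem cont_ch_left (ξ : V n) : Continuous (fun x : V n => ch x ξ) := by
  unfold ch
  fun_prop

theorem int_ch {g : V n → ℂ} (hg : Integrable g) (x : V n) :
    Integrable (fun ξ => g ξ * ch x ξ) := by
  refine hg.mul_bdd (c := 1) (cont_ch_right x).aestronglyMeasurable ?_
  exact Filter.Eventually.of_forall (fun ξ => (norm_ch x ξ).le)

theorem cont_part {g : V n → ℂ} (hg : Integrable g) (A : Set (V n)) :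
    Continuous (fun x => part g A x) := by
  unfold part
  refine continuous_of_dominated (bound := fun ξ => ‖g ξ‖) ?_ ?_ ?_ ?_
  · intro x
    exact (int_ch hg x).integrableOn.aestronglyMeasurable
  · intro x
    refine Filter.Eventually.of_forall (fun ξ => ?_)
    rw [norm_mul, norm_ch, mul_one]
  · exact hg.norm.integrableOn
  · refine Filter.Eventually.of_forall (fun ξ => ?_)
    exact continuous_const.mul (cont_ch_left ξ)

theorem shell_union {a b c : ℝ} (h1 : a ≤ b) (h2 : b ≤ c) :
    shell n a c = shell n a b ∪ shell n b c := by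
  ext ξ
  simp only [shell, mem_setOf_eq, mem_union]
  constructor
  · rintro ⟨h3, h4⟩
    by_cases h5 : ‖ξ‖ ≤ b
    · exact Or.inl ⟨h3, h5⟩
    · exact Or.inr ⟨not_le.1 h5, h4⟩
  · rintro (⟨h3, h4⟩ | ⟨h3, h4⟩)
    · exact ⟨h3, h4.trans h2⟩
    · exact ⟨h1.trans_lt h3, h4⟩

theorem shell_disj (a b c : ℝ) : Disjoint (shell n a b) (shell n b c) := by
  rw [Set.disjoint_left]
  intro ξ h1 h2
  simp only [shell, mem_setOf_eq] at h1 h2
  linarith [h1.2, h2.1]

theorem part_add {g : V n → ℂ} (hg : Integrable g) {a b c : ℝ} (h1 : a ≤ b) (h2 : b ≤ c)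
    (x : V n) : part g (shell n a c) x = part g (shell n a b) x + part g (shell n b c) x := by
  unfold part
  rw [shell_union h1 h2]
  exact setIntegral_union (shell_disj a b c) (meas_shell b c) (int_ch hg x).integrableOn
    (int_ch hg x).integrableOn

theorem nsq_add (g : V n → ℂ) {a b c : ℝ} (h1 : a ≤ b) (h2 : b ≤ c) :
    nsq g (shell n a c) = nsq g (shell n a b) + nsq g (shell n b c) := by
  unfold nsq
  rw [shell_union h1 h2]
  exact lintegral_union (meas_shell b c) (shell_disj a b c)

theorem shell_self (a : ℝ) : shell n a a = ∅ := by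
  ext ξ
  simp only [shell, mem_setOf_eq, mem_empty_iff_false, iff_false, not_and, not_le]
  exact fun h => h

theorem part_self (g : V n → ℂ) (a : ℝ) (x : V n) : part g (shell n a a) x = 0 := by
  unfold part
  rw [shell_self]
  simp

theorem nsq_self (g : V n → ℂ) (a : ℝ) : nsq g (shell n a a) = 0 := by
  unfold nsq
  rw [shell_self]
  simp

theorem part_eq_fourier (g : V n → ℂ) {A : Set (V n)} (hA : MeasurableSet A) (x : V n) :
    part g A x = 𝓕 (A.indicator g) (-x) := by
  unfold part
  rw [Real.fourier_eq', ← integral_indicator hA]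
  congr 1
  funext ξ
  rw [smul_eq_mul, mul_comm]
  by_cases h : ξ ∈ A
  · rw [indicator_of_mem h, indicator_of_mem h]
    congr 1
    unfold ch
    congr 1
    rw [inner_neg_right, real_inner_comm]
    push_cast
    ring
  · rw [indicator_of_notMem h, indicator_of_notMem h, zero_mul]

theorem planch {g : V n → ℂ} (hg : Integrable g) (hg2 : MemLp g 2) {A : Set (V n)}
    (hA : MeasurableSet A) : ∫⁻ x, ‖part g A x‖ₑ ^ 2 = nsq g A := by
  have h1 : ∫⁻ x, ‖part g A x‖ₑ ^ 2 = ∫⁻ x, ‖𝓕 (A.indicator g) x‖ₑ ^ 2 := by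
    rw [← lintegral_neg_eq_self (fun x => ‖𝓕 (A.indicator g) x‖ₑ ^ 2)]
    congr 1
    funext x
    rw [part_eq_fourier g hA]
  rw [h1, Pool.Agent.H153R4.plancherel _ (hg.indicator hA) (hg2.indicator hA)]
  unfold nsq
  rw [← lintegral_indicator hA]
  congr 1
  funext x
  by_cases h : x ∈ A
  · rw [indicator_of_mem h, indicator_of_mem h]
  · rw [indicator_of_notMem h, indicator_of_notMem h]
    simp

end BLK

theorem BLK_proof (hRM : Stm.RM) : Stm.BLK := by
  intro n hn g hg hg2 b c K hK y
  rcases K.eq_empty_or_nonempty with rfl | hKne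
  · simp
  classical
  set K' : Finset ℕ := insert b K with hK'
  have hb : ∀ k ∈ K', b ≤ k ∧ k ≤ c := by
    intro k hk
    rw [hK', Finset.mem_insert] at hk
    rcases hk with rfl | hk
    · obtain ⟨k, hk⟩ := hKne
      exact ⟨le_rfl, (hK k hk).1.trans (hK k hk).2⟩
    · exact hK k hk
  have hcard : 0 < K'.card := Finset.card_pos.2 ⟨b, Finset.mem_insert_self _ _⟩
  have hcard2 : K'.card ≤ K.card + 1 := Finset.card_insert_le _ _
  set N := K'.card - 1 with hN
  have hNc : N + 1 = K'.card := by omega
  -- enumeration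
  let e := K'.orderEmbOfFin rfl
  let t : ℕ → ℕ := fun i => if h : i < K'.card then e ⟨i, h⟩ else c
  have htmem : ∀ i, i ≤ N → t i ∈ K' := by
    intro i hi
    have h : i < K'.card := by omega
    simp only [t, dif_pos h]
    exact Finset.orderEmbOfFin_mem _ _ _
  have htmono : ∀ i, i + 1 ≤ N → t i ≤ t (i + 1) := by
    intro i hi
    have h : i < K'.card := by omega
    have h' : i + 1 < K'.card := by omega
    simp only [t, dif_pos h, dif_pos h']
    apply e.monotone
    rw [Fin.le_def]
    simp
  have ht0 : t 0 = b := by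
    simp only [t, dif_pos hcard]
    have h1 : e ⟨0, hcard⟩ = K'.min' ⟨b, Finset.mem_insert_self _ _⟩ :=
      Finset.orderEmbOfFin_zero rfl hcard
    rw [h1]
    apply le_antisymm
    · exact Finset.min'_le _ _ (Finset.mem_insert_self _ _)
    · exact (hb _ (Finset.min'_mem _ _)).1
  have htsurj : ∀ k ∈ K, ∃ i, i ≤ N ∧ t i = k := by
    intro k hk
    have h1 : k ∈ Set.range e := by
      rw [Finset.range_orderEmbOfFin]
      exact_mod_cast Finset.mem_insert_of_mem hk
    obtain ⟨⟨i, hi⟩, hik⟩ := h1
    refine ⟨i, by omega, ?_⟩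
    simp only [t, dif_pos hi]
    exact hik
  have htmono' : ∀ p q, p ≤ q → q ≤ N → t p ≤ t q := by
    intro p q hpq hq
    induction q, hpq using Nat.le_induction with
    | base => exact le_rfl
    | succ q hq' ih => exact (ih (by omega)).trans (htmono q hq)
  -- differences
  let D : ℕ → V n → ℂ := fun i x => part g (shell n (t i) (t (i + 1))) x
  let a : ℕ → ℝ≥0∞ := fun i => nsq g (shell n (t i) (t (i + 1)))
  have hsum : ∀ p q, p ≤ q → q ≤ N → ∀ x, ∑ i ∈ Finset.Ico p q, D i x =
      part g (shell n (t p) (t q)) x := by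
    intro p q hpq hq x
    induction q, hpq using Nat.le_induction with
    | base => rw [Finset.Ico_self, Finset.sum_empty, BLK.part_self]
    | succ q hq' ih =>
      rw [Finset.sum_Ico_succ_top hq', ih (by omega)]
      exact (BLK.part_add hg (by exact_mod_cast htmono' p q hq' (by omega))
        (by exact_mod_cast htmono q hq) x).symm
  have hsuma : ∀ p q, p ≤ q → q ≤ N → ∑ i ∈ Finset.Ico p q, a i =
      nsq g (shell n (t p) (t q)) := by
    intro p q hpq hq
    induction q, hpq using Nat.le_induction with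
    | base => rw [Finset.Ico_self, Finset.sum_empty, BLK.nsq_self]
    | succ q hq' ih =>
      rw [Finset.sum_Ico_succ_top hq', ih (by omega)]
      exact (BLK.nsq_add g (by exact_mod_cast htmono' p q hq' (by omega))
        (by exact_mod_cast htmono q hq)).symm
  have key := hRM (V n) (volume.restrict (ball y 1)) N D a
    (fun i => (BLK.cont_part hg _).aestronglyMeasurable) (by
      intro p q hpq hq
      rw [hsuma p q hpq hq]
      calc ∫⁻ x in ball y 1, ‖∑ i ∈ Finset.Ico p q, D i x‖ₑ ^ 2
          = ∫⁻ x in ball y 1, ‖part g (shell n (t p) (t q)) x‖ₑ ^ 2 := by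
            congr 1
            funext x
            rw [hsum p q hpq hq x]
        _ ≤ ∫⁻ x, ‖part g (shell n (t p) (t q)) x‖ₑ ^ 2 := setLIntegral_le_lintegral _ _
        _ = nsq g (shell n (t p) (t q)) := BLK.planch hg hg2 (BLK.meas_shell _ _))
  calc ∫⁻ x in ball y 1, (⨆ k ∈ K, ‖part g (shell n b k) x‖ₑ) ^ 2
      ≤ ∫⁻ x in ball y 1, (⨆ k ∈ Set.Iic N, ‖∑ i ∈ Finset.range k, D i x‖ₑ) ^ 2 := by
        apply lintegral_mono
        intro x
        apply pow_le_pow_left' _ 2
        apply iSup₂_le
        intro k hk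
        obtain ⟨i, hi, hik⟩ := htsurj k hk
        refine le_trans (le_of_eq ?_) (le_iSup₂ (f := fun k (_ : k ∈ Set.Iic N) =>
          ‖∑ i ∈ Finset.range k, D i x‖ₑ) i hi)
        have h1 := hsum 0 i (Nat.zero_le _) hi x
        rw [← Finset.range_eq_Ico, ht0, hik] at h1
        simp only [h1]
    _ ≤ (Nat.clog 2 N + 1 : ℕ) ^ 2 * ∑ i ∈ Finset.range N, a i := key
    _ ≤ (Nat.clog 2 K.card + 2 : ℕ) ^ 2 * nsq g (shell n b c) := by
        apply mul_le_mul'
        · apply pow_le_pow_left' _ 2
          have : Nat.clog 2 N ≤ Nat.clog 2 K.card := Nat.clog_mono_right 2 (by omega)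
          exact_mod_cast (by omega : Nat.clog 2 N + 1 ≤ Nat.clog 2 K.card + 2)
        · have h1 := hsuma 0 N (Nat.zero_le _) le_rfl
          rw [← Finset.range_eq_Ico, ht0] at h1
          rw [h1]
          unfold nsq
          apply lintegral_mono_set
          intro ξ hξ
          have h2 : (t N : ℝ) ≤ c := by exact_mod_cast (hb _ (htmem N le_rfl)).2
          exact ⟨hξ.1, hξ.2.trans h2⟩

end Pool.Agent.R257.SP
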