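import Pool.Agent.R257.SP.Stm2
import Pool.Agent.H153R4.Pl

namespace Pool.Agent.R257.SP

open MeasureTheory Set Metric Filter Topology Complex
open scoped ENNReal NNReal FourierTransform SchwartzMap ContDiff

variable {n : ℕ}

/-- `g` is the Fourier transform of `f` in the sense of Plancherel. -/
def IsFT (f g : V n → ℂ) : Prop :=
  ∀ φ : 𝓢(V n, ℂ), ∫ ξ, g ξ * φ ξ = ∫ x, f x * 𝓕 (φ : V n → ℂ) x

lemma fourier_ae_eq' (f g : V n → ℂ) (h2 : MemLp f 2) (hg : MemLp g 2) (h : IsFT f g) :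
    ((𝓕 (h2.toLp f) : Lp ℂ 2 (volume : Measure (V n))) : V n → ℂ) =ᵐ[volume] g := by
  apply ae_eq_of_integral_contDiff_smul_eq
  · exact (Lp.memLp _).locallyIntegrable (by norm_num)
  · exact hg.locallyIntegrable (by norm_num)
  · intro u u_smooth u_cpt
    have hg₁ : HasCompactSupport (Complex.ofRealCLM ∘ u) := u_cpt.comp_left rfl
    have hg₂ : ContDiff ℝ ∞ (Complex.ofRealCLM ∘ u) := by fun_prop
    set gS : 𝓢(V n, ℂ) := hg₁.toSchwartzMap hg₂ with hgS
    have hgx : ∀ x, gS x = (u x : ℂ) := fun x => rfl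
    have e1 : ∫ x, u x • ((𝓕 (h2.toLp f) : Lp ℂ 2 (volume : Measure (V n))) : V n → ℂ) x =
        ((𝓕 (h2.toLp f) : Lp ℂ 2 (volume : Measure (V n))) : 𝓢'(V n, ℂ)) gS := by
      rw [Lp.toTemperedDistribution_apply]
      simp [hgx]
    rw [e1, ← Lp.fourier_toTemperedDistribution_eq, TemperedDistribution.fourier_apply,
      Lp.toTemperedDistribution_apply]
    have e2 : ∫ x, (𝓕 gS : 𝓢(V n, ℂ)) x • (h2.toLp f : V n → ℂ) x =
        ∫ x, f x * 𝓕 (gS : V n → ℂ) x := by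
      apply integral_congr_ae
      filter_upwards [h2.coeFn_toLp] with x hx
      rw [hx, SchwartzMap.fourier_coe, smul_eq_mul, mul_comm]
    rw [e2, ← h gS]
    refine integral_congr_ae (Filter.Eventually.of_forall fun x => ?_)
    simp only [hgx, Complex.real_smul]
    ring

theorem conv_bridge (E : Set ℝ)
    (hE : ∀ f : Lp ℂ 2 (volume : Measure (V n)),
      ∀ᵐ x, Tendsto (fun R : ℝ => lpSum f R x) (atTop ⊓ 𝓟 E) (𝓝 (f x)))
    (f g : V n → ℂ) (h2 : MemLp f 2) (hg : MemLp g 2) (h : IsFT f g) :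
    ∀ᵐ x, Tendsto (fun R : ℝ => part g (closedBall 0 R) x) (atTop ⊓ 𝓟 E) (𝓝 (f x)) := by
  have hae := fourier_ae_eq' f g h2 hg h
  have e : ∀ R x, lpSum (h2.toLp f) R x = part g (closedBall 0 R) x := by
    intro R x
    unfold lpSum part
    refine integral_congr_ae ?_
    filter_upwards [ae_restrict_of_ae hae] with ξ hξ
    rw [hξ]
  filter_upwards [hE (h2.toLp f), h2.coeFn_toLp] with x hx hfx
  rw [← hfx]
  simpa only [e] using hx

end Pool.Agent.R257.SP
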