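import Pool.Agent.R257.SP.Stm

/-!
# SP-CORE: the maximal inequality inside a unit shell
-/

set_option autoImplicit false

namespace Pool.Agent.R257.SP

open MeasureTheory Set Metric Filter Topology
open scoped ENNReal NNReal FourierTransform SchwartzMap RealInnerProductSpace

namespace COREaux

theorem ch_norm {n : ℕ} (x ξ : V n) : ‖ch x ξ‖ = 1 := by
  unfold ch
  exact Complex.norm_exp_ofReal_mul_I _

theorem int_mul {n : ℕ} {g : V n → ℂ} (hg : Integrable g) (x : V n) :
    Integrable (fun ξ => g ξ * ch x ξ) := by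
  refine hg.mono (hg.1.mul (Continuous.aestronglyMeasurable (by unfold ch; fun_prop))) ?_
  exact Eventually.of_forall fun ξ => by rw [norm_mul, ch_norm, mul_one]

theorem shell_meas (n : ℕ) (a b : ℝ) : MeasurableSet (shell n a b) := by
  unfold shell
  exact (measurableSet_lt measurable_const measurable_norm).inter
    (measurableSet_le measurable_norm measurable_const)

theorem shell_union (n : ℕ) {a b c : ℝ} (h1 : a ≤ b) (h2 : b ≤ c) :
    shell n a c = shell n a b ∪ shell n b c := by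
  ext ξ
  constructor
  · rintro ⟨h3, h4⟩
    rcases le_or_gt ‖ξ‖ b with h5 | h5
    · exact Or.inl ⟨h3, h5⟩
    · exact Or.inr ⟨h5, h4⟩
  · rintro (⟨h3, h4⟩ | ⟨h3, h4⟩)
    · exact ⟨h3, h4.trans h2⟩
    · exact ⟨lt_of_le_of_lt h1 h3, h4⟩

theorem shell_disj (n : ℕ) (a b c : ℝ) : Disjoint (shell n a b) (shell n b c) := by
  rw [Set.disjoint_left]
  rintro ξ ⟨_, h1⟩ ⟨h2, _⟩
  exact absurd h1 (not_le.2 h2)

theorem shell_self (n : ℕ) (a : ℝ) : shell n a a = ∅ := by
  ext ξ
  constructor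
  · rintro ⟨h1, h2⟩
    exact absurd h2 (not_le.2 h1)
  · intro h
    exact absurd h (Set.notMem_empty ξ)

theorem part_sum {n : ℕ} {g : V n → ℂ} (hg : Integrable g) (t : ℕ → ℝ) (ht : Monotone t)
    (x : V n) (k : ℕ) : part g (shell n (t 0) (t k)) x =
      ∑ i ∈ Finset.range k, part g (shell n (t i) (t (i + 1))) x := by
  induction k with
  | zero => rw [shell_self, Finset.sum_range_zero, part, Measure.restrict_empty,
      integral_zero_measure]
  | succ k ih =>
    rw [Finset.sum_range_succ, ← ih, shell_union n (ht (Nat.zero_le k)) (ht (Nat.le_succ k))]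
    unfold part
    exact setIntegral_union (shell_disj n _ _ _) (shell_meas n _ _) (int_mul hg x).integrableOn
      (int_mul hg x).integrableOn

theorem nsq_sum {n : ℕ} (g : V n → ℂ) (t : ℕ → ℝ) (ht : Monotone t) (k : ℕ) :
    nsq g (shell n (t 0) (t k)) =
      ∑ i ∈ Finset.range k, nsq g (shell n (t i) (t (i + 1))) := by
  induction k with
  | zero => rw [shell_self, Finset.sum_range_zero, nsq, Measure.restrict_empty,
      lintegral_zero_measure]
  | succ k ih =>
    rw [Finset.sum_range_succ, ← ih, shell_union n (ht (Nat.zero_le k)) (ht (Nat.le_succ k))]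
    unfold nsq
    exact lintegral_union (shell_meas n _ _) (shell_disj n _ _ _)

theorem part_cont {n : ℕ} {g : V n → ℂ} (hg : Integrable g) (A : Set (V n)) :
    Continuous (fun x => part g A x) := by
  unfold part
  refine continuous_of_dominated (bound := fun ξ => ‖g ξ‖) (fun x => ?_) (fun x => ?_)
    hg.norm.integrableOn ?_
  · exact (int_mul hg x).1.restrict
  · exact Eventually.of_forall fun ξ => by rw [norm_mul, ch_norm, mul_one]
  · refine Eventually.of_forall fun ξ => ?_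
    unfold ch
    fun_prop

theorem part_right {n : ℕ} {g : V n → ℂ} (hg : Integrable g) (a R : ℝ) (r : ℕ → ℝ)
    (hr : ∀ m, R ≤ r m) (hlim : Tendsto r atTop (𝓝 R)) (x : V n) :
    Tendsto (fun m => part g (shell n a (r m)) x) atTop (𝓝 (part g (shell n a R) x)) := by
  have h1 : ∀ b, part g (shell n a b) x =
      ∫ ξ, (shell n a b).indicator (fun ξ => g ξ * ch x ξ) ξ := by
    intro b
    unfold part
    rw [integral_indicator (shell_meas n _ _)]
  simp only [h1]
  refine tendsto_integral_of_dominated_convergence (fun ξ => ‖g ξ‖) (fun m => ?_) hg.norm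
    (fun m => ?_) ?_
  · exact (int_mul hg x).1.indicator (shell_meas n _ _)
  · refine Eventually.of_forall fun ξ => ?_
    refine (norm_indicator_le_norm_self _ _).trans ?_
    rw [norm_mul, ch_norm, mul_one]
  · refine Eventually.of_forall fun ξ => ?_
    refine tendsto_const_nhds.congr' ?_
    rcases le_or_gt ‖ξ‖ R with h2 | h2
    · refine Eventually.of_forall fun m => ?_
      beta_reduce
      by_cases h3 : a < ‖ξ‖
      · rw [indicator_of_mem (show ξ ∈ shell n a R from ⟨h3, h2⟩),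
          indicator_of_mem (show ξ ∈ shell n a (r m) from ⟨h3, h2.trans (hr m)⟩)]
      · rw [indicator_of_notMem (show ξ ∉ shell n a R from fun h => h3 h.1),
          indicator_of_notMem (show ξ ∉ shell n a (r m) from fun h => h3 h.1)]
    · filter_upwards [hlim.eventually (gt_mem_nhds h2)] with m hm
      rw [indicator_of_notMem (show ξ ∉ shell n a R from fun h => absurd h.2 (not_le.2 h2)),
        indicator_of_notMem (show ξ ∉ shell n a (r m) from fun h => absurd h.2 (not_le.2 hm))]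

theorem cs (k : ℕ) (z : ℕ → ℂ) : ‖∑ i ∈ Finset.range k, z i‖ₑ ^ 2 ≤
    (k : ℝ≥0∞) * ∑ i ∈ Finset.range k, ‖z i‖ₑ ^ 2 := by
  have h1 : ∀ w : ℂ, ‖w‖ₑ ^ 2 = ENNReal.ofReal (‖w‖ ^ 2) := by
    intro w
    rw [ENNReal.ofReal_pow (norm_nonneg _), ofReal_norm]
  simp only [h1]
  rw [← ENNReal.ofReal_sum_of_nonneg (fun i _ => by positivity), ← ENNReal.ofReal_natCast,
    ← ENNReal.ofReal_mul (Nat.cast_nonneg k)]
  apply ENNReal.ofReal_le_ofReal
  have h2 : ‖∑ i ∈ Finset.range k, z i‖ ≤ ∑ i ∈ Finset.range k, ‖z i‖ := norm_sum_le _ _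
  have h3 := sq_sum_le_card_mul_sum_sq (s := Finset.range k) (f := fun i => ‖z i‖)
  rw [Finset.card_range] at h3
  exact (pow_le_pow_left₀ (norm_nonneg _) h2 2).trans h3

/-- the grid -/
noncomputable def gr (a : ℝ) (m i : ℕ) : ℝ := a + i / 2 ^ m

theorem gr_mono (a : ℝ) (m : ℕ) : Monotone (gr a m) := by
  intro i j hij
  unfold gr
  have : (i : ℝ) ≤ j := by exact_mod_cast hij
  gcongr

theorem gr_zero (a : ℝ) (m : ℕ) : gr a m 0 = a := by
  unfold gr
  simp

theorem gr_top (a : ℝ) (m : ℕ) : gr a m (2 ^ m) = a + 1 := by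
  unfold gr
  push_cast
  rw [div_self (by positivity)]

/-- the square function -/
noncomputable def FF {n : ℕ} (g : V n → ℂ) (a : ℝ) (m : ℕ) (x : V n) : ℝ≥0∞ :=
  (2 : ℝ≥0∞) ^ m * ∑ i ∈ Finset.range (2 ^ m), ‖part g (shell n (gr a m i) (gr a m (i + 1))) x‖ₑ ^ 2

theorem FF_ge {n : ℕ} {g : V n → ℂ} (hg : Integrable g) (a : ℝ) (m k : ℕ) (hk : k ≤ 2 ^ m)
    (x : V n) : ‖part g (shell n a (gr a m k)) x‖ₑ ^ 2 ≤ FF g a m x := by
  have h1 := part_sum hg (gr a m) (gr_mono a m) x k
  rw [gr_zero] at h1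
  rw [h1]
  refine (cs k _).trans ?_
  unfold FF
  refine mul_le_mul' ?_ ?_
  · calc (k : ℝ≥0∞) ≤ ((2 ^ m : ℕ) : ℝ≥0∞) := by exact_mod_cast hk
      _ = 2 ^ m := by push_cast; rfl
  · exact Finset.sum_le_sum_of_subset (Finset.range_mono hk)

theorem FF_int {n : ℕ} {C : ℝ≥0} {g : V n → ℂ} (hg : Integrable g) (a : ℝ) (ha : 0 ≤ a)
    (y : V n) (h : ∀ (a b : ℝ), 0 ≤ a → a ≤ b → b ≤ a + 1 →
      ∫⁻ x in ball y 1, ‖part g (shell n a b) x‖ₑ ^ 2 ≤
        C * ENNReal.ofReal (b - a) * nsq g (shell n a b)) (m : ℕ) :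
    ∫⁻ x in ball y 1, FF g a m x ≤ C * nsq g (shell n a (a + 1)) := by
  have hm : ∀ i, Measurable (fun x =>
      ‖part g (shell n (gr a m i) (gr a m (i + 1))) x‖ₑ ^ 2) := fun i =>
    ((part_cont hg _).measurable.enorm).pow_const 2
  unfold FF
  rw [lintegral_const_mul _ (Finset.measurable_sum _ fun i _ => hm i),
    lintegral_finsetSum _ fun i _ => hm i]
  have h1 : ∀ i ∈ Finset.range (2 ^ m),
      ∫⁻ x in ball y 1, ‖part g (shell n (gr a m i) (gr a m (i + 1))) x‖ₑ ^ 2 ≤
        C * ENNReal.ofReal (1 / 2 ^ m) * nsq g (shell n (gr a m i) (gr a m (i + 1))) := by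
    intro i _
    have e1 : gr a m (i + 1) - gr a m i = 1 / 2 ^ m := by
      unfold gr
      push_cast
      ring
    have h2 := h (gr a m i) (gr a m (i + 1)) (by unfold gr; positivity)
      (gr_mono a m (Nat.le_succ i)) (by
        have : (1 : ℝ) / 2 ^ m ≤ 1 := by
          rw [div_le_one (by positivity)]
          exact one_le_pow₀ (by norm_num)
        linarith)
    rw [e1] at h2
    exact h2
  refine (mul_le_mul' le_rfl (Finset.sum_le_sum h1)).trans ?_
  rw [← Finset.mul_sum]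
  have h3 := nsq_sum g (gr a m) (gr_mono a m) (2 ^ m)
  rw [gr_zero, gr_top] at h3
  rw [← h3]
  have h4 : (2 : ℝ≥0∞) ^ m * ENNReal.ofReal (1 / 2 ^ m) = 1 := by
    have e2 : (2 : ℝ≥0∞) ^ m = ENNReal.ofReal (2 ^ m) := by
      rw [ENNReal.ofReal_pow (by norm_num), ENNReal.ofReal_ofNat]
    rw [e2, ← ENNReal.ofReal_mul (by positivity), mul_one_div, div_self (by positivity),
      ENNReal.ofReal_one]
  calc (2 : ℝ≥0∞) ^ m * (C * ENNReal.ofReal (1 / 2 ^ m) * nsq g (shell n a (a + 1)))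
      = C * ((2 : ℝ≥0∞) ^ m * ENNReal.ofReal (1 / 2 ^ m)) * nsq g (shell n a (a + 1)) := by ring
    _ ≤ _ := by rw [h4, mul_one]

theorem sup_le {n : ℕ} {g : V n → ℂ} (hg : Integrable g) (a : ℝ) (x : V n) :
    (⨆ R ∈ Icc a (a + 1), ‖part g (shell n a R) x‖ₑ) ^ 2 ≤
      liminf (fun m => FF g a m x) atTop := by
  have h1 : ∀ R ∈ Icc a (a + 1), ‖part g (shell n a R) x‖ₑ ^ 2 ≤
      liminf (fun m => FF g a m x) atTop := by
    rintro R ⟨hR1, hR2⟩
    obtain ⟨k, hk⟩ : ∃ k : ℕ → ℕ, k = fun m => ⌈(R - a) * 2 ^ m⌉₊ := ⟨_, rfl⟩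
    have hk1 : ∀ m, k m ≤ 2 ^ m := by
      intro m
      rw [hk]
      apply Nat.ceil_le.2
      push_cast
      have h2 : (0 : ℝ) < 2 ^ m := by positivity
      nlinarith
    have hk2 : ∀ m, R ≤ gr a m (k m) := by
      intro m
      have h2 : (0 : ℝ) < 2 ^ m := by positivity
      have h3 : (R - a) * 2 ^ m ≤ k m := by rw [hk]; exact Nat.le_ceil _
      unfold gr
      rw [← sub_le_iff_le_add', le_div_iff₀ h2]
      exact h3
    have hk3 : ∀ m, gr a m (k m) ≤ R + 1 / 2 ^ m := by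
      intro m
      have h2 : (0 : ℝ) < 2 ^ m := by positivity
      have h3 : (k m : ℝ) < (R - a) * 2 ^ m + 1 := by
        rw [hk]
        exact Nat.ceil_lt_add_one (mul_nonneg (by linarith) h2.le)
      unfold gr
      have h4 : (k m : ℝ) / 2 ^ m ≤ (R - a) + 1 / 2 ^ m := by
        rw [div_le_iff₀ h2, add_mul, div_mul_cancel₀ _ h2.ne']
        exact h3.le
      linarith
    have hlim : Tendsto (fun m => gr a m (k m)) atTop (𝓝 R) := by
      refine tendsto_of_tendsto_of_tendsto_of_le_of_le tendsto_const_nhds ?_ hk2 hk3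
      have h5 : Tendsto (fun m : ℕ => (1 : ℝ) / 2 ^ m) atTop (𝓝 0) := by
        simp only [one_div, ← inv_pow]
        exact tendsto_pow_atTop_nhds_zero_of_lt_one (by norm_num) (by norm_num)
      simpa using (tendsto_const_nhds (x := R)).add h5
    have h6 := part_right hg a R _ hk2 hlim x
    have h7 : Tendsto (fun m => ‖part g (shell n a (gr a m (k m))) x‖ₑ ^ 2) atTop
        (𝓝 (‖part g (shell n a R) x‖ₑ ^ 2)) :=
      (ENNReal.continuous_pow 2).continuousAt.tendsto.comp h6.enorm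
    rw [← h7.liminf_eq]
    exact liminf_le_liminf (Eventually.of_forall fun m => FF_ge hg a m (k m) (hk1 m) x)
  have h2 : (⨆ R ∈ Icc a (a + 1), ‖part g (shell n a R) x‖ₑ) ≤
      (liminf (fun m => FF g a m x) atTop) ^ (1 / 2 : ℝ) := by
    refine iSup₂_le fun R hR => ?_
    have h3 := h1 R hR
    have h4 := ENNReal.rpow_le_rpow h3 (by norm_num : (0 : ℝ) ≤ 1 / 2)
    refine le_trans (le_of_eq ?_) h4
    rw [← ENNReal.rpow_natCast, ← ENNReal.rpow_mul]
    norm_num
  refine (pow_le_pow_left' h2 2).trans (le_of_eq ?_)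
  rw [← ENNReal.rpow_natCast, ← ENNReal.rpow_mul]
  norm_num

end COREaux

open COREaux

/-- SP-CORE -/
theorem CORE_proof (hTH : Stm.TH) : Stm.CORE := by
  intro n hn
  obtain ⟨C, hC⟩ := hTH n hn
  refine ⟨C, fun g hg hg2 a ha y => ?_⟩
  calc ∫⁻ x in ball y 1, (⨆ R ∈ Icc a (a + 1), ‖part g (shell n a R) x‖ₑ) ^ 2
      ≤ ∫⁻ x in ball y 1, liminf (fun m => FF g a m x) atTop :=
        lintegral_mono fun x => sup_le hg a x
    _ ≤ liminf (fun m => ∫⁻ x in ball y 1, FF g a m x) atTop := by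
        refine lintegral_liminf_le fun m => ?_
        unfold FF
        exact (Finset.measurable_sum _ fun i _ =>
          ((part_cont hg _).measurable.enorm).pow_const 2).const_mul _
    _ ≤ C * nsq g (shell n a (a + 1)) := by
        refine liminf_le_of_le (by isBoundedDefault) fun b hb => ?_
        obtain ⟨m, hm⟩ := hb.exists
        exact hm.trans (FF_int hg a ha y (fun a b h1 h2 h3 => hC g hg hg2 a b h1 h2 h3 y) m)

end Pool.Agent.R257.SP
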