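import Pool.Agent.R257.SP.Stm

/-! Piece SP-DIL: dilation. -/

namespace Pool.Agent.R257.SP

open MeasureTheory Set Metric
open scoped ENNReal NNReal FourierTransform SchwartzMap RealInnerProductSpace Pointwise

namespace DILaux

variable {n : ℕ}

/-- dilation as a continuous linear equivalence -/
noncomputable def dil (n : ℕ) (ρ : ℝ) (h : ρ ≠ 0) : V n ≃L[ℝ] V n :=
  ContinuousLinearEquiv.smulLeft (Units.mk0 ρ h)

theorem dil_apply (ρ : ℝ) (h : ρ ≠ 0) (x : V n) : dil n ρ h x = ρ • x := rfl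

theorem lint_smul (ρ : ℝ) (h : 0 < ρ) (F : V n → ℝ≥0∞) :
    ∫⁻ x, F (ρ • x) = ENNReal.ofReal ((ρ ^ n)⁻¹) * ∫⁻ x, F x := by
  have h1 : Measure.map (fun x : V n => ρ • x) volume =
      ENNReal.ofReal |(ρ ^ (Module.finrank ℝ (V n)))⁻¹| • (volume : Measure (V n)) :=
    Measure.map_addHaar_smul volume h.ne'
  have h2 : MeasurableEmbedding (fun x : V n => ρ • x) :=
    (Homeomorph.smulOfNeZero ρ h.ne').measurableEmbedding
  rw [finrank_euclideanSpace, Fintype.card_fin, abs_of_pos (by positivity)] at h1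
  rw [← h2.lintegral_map F, h1, lintegral_smul_measure, smul_eq_mul]

theorem ch_smul (ρ : ℝ) (h : ρ ≠ 0) (x ξ : V n) : ch (ρ⁻¹ • x) (ρ • ξ) = ch x ξ := by
  unfold ch
  rw [real_inner_smul_left, real_inner_smul_right, ← mul_assoc (ρ⁻¹), inv_mul_cancel₀ h, one_mul]

theorem four_smul (f : V n → ℂ) (ρ : ℝ) (h : 0 < ρ) (ξ : V n) :
    𝓕 (fun x : V n => f (ρ • x)) (ρ • ξ) = ((ρ ^ n)⁻¹ : ℝ) • 𝓕 f ξ := by
  rw [Real.fourier_eq, Real.fourier_eq]
  have h1 := Measure.integral_comp_smul_of_nonneg (volume : Measure (V n))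
    (fun v : V n => Real.fourierChar (-(inner ℝ v ξ)) • f v) ρ (hR := h.le)
  rw [finrank_euclideanSpace, Fintype.card_fin] at h1
  rw [← h1]
  refine integral_congr_ae (Filter.Eventually.of_forall fun v => ?_)
  simp only [real_inner_smul_left, real_inner_smul_right]

end DILaux

open DILaux in
theorem DIL_proof : Stm.DIL := by
  intro n f ρ hρ
  have hpos : (0 : ℝ) < ρ ^ n := by positivity
  refine ⟨SchwartzMap.compCLMOfContinuousLinearEquiv ℝ (dil n ρ hρ.ne') f, ?_, ?_, ?_⟩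
  · intro R x
    have hf : ((SchwartzMap.compCLMOfContinuousLinearEquiv ℝ (dil n ρ hρ.ne') f : 𝓢(V n, ℂ)) :
        V n → ℂ) = fun x => f (ρ • x) := rfl
    unfold ballSum part
    rw [hf]
    have h1 := Measure.setIntegral_comp_smul_of_pos (volume : Measure (V n))
      (fun ξ : V n => 𝓕 (fun x : V n => f (ρ • x)) ξ * ch (ρ⁻¹ • x) ξ) (closedBall (0 : V n) R) hρ
    rw [finrank_euclideanSpace, Fintype.card_fin, smul_closedBall' hρ.ne', smul_zero,
      Real.norm_eq_abs, abs_of_pos hρ] at h1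
    have h2 : ∀ ξ : V n, 𝓕 (fun x : V n => f (ρ • x)) (ρ • ξ) * ch (ρ⁻¹ • x) (ρ • ξ) =
        ((ρ ^ n)⁻¹ : ℝ) • (𝓕 (f : V n → ℂ) ξ * ch x ξ) := by
      intro ξ
      rw [ch_smul ρ hρ.ne', four_smul _ ρ hρ, smul_mul_assoc]
    simp only [h2] at h1
    rw [integral_smul] at h1
    exact smul_right_injective ℂ (inv_ne_zero hpos.ne') h1
  · have h1 := lint_smul (n := n) ρ hρ (fun x => ‖f x‖ₑ ^ 2)
    have h2 : ∫⁻ x, ‖(SchwartzMap.compCLMOfContinuousLinearEquiv ℝ (dil n ρ hρ.ne') f :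
        𝓢(V n, ℂ)) x‖ₑ ^ 2 = ∫⁻ x, ‖f (ρ • x)‖ₑ ^ 2 := rfl
    rw [h2, h1, ← mul_assoc, ← ENNReal.ofReal_mul hpos.le, mul_inv_cancel₀ hpos.ne',
      ENNReal.ofReal_one, one_mul]
  · intro F y
    have h1 := lint_smul (n := n) ρ⁻¹ (inv_pos.2 hρ)
      (fun x => (ball (ρ⁻¹ • y) 1).indicator F x)
    rw [inv_pow, inv_inv] at h1
    rw [← lintegral_indicator measurableSet_ball, ← lintegral_indicator measurableSet_ball, ← h1]
    refine lintegral_congr fun x => ?_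
    have h3 : x ∈ ball y ρ ↔ ρ⁻¹ • x ∈ ball (ρ⁻¹ • y) 1 := by
      rw [mem_ball, mem_ball, dist_smul₀, Real.norm_eq_abs, abs_of_pos (inv_pos.2 hρ),
        inv_mul_lt_iff₀ hρ, mul_one]
    by_cases hx : x ∈ ball y ρ
    · rw [indicator_of_mem hx, indicator_of_mem (h3.1 hx)]
    · rw [indicator_of_notMem hx, indicator_of_notMem (fun h => hx (h3.2 h))]

end Pool.Agent.R257.SP
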