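import Mathlib

/-!
Ball partial sums of Fourier integrals on `ℝⁿ`: definitions and statements of the pieces.
-/

namespace Pool.Agent.R257.SP

open MeasureTheory Set Metric
open scoped ENNReal NNReal FourierTransform SchwartzMap RealInnerProductSpace

/-- Euclidean space. -/
abbrev V (n : ℕ) := EuclideanSpace ℝ (Fin n)

/-- the character `e^{2πi⟨x,ξ⟩}` -/
noncomputable def ch {n : ℕ} (x ξ : V n) : ℂ :=
  Complex.exp (((2 * Real.pi * inner ℝ x ξ : ℝ) : ℂ) * Complex.I)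

/-- the part of the Fourier integral of `g` over the set `A` -/
noncomputable def part {n : ℕ} (g : V n → ℂ) (A : Set (V n)) (x : V n) : ℂ :=
  ∫ ξ in A, g ξ * ch x ξ

/-- the shell `a < |ξ| ≤ b` -/
def shell (n : ℕ) (a b : ℝ) : Set (V n) := {ξ | a < ‖ξ‖ ∧ ‖ξ‖ ≤ b}

/-- square of the `L²` norm over a set -/
noncomputable def nsq {n : ℕ} (g : V n → ℂ) (A : Set (V n)) : ℝ≥0∞ := ∫⁻ ξ in A, ‖g ξ‖ₑ ^ 2

/-- the ball partial sum `S_R f(x)` -/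
noncomputable def ballSum {n : ℕ} (f : 𝓢(V n, ℂ)) (R : ℝ) (x : V n) : ℂ :=
  part (𝓕 (f : V n → ℂ)) (closedBall 0 R) x

/-- the integer parts of `ρ R` for the radii `R` of `E` with `2 ^ j ≤ ρ R < 2 ^ (j + 1)` -/
def cells (E : Set ℝ) (ρ : ℝ) (j : ℕ) : Set ℕ :=
  {k : ℕ | ∃ R ∈ E, (2 : ℝ) ^ j ≤ ρ * R ∧ ρ * R < 2 ^ (j + 1) ∧ k = ⌊ρ * R⌋₊}

end Pool.Agent.R257.SP
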