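import Pool.Agent.R257.SP.Stm2

/-!
Piece EXT: the maximal inequality extends from Schwartz functions to `L²`.
-/

set_option autoImplicit false

namespace Pool.Agent.R257.SP

open MeasureTheory Set Metric Filter Topology
open scoped ENNReal NNReal FourierTransform SchwartzMap RealInnerProductSpace

namespace EXTaux

variable {n : ℕ}

lemma norm_ch (x ξ : V n) : ‖ch x ξ‖ = 1 := by
  unfold ch
  exact Complex.norm_exp_ofReal_mul_I _

lemma cont_ch : Continuous fun p : V n × V n => ch p.1 p.2 := by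
  unfold ch
  fun_prop

lemma int_ch {g : V n → ℂ} (hg : Integrable g) (A : Set (V n)) (x : V n) :
    IntegrableOn (fun ξ => g ξ * ch x ξ) A := by
  refine Integrable.integrableOn ?_
  refine hg.mul_bdd (c := 1) ?_ (Filter.Eventually.of_forall fun ξ => (norm_ch x ξ).le)
  exact (cont_ch.comp (by fun_prop : Continuous fun ξ : V n => (x, ξ))).aestronglyMeasurable

lemma part_cont {g : V n → ℂ} (hg : Integrable g) (A : Set (V n)) :
    Continuous (part g A) := by
  unfold part
  refine continuous_of_dominated (F := fun x ξ => g ξ * ch x ξ) (bound := fun ξ => ‖g ξ‖) ?_ ?_ ?_ ?_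
  · intro x
    exact (int_ch hg A x).aestronglyMeasurable
  · intro x
    exact Filter.Eventually.of_forall fun ξ => by rw [norm_mul, norm_ch, mul_one]
  · exact hg.norm.integrableOn
  · exact Filter.Eventually.of_forall fun ξ =>
      continuous_const.mul (cont_ch.comp (by fun_prop : Continuous fun x : V n => (x, ξ)))

lemma part_congr {g g' : V n → ℂ} (h : g =ᵐ[volume] g') (A : Set (V n)) (x : V n) :
    part g A x = part g' A x := by
  unfold part
  refine integral_congr_ae (ae_restrict_of_ae ?_)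
  filter_upwards [h] with ξ hξ
  rw [hξ]

lemma part_eq_inner (R : ℝ) (x : V n) : ∃ φ : Lp ℂ 2 (volume : Measure (V n)),
    ∀ g : Lp ℂ 2 (volume : Measure (V n)),
      part (g : V n → ℂ) (closedBall 0 R) x = inner ℂ φ g := by
  have hc : Continuous (fun ξ : V n => (starRingEnd ℂ) (ch x ξ)) := by
    refine Complex.continuous_conj.comp ?_
    exact cont_ch.comp (by fun_prop : Continuous fun ξ : V n => (x, ξ))
  have hM : MemLp ((closedBall (0 : V n) R).indicator fun ξ => (starRingEnd ℂ) (ch x ξ)) 2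
      (volume : Measure (V n)) := by
    rw [memLp_indicator_iff_restrict measurableSet_closedBall]
    have : IsFiniteMeasure ((volume : Measure (V n)).restrict (closedBall 0 R)) :=
      ⟨by rw [Measure.restrict_apply_univ]; exact measure_closedBall_lt_top⟩
    refine MemLp.of_bound hc.aestronglyMeasurable 1 (Eventually.of_forall fun ξ => ?_)
    rw [RCLike.norm_conj, norm_ch]
  refine ⟨hM.toLp _, fun g => ?_⟩
  rw [L2.inner_def]
  unfold part
  rw [← integral_indicator measurableSet_closedBall]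
  refine integral_congr_ae ?_
  filter_upwards [hM.coeFn_toLp] with ξ hξ
  rw [hξ]
  by_cases h : ξ ∈ closedBall (0 : V n) R
  · rw [indicator_of_mem h, indicator_of_mem h, RCLike.inner_apply]
    simp
  · rw [indicator_of_notMem h, indicator_of_notMem h, inner_zero_left]

lemma ballSum_eq (u : 𝓢(V n, ℂ)) (R : ℝ) (x : V n) :
    ballSum u R x = lpSum (u.toLp 2) R x := by
  unfold ballSum lpSum
  refine part_congr ?_ _ _
  rw [SchwartzMap.toLp_fourier_eq]
  exact ((𝓕 u).coeFn_toLp 2 volume).symm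

lemma tend (u : ℕ → 𝓢(V n, ℂ)) (f : Lp ℂ 2 (volume : Measure (V n)))
    (h : Tendsto (fun k => (u k).toLp 2) atTop (𝓝 f)) (R : ℝ) (x : V n) :
    Tendsto (fun k => ballSum (u k) R x) atTop (𝓝 (lpSum f R x)) := by
  obtain ⟨φ, hφ⟩ := part_eq_inner R x
  have h1 : ∀ k, ballSum (u k) R x =
      inner ℂ φ (𝓕 ((u k).toLp 2) : Lp ℂ 2 (volume : Measure (V n))) := by
    intro k
    rw [ballSum_eq]
    exact hφ _
  have h2 : lpSum f R x = inner ℂ φ (𝓕 f : Lp ℂ 2 (volume : Measure (V n))) := hφ _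
  simp only [h1, h2]
  have hc : Continuous (fun g : Lp ℂ 2 (volume : Measure (V n)) =>
      (𝓕 g : Lp ℂ 2 (volume : Measure (V n)))) :=
    (Lp.fourierTransformₗᵢ (V n) ℂ).continuous
  have h3 : Tendsto (fun k => (𝓕 ((u k).toLp 2) : Lp ℂ 2 (volume : Measure (V n)))) atTop
      (𝓝 (𝓕 f)) := (hc.tendsto f).comp h
  exact (continuous_const.inner continuous_id).continuousAt.tendsto.comp h3

lemma lint_sq (g : Lp ℂ 2 (volume : Measure (V n))) : ∫⁻ x, ‖g x‖ₑ ^ 2 = ‖g‖ₑ ^ 2 := by
  rw [Lp.enorm_def]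
  have h := eLpNorm_nnreal_pow_eq_lintegral (f := (g : V n → ℂ)) (μ := (volume : Measure (V n)))
    (p := 2) (by norm_num)
  have e : (((2 : ℝ≥0) : ℝ≥0∞)) = 2 := by norm_num
  rw [e] at h
  have e2 : (((2 : ℝ≥0) : ℝ)) = ((2 : ℕ) : ℝ) := by norm_num
  simp only [e2, ENNReal.rpow_natCast] at h
  exact h.symm

lemma sup_sq_le {ι : Type*} (E : Set ι) (a : ι → ℝ≥0∞) (L : ℝ≥0∞)
    (h : ∀ R ∈ E, a R ^ 2 ≤ L) : (⨆ R ∈ E, a R) ^ 2 ≤ L := by
  have hL : (L ^ (1 / 2 : ℝ)) ^ 2 = L := by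
    rw [← ENNReal.rpow_natCast, ← ENNReal.rpow_mul]
    norm_num
  rw [← hL]
  refine (ENNReal.pow_le_pow_left_iff two_ne_zero).2 (iSup₂_le fun R hR => ?_)
  rw [← ENNReal.pow_le_pow_left_iff two_ne_zero, hL]
  exact h R hR

end EXTaux

open EXTaux in
theorem EXT_proof : Stm.EXT := by
  intro n E U M hM hU hyp f
  obtain ⟨v, hv1, hv2⟩ := mem_closure_iff_seq_limit.1
    ((SchwartzMap.denseRange_toLpCLM (E := V n) (F := ℂ) (p := 2)
      (μ := (volume : Measure (V n))) ENNReal.ofNat_ne_top) f)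
  choose u hu using hv1
  have hv : v = fun k => (u k).toLp 2 := by
    funext k
    exact (hu k).symm
  rw [hv] at hv2
  -- the maximal functions
  let S : ℕ → V n → ℝ≥0∞ := fun k x => ⨆ R ∈ E, ‖ballSum (u k) R x‖ₑ
  have hSm : ∀ k, Measurable (fun x => S k x ^ 2) := by
    intro k
    refine Measurable.pow_const ?_ 2
    refine LowerSemicontinuous.measurable (lowerSemicontinuous_biSup fun R _ => ?_)
    refine Continuous.lowerSemicontinuous ?_
    refine continuous_enorm.comp ?_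
    exact part_cont (𝓕 (u k)).integrable _
  have hpt : ∀ x, (⨆ R ∈ E, ‖lpSum f R x‖ₑ) ^ 2 ≤ liminf (fun k => S k x ^ 2) atTop := by
    intro x
    refine sup_sq_le E _ _ fun R hR => ?_
    have h1 : Tendsto (fun k => ‖ballSum (u k) R x‖ₑ ^ 2) atTop (𝓝 (‖lpSum f R x‖ₑ ^ 2)) :=
      ((ENNReal.continuous_pow 2).comp continuous_enorm).continuousAt.tendsto.comp
        (tend u f hv2 R x)
    rw [← h1.liminf_eq]
    refine liminf_le_liminf (Eventually.of_forall fun k => ?_)
    exact (ENNReal.pow_le_pow_left_iff two_ne_zero).2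
      (le_iSup₂_of_le (f := fun R (_ : R ∈ E) => ‖ballSum (u k) R x‖ₑ) R hR le_rfl)
  have hlim : Tendsto (fun k => M * ∫⁻ x, ‖u k x‖ₑ ^ 2) atTop (𝓝 (M * ∫⁻ x, ‖f x‖ₑ ^ 2)) := by
    refine ENNReal.Tendsto.const_mul ?_ (Or.inr hM)
    have h1 : ∀ k, ∫⁻ x, ‖u k x‖ₑ ^ 2 = ‖(u k).toLp 2‖ₑ ^ 2 := by
      intro k
      rw [← lint_sq]
      refine lintegral_congr_ae ?_
      filter_upwards [(u k).coeFn_toLp 2 volume] with x hx
      rw [hx]
    simp only [h1]
    rw [lint_sq]
    exact ((ENNReal.continuous_pow 2).comp continuous_enorm).continuousAt.tendsto.comp hv2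
  calc ∫⁻ x in U, (⨆ R ∈ E, ‖lpSum f R x‖ₑ) ^ 2
      ≤ ∫⁻ x in U, liminf (fun k => S k x ^ 2) atTop := lintegral_mono fun x => hpt x
    _ ≤ liminf (fun k => ∫⁻ x in U, S k x ^ 2) atTop := lintegral_liminf_le hSm
    _ ≤ liminf (fun k => M * ∫⁻ x, ‖u k x‖ₑ ^ 2) atTop :=
        liminf_le_liminf (Eventually.of_forall fun k => hyp (u k))
    _ = M * ∫⁻ x, ‖f x‖ₑ ^ 2 := hlim.liminf_eq

end Pool.Agent.R257.SP
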