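import Pool.Agent.R257.SP.Stm

namespace Pool.Agent.R257.SP

open MeasureTheory Set Metric Filter Topology
open scoped ENNReal NNReal FourierTransform SchwartzMap RealInnerProductSpace

lemma clog_le (N : ℕ) (hN : 1 ≤ N) : ((Nat.clog 2 N + 1 : ℕ) : ℝ) ≤ 4 * (1 + Real.log N) := by
  have hlog0 : 0 ≤ Real.log N := Real.log_nonneg (by exact_mod_cast hN)
  rcases Nat.lt_or_ge 1 N with h1 | h1
  · have h2 : 2 ^ (Nat.clog 2 N - 1) < N := Nat.pow_pred_clog_lt_self (by norm_num) h1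
    have h3 : ((2 : ℝ) ^ (Nat.clog 2 N - 1)) ≤ N := by exact_mod_cast h2.le
    have h4 := Real.log_le_log (by positivity) h3
    rw [Real.log_pow] at h4
    have h5 : (0.6931471803 : ℝ) < Real.log 2 := Real.log_two_gt_d9
    have h6 : ((Nat.clog 2 N : ℕ) : ℝ) ≤ ((Nat.clog 2 N - 1 : ℕ) : ℝ) + 1 := by
      norm_cast; omega
    have h7 : (0 : ℝ) ≤ ((Nat.clog 2 N - 1 : ℕ) : ℝ) := Nat.cast_nonneg _
    push_cast
    nlinarith
  · have h2 : N = 1 := by omega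
    subst h2
    simp

theorem FIN_proof (hU : Stm.UNIT) (hD : Stm.DIL) : Stm.FIN := by
  intro n hn
  obtain ⟨C, hC⟩ := hU n (by omega)
  refine ⟨(C : ℝ) * 16, ?_⟩
  intro ρ hρ N hN E hE hcell f y
  obtain ⟨h, h1, h2, h3⟩ := hD n f ρ hρ
  set E' : Set ℝ := (fun R => ρ * R) '' E with hE'
  have hE'0 : E' ⊆ Ioi 0 := by
    rintro _ ⟨R, hR, rfl⟩
    exact mul_pos hρ (hE hR)
  have hcell' : ∀ j, (cells E' 1 j).encard ≤ N := by
    intro j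
    refine le_trans (Set.encard_le_encard ?_) (hcell j)
    rintro k ⟨_, ⟨R, hR, rfl⟩, a1, a2, a3⟩
    simp only [one_mul] at a1 a2 a3
    exact ⟨R, hR, a1, a2, a3⟩
  have key := hC N hN E' hE'0 hcell' h (ρ⁻¹ • y)
  have e1 : ∀ x, (⨆ R ∈ E, ‖ballSum f R x‖ₑ) = ⨆ R' ∈ E', ‖ballSum h R' (ρ⁻¹ • x)‖ₑ := by
    intro x
    rw [hE', iSup_image]
    refine iSup_congr fun R => iSup_congr fun _ => ?_
    rw [h1]
  calc ∫⁻ x in ball y ρ, (⨆ R ∈ E, ‖ballSum f R x‖ₑ) ^ 2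
      = ∫⁻ x in ball y ρ, (fun z => (⨆ R' ∈ E', ‖ballSum h R' z‖ₑ) ^ 2) (ρ⁻¹ • x) := by
        refine lintegral_congr fun x => ?_
        rw [e1]
    _ = ENNReal.ofReal (ρ ^ n) *
          ∫⁻ x in ball (ρ⁻¹ • y) 1, (⨆ R' ∈ E', ‖ballSum h R' x‖ₑ) ^ 2 :=
        h3 (fun z => (⨆ R' ∈ E', ‖ballSum h R' z‖ₑ) ^ 2) y
    _ ≤ ENNReal.ofReal (ρ ^ n) *
          (C * (Nat.clog 2 N + 1 : ℕ) ^ 2 * ∫⁻ x, ‖h x‖ₑ ^ 2) := by gcongr
    _ = C * (Nat.clog 2 N + 1 : ℕ) ^ 2 * (ENNReal.ofReal (ρ ^ n) * ∫⁻ x, ‖h x‖ₑ ^ 2) := by ring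
    _ = C * (Nat.clog 2 N + 1 : ℕ) ^ 2 * ∫⁻ x, ‖f x‖ₑ ^ 2 := by rw [h2]
    _ ≤ _ := by
        gcongr
        have h4 := clog_le N hN
        have h5 : (C : ℝ) * ((Nat.clog 2 N + 1 : ℕ) : ℝ) ^ 2 ≤ C * 16 * (1 + Real.log N) ^ 2 := by
          have h6 : ((Nat.clog 2 N + 1 : ℕ) : ℝ) ^ 2 ≤ (4 * (1 + Real.log N)) ^ 2 := by gcongr
          calc (C : ℝ) * ((Nat.clog 2 N + 1 : ℕ) : ℝ) ^ 2 ≤ C * (4 * (1 + Real.log N)) ^ 2 := by
                gcongr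
            _ = _ := by ring
        have h7 := ENNReal.ofReal_le_ofReal h5
        refine le_trans (le_of_eq ?_) h7
        rw [ENNReal.ofReal_mul (by positivity), ENNReal.ofReal_pow (by positivity),
          ENNReal.ofReal_natCast, ENNReal.ofReal_coe_nnreal]

end Pool.Agent.R257.SP
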