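import Pool.Agent.R257.SP.Stm

/-!
SP-GF: the Gaussian cut-off of a Fourier integral is a Gaussian average.
-/

namespace Pool.Agent.R257.SP

open MeasureTheory Set Metric
open scoped ENNReal NNReal FourierTransform SchwartzMap RealInnerProductSpace

theorem GF_proof : Stm.GF := by
  intro n f t ht x
  have hpi := Real.pi_pos
  have hbr : 0 < Real.pi / t ^ 2 := by positivity
  set b : ℂ := ((Real.pi / t ^ 2 : ℝ) : ℂ) with hbdef
  have hb : 0 < b.re := by rw [hbdef, Complex.ofReal_re]; exact hbr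
  have J : Integrable (fun ξ : V n =>
      Complex.exp (-b * ‖ξ‖ ^ 2 + 2 * Real.pi * Complex.I * ((inner ℝ x ξ : ℝ) : ℂ))) :=
    GaussianFourier.integrable_cexp_neg_mul_sq_norm_add hb _ _
  have e3 := VectorFourier.integral_fourierIntegral_smul_eq_flip (L := innerₗ (V n))
      Real.continuous_fourierChar continuous_inner J f.integrable (μ := volume) (ν := volume)
  simp only [flip_innerₗ] at e3
  have e4 : ∫ y, (𝓕 (fun ξ : V n =>
      Complex.exp (-b * ‖ξ‖ ^ 2 + 2 * Real.pi * Complex.I * ((inner ℝ x ξ : ℝ) : ℂ)))) y • f y =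
      ∫ y, Complex.exp (-b * ‖y‖ ^ 2 + 2 * Real.pi * Complex.I * ((inner ℝ x y : ℝ) : ℂ)) •
        (𝓕 (f : V n → ℂ)) y := e3
  have e5 : ∀ ξ : V n, (𝓕 (f : V n → ℂ) ξ *
      ((Real.exp (-(Real.pi * ‖ξ‖ ^ 2 / t ^ 2)) : ℝ) : ℂ)) * ch x ξ =
      Complex.exp (-b * ‖ξ‖ ^ 2 + 2 * Real.pi * Complex.I * ((inner ℝ x ξ : ℝ) : ℂ)) •
        (𝓕 (f : V n → ℂ)) ξ := by
    intro ξ
    unfold ch
    rw [Complex.exp_add, smul_eq_mul, Complex.ofReal_exp]
    have h1 : ((-(Real.pi * ‖ξ‖ ^ 2 / t ^ 2) : ℝ) : ℂ) = -b * ‖ξ‖ ^ 2 := by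
      rw [hbdef]; push_cast; ring
    have h2 : ((2 * Real.pi * inner ℝ x ξ : ℝ) : ℂ) * Complex.I =
        2 * Real.pi * Complex.I * ((inner ℝ x ξ : ℝ) : ℂ) := by
      push_cast; ring
    rw [h1, h2]
    ring
  rw [integral_congr_ae (Filter.Eventually.of_forall e5), ← e4]
  refine integral_congr_ae (Filter.Eventually.of_forall fun y => ?_)
  change _ • f y = _
  rw [fourier_gaussian_innerProductSpace' hb, smul_eq_mul]
  congr 1
  have hne : (t : ℂ) ≠ 0 := by exact_mod_cast ht.ne'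
  have hpc : (Real.pi : ℂ) ≠ 0 := by exact_mod_cast hpi.ne'
  have h1 : (Real.pi : ℂ) / b = ((t ^ 2 : ℝ) : ℂ) := by
    rw [hbdef]; push_cast; field_simp
  have h2 : (((t ^ 2 : ℝ) : ℂ)) ^ ((Module.finrank ℝ (V n) : ℂ) / 2) = ((t ^ n : ℝ) : ℂ) := by
    rw [finrank_euclideanSpace_fin]
    have h3 : ((n : ℂ) / 2) = (((n : ℝ) / 2 : ℝ) : ℂ) := by push_cast; ring
    rw [h3, ← Complex.ofReal_cpow (by positivity)]
    congr 1
    rw [← Real.rpow_natCast t 2, ← Real.rpow_mul ht.le, ← Real.rpow_natCast t n]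
    congr 1
    push_cast
    ring
  have h4 : -(Real.pi : ℂ) ^ 2 * ‖x - y‖ ^ 2 / b = ((-(Real.pi * t ^ 2 * ‖x - y‖ ^ 2) : ℝ) : ℂ) := by
    rw [hbdef]; push_cast; field_simp
  rw [h1, h2, h4, Complex.ofReal_mul, Complex.ofReal_exp]

end Pool.Agent.R257.SP
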