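import Pool.Agent.R257.SP.Stm

/-!
# SP-GM: Gaussian averages are bounded by the maximal function
-/

set_option autoImplicit false

namespace Pool.Agent.R257.SP

open MeasureTheory Set Metric
open scoped ENNReal NNReal

namespace GMAux

theorem summ (n : ℕ) :
    Summable (fun k : ℕ => ((k : ℝ) + 1) ^ n * Real.exp (-(Real.pi * (k : ℝ) ^ 2))) := by
  have hr : ‖Real.exp (-1)‖ < 1 := by
    rw [Real.norm_of_nonneg (Real.exp_pos _).le, Real.exp_lt_one_iff]
    norm_num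
  have h0 : Summable (fun k : ℕ => (k : ℝ) ^ n * Real.exp (-1) ^ k) :=
    summable_pow_mul_geometric_of_norm_lt_one n hr
  have h1 : Summable (fun k : ℕ => ((k + 1 : ℕ) : ℝ) ^ n * Real.exp (-1) ^ (k + 1)) :=
    (summable_nat_add_iff (f := fun k : ℕ => (k : ℝ) ^ n * Real.exp (-1) ^ k) 1).2 h0
  have h2 := h1.mul_left (Real.exp 1)
  refine Summable.of_nonneg_of_le (fun k => by positivity) (fun k => ?_) h2
  have e : Real.exp 1 * (((k + 1 : ℕ) : ℝ) ^ n * Real.exp (-1) ^ (k + 1)) =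
      ((k : ℝ) + 1) ^ n * Real.exp (-(k : ℝ)) := by
    rw [← Real.exp_nat_mul]
    have : Real.exp 1 * (((k + 1 : ℕ) : ℝ) ^ n * Real.exp (((k + 1 : ℕ) : ℝ) * -1)) =
        ((k + 1 : ℕ) : ℝ) ^ n * (Real.exp 1 * Real.exp (((k + 1 : ℕ) : ℝ) * -1)) := by ring
    rw [this, ← Real.exp_add]
    push_cast
    congr 2
    ring
  rw [e]
  refine mul_le_mul_of_nonneg_left ?_ (by positivity)
  apply Real.exp_le_exp.2
  have h3 : (k : ℝ) ≤ (k : ℝ) ^ 2 := by
    have : k ≤ k ^ 2 := Nat.le_self_pow (by norm_num) k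
    exact_mod_cast this
  have h4 : (k : ℝ) ^ 2 ≤ Real.pi * (k : ℝ) ^ 2 := by
    have := Real.pi_gt_three
    nlinarith [sq_nonneg (k : ℝ)]
  linarith

theorem pt (n : ℕ) (f : V n → ℝ≥0∞) (t : ℝ) (ht : 0 < t) (x y : V n) :
    ENNReal.ofReal (t ^ n * Real.exp (-(Real.pi * t ^ 2 * ‖x - y‖ ^ 2))) * f y ≤
      ∑' k : ℕ, ENNReal.ofReal (t ^ n * Real.exp (-(Real.pi * (k : ℝ) ^ 2))) *
        (ball x (((k : ℝ) + 1) / t)).indicator f y := by
  set k : ℕ := ⌊t * ‖x - y‖⌋₊ with hk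
  have h1 : (k : ℝ) ≤ t * ‖x - y‖ := Nat.floor_le (by positivity)
  have h2 : t * ‖x - y‖ < (k : ℝ) + 1 := Nat.lt_floor_add_one _
  refine le_trans ?_ (ENNReal.le_tsum k)
  have hy : y ∈ ball x (((k : ℝ) + 1) / t) := by
    rw [mem_ball', dist_eq_norm, lt_div_iff₀ ht]
    linarith
  rw [indicator_of_mem hy]
  refine mul_le_mul_left ?_ _
  apply ENNReal.ofReal_le_ofReal
  refine mul_le_mul_of_nonneg_left ?_ (by positivity)
  apply Real.exp_le_exp.2
  have h3 : (k : ℝ) ^ 2 ≤ (t * ‖x - y‖) ^ 2 := pow_le_pow_left₀ (Nat.cast_nonneg k) h1 2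
  have h4 := mul_le_mul_of_nonneg_left h3 Real.pi_pos.le
  nlinarith

end GMAux

open GMAux in
theorem GM_proof : Stm.GM := by
  intro n hn
  set om : ℝ≥0∞ := volume (ball (0 : V n) 1) with hom
  have hom1 : om ≠ ⊤ := measure_ball_lt_top.ne
  have hS : ∑' k : ℕ, ENNReal.ofReal (((k : ℝ) + 1) ^ n * Real.exp (-(Real.pi * (k : ℝ) ^ 2))) ≠ ⊤ :=
    (summ n).tsum_ofReal_ne_top
  refine ⟨((∑' k : ℕ, ENNReal.ofReal (((k : ℝ) + 1) ^ n * Real.exp (-(Real.pi * (k : ℝ) ^ 2)))) *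
    om).toNNReal, ?_⟩
  intro f hf t ht x
  rw [ENNReal.coe_toNNReal (ENNReal.mul_ne_top hS hom1)]
  set M : ℝ≥0∞ := ⨆ r ∈ Ioi (0 : ℝ), (volume (ball x r))⁻¹ * ∫⁻ y in ball x r, f y with hM
  calc ∫⁻ y, ENNReal.ofReal (t ^ n * Real.exp (-(Real.pi * t ^ 2 * ‖x - y‖ ^ 2))) * f y
      ≤ ∫⁻ y, ∑' k : ℕ, ENNReal.ofReal (t ^ n * Real.exp (-(Real.pi * (k : ℝ) ^ 2))) *
        (ball x (((k : ℝ) + 1) / t)).indicator f y := lintegral_mono fun y => pt n f t ht x y
    _ = ∑' k : ℕ, ENNReal.ofReal (t ^ n * Real.exp (-(Real.pi * (k : ℝ) ^ 2))) *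
        ∫⁻ y in ball x (((k : ℝ) + 1) / t), f y := by
      rw [lintegral_tsum]
      · refine tsum_congr fun k => ?_
        rw [lintegral_const_mul _ (hf.indicator measurableSet_ball),
          lintegral_indicator measurableSet_ball]
      · intro k
        exact ((hf.indicator measurableSet_ball).const_mul _).aemeasurable
    _ ≤ ∑' k : ℕ, ENNReal.ofReal (((k : ℝ) + 1) ^ n * Real.exp (-(Real.pi * (k : ℝ) ^ 2))) *
        (om * M) := by
      refine ENNReal.tsum_le_tsum fun k => ?_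
      have hr : 0 < ((k : ℝ) + 1) / t := by positivity
      have hv : volume (ball x (((k : ℝ) + 1) / t)) =
          ENNReal.ofReal ((((k : ℝ) + 1) / t) ^ n) * om := by
        rw [Measure.addHaar_ball_of_pos _ _ hr, finrank_euclideanSpace_fin]
      have hv0 : volume (ball x (((k : ℝ) + 1) / t)) ≠ 0 := (measure_ball_pos _ _ hr).ne'
      have hv1 : volume (ball x (((k : ℝ) + 1) / t)) ≠ ⊤ := measure_ball_lt_top.ne
      have h1 : ∫⁻ y in ball x (((k : ℝ) + 1) / t), f y ≤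
          volume (ball x (((k : ℝ) + 1) / t)) * M := by
        have h2 : (volume (ball x (((k : ℝ) + 1) / t)))⁻¹ *
            ∫⁻ y in ball x (((k : ℝ) + 1) / t), f y ≤ M :=
          le_iSup₂ (f := fun (r : ℝ) (_ : r ∈ Ioi (0 : ℝ)) => (volume (ball x r))⁻¹ *
            ∫⁻ y in ball x r, f y) (((k : ℝ) + 1) / t) hr
        calc ∫⁻ y in ball x (((k : ℝ) + 1) / t), f y =
            volume (ball x (((k : ℝ) + 1) / t)) * ((volume (ball x (((k : ℝ) + 1) / t)))⁻¹ *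
            ∫⁻ y in ball x (((k : ℝ) + 1) / t), f y) := by
              rw [← mul_assoc, ENNReal.mul_inv_cancel hv0 hv1, one_mul]
          _ ≤ _ := mul_le_mul_right h2 _
      refine (mul_le_mul_right h1 _).trans (le_of_eq ?_)
      rw [hv, ← mul_assoc, ← mul_assoc, ← mul_assoc, ← ENNReal.ofReal_mul (by positivity)]
      congr 3
      rw [div_pow]
      field_simp
    _ = _ := by
      rw [ENNReal.tsum_mul_right, mul_assoc]

end Pool.Agent.R257.SP
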