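import Pool.Agent.R257.SP.Stm

/-!
Hardy-Littlewood maximal inequality in `L²(ℝⁿ)`.
-/

namespace Pool.Agent.R257.SP

open MeasureTheory Set Metric
open scoped ENNReal NNReal

namespace HLx

variable {n : ℕ}

lemma vol_cb_mul (x : V n) (r c : ℝ) (hr : 0 < r) (hc : 0 < c) :
    volume (closedBall x (c * r)) = ENNReal.ofReal c ^ n * volume (ball x r) := by
  rw [Measure.addHaar_closedBall _ _ (by positivity), Measure.addHaar_ball_of_pos _ _ hr,
    ← mul_assoc, ← ENNReal.ofReal_pow hc.le, ← ENNReal.ofReal_mul (by positivity),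
    finrank_euclideanSpace_fin, mul_pow]

lemma vol_pos (x : V n) (r : ℝ) (hr : 0 < r) : volume (ball x r) ≠ 0 :=
  (measure_ball_pos volume x hr).ne'

lemma vol_fin (x : V n) (r : ℝ) : volume (ball x r) ≠ ∞ := measure_ball_lt_top.ne

/-- Weak type inequality. -/
lemma weak (hn : 0 < n) (f : V n → ℝ≥0∞) (hfin : ∫⁻ x, f x < ∞)
    (lam : ℝ≥0∞) (hl0 : lam ≠ 0) (hl : lam ≠ ∞) :
    lam * volume {x : V n | ∃ r : ℝ, 0 < r ∧ lam * volume (ball x r) < ∫⁻ y in ball x r, f y}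
      ≤ 4 ^ n * ∫⁻ x, f x := by
  classical
  set A := {x : V n | ∃ r : ℝ, 0 < r ∧ lam * volume (ball x r) < ∫⁻ y in ball x r, f y}
    with hA
  have hex : ∀ x : V n, ∃ r : ℝ, x ∈ A → 0 < r ∧
      lam * volume (ball x r) < ∫⁻ y in ball x r, f y := by
    intro x
    by_cases h : x ∈ A
    · obtain ⟨r, hr⟩ := h
      exact ⟨r, fun _ => hr⟩
    · exact ⟨0, fun h' => absurd h' h⟩
  choose r hr using hex
  -- bounded radii
  have hbd : ∃ R : ℝ, ∀ x ∈ A, r x ≤ R := by
    set w := volume (ball (0 : V n) 1) with hw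
    have hw0 : w ≠ 0 := vol_pos 0 1 one_pos
    have hwf : w ≠ ∞ := vol_fin 0 1
    set B := (∫⁻ x, f x) / lam / w with hB
    have hBfin : B ≠ ∞ := by
      rw [hB]
      exact (ENNReal.div_lt_top (ENNReal.div_lt_top hfin.ne hl0).ne hw0).ne
    refine ⟨max 1 B.toReal, fun x hx => ?_⟩
    obtain ⟨h1, h2⟩ := hr x hx
    have h3 : volume (ball x (r x)) ≤ (∫⁻ x, f x) / lam := by
      rw [ENNReal.le_div_iff_mul_le (Or.inl hl0) (Or.inl hl), mul_comm]
      exact h2.le.trans (setLIntegral_le_lintegral _ _)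
    have h3' : ENNReal.ofReal (r x ^ n) ≤ B := by
      rw [hB, ENNReal.le_div_iff_mul_le (Or.inl hw0) (Or.inl hwf)]
      rw [Measure.addHaar_ball_of_pos _ _ h1, finrank_euclideanSpace_fin] at h3
      exact h3
    by_contra hcon
    push Not at hcon
    have h4 : 1 < r x := lt_of_le_of_lt (le_max_left _ _) hcon
    have h5 : B.toReal < r x := lt_of_le_of_lt (le_max_right _ _) hcon
    have h6 : r x ≤ r x ^ n := le_self_pow₀ h4.le hn.ne'
    rw [← ENNReal.ofReal_toReal hBfin] at h3'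
    have h9 := (ENNReal.ofReal_le_ofReal_iff ENNReal.toReal_nonneg).1 h3'
    linarith
  obtain ⟨R, hR⟩ := hbd
  obtain ⟨u, huA, hudis, hucov⟩ := Vitali.exists_disjoint_subfamily_covering_enlargement_closedBall
    A (fun x => x) r R hR 4 (by norm_num)
  have hucount : u.Countable := hudis.countable_of_nonempty_interior (fun x hx => by
    refine ⟨x, ?_⟩
    apply ball_subset_interior_closedBall
    exact mem_ball_self (hr x (huA hx)).1)
  have h1 : volume A ≤ ∑' x : u, volume (closedBall (x : V n) (4 * r x)) := by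
    calc volume A ≤ volume (⋃ x ∈ u, closedBall x (4 * r x)) := by
          apply measure_mono
          intro x hx
          obtain ⟨b, hb, hsub⟩ := hucov x hx
          exact Set.mem_iUnion₂.2 ⟨b, hb, hsub (mem_closedBall_self (hr x hx).1.le)⟩
      _ ≤ _ := measure_biUnion_le volume hucount _
  calc lam * volume A ≤ lam * ∑' x : u, volume (closedBall (x : V n) (4 * r x)) :=
        mul_le_mul' le_rfl h1
    _ = ∑' x : u, lam * volume (closedBall (x : V n) (4 * r x)) := by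
        rw [ENNReal.tsum_mul_left]
    _ ≤ ∑' x : u, 4 ^ n * ∫⁻ y in ball (x : V n) (r x), f y := by
        apply ENNReal.tsum_le_tsum
        intro x
        obtain ⟨h2, h3⟩ := hr x (huA x.2)
        rw [vol_cb_mul _ _ _ h2 (by norm_num)]
        have e : ENNReal.ofReal 4 = 4 := by norm_num
        rw [e]
        calc lam * (4 ^ n * volume (ball (x : V n) (r x)))
            = 4 ^ n * (lam * volume (ball (x : V n) (r x))) := by ring
          _ ≤ _ := mul_le_mul' le_rfl h3.le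
    _ = 4 ^ n * ∑' x : u, ∫⁻ y in ball (x : V n) (r x), f y := by
        rw [ENNReal.tsum_mul_left]
    _ ≤ 4 ^ n * ∫⁻ x, f x := by
        apply mul_le_mul' le_rfl
        have : Countable u := hucount.to_subtype
        rw [← lintegral_iUnion (fun x : u => (isOpen_ball).measurableSet)
          (fun x y hxy => (hudis x.2 y.2 (fun h => hxy (Subtype.ext h))).mono
            ball_subset_closedBall ball_subset_closedBall)]
        exact setLIntegral_le_lintegral _ _

lemma zp_ne0 (k : ℤ) : (2 : ℝ≥0∞) ^ k ≠ 0 := (ENNReal.zpow_pos (by simp) (by simp) k).ne'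

lemma zp_net (k : ℤ) : (2 : ℝ≥0∞) ^ k ≠ ∞ := ENNReal.zpow_ne_top (by simp) (by simp) k

lemma zp_succ (k : ℤ) : (2 : ℝ≥0∞) ^ (k + 1) = 2 * 2 ^ k := by
  rw [ENNReal.zpow_add (by simp) (by simp), zpow_one, mul_comm]

lemma exz (v : ℝ≥0∞) (h0 : v ≠ 0) (h1 : v ≠ ∞) : ∃ m : ℤ, (2 : ℝ≥0∞) ^ m ≤ v ∧ v < 2 ^ (m + 1) := by
  have := ENNReal.exists_mem_Ico_zpow h0 h1 (y := 2) (by norm_num) (by simp)
  obtain ⟨m, hm⟩ := this
  exact ⟨m, hm.1, hm.2⟩

lemma zmono {a b : ℤ} (h : (2 : ℝ≥0∞) ^ a < 2 ^ b) : a < b := by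
  by_contra hc
  push Not at hc
  exact absurd h (not_lt.2 (ENNReal.zpow_le_of_le (by norm_num) hc))

/-- Geometric sum. -/
lemma geo (v : ℝ≥0∞) : ∑' k : ℤ, (if (2 : ℝ≥0∞) ^ k < v then (2 : ℝ≥0∞) ^ k else 0) ≤ 2 * v := by
  classical
  by_cases h0 : v = 0
  · subst h0; simp
  by_cases h1 : v = ∞
  · subst h1; simp
  obtain ⟨m, hm1, hm2⟩ := exz v h0 h1
  set F : ℤ → ℝ≥0∞ := fun k => if (2 : ℝ≥0∞) ^ k < v then (2 : ℝ≥0∞) ^ k else 0 with hF
  have hg : Function.Injective (fun j : ℕ => m - (j : ℤ)) := by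
    intro a b hab
    simp only at hab
    omega
  have hs : Function.support F ⊆ Set.range (fun j : ℕ => m - (j : ℤ)) := by
    intro k hk
    have h2 : (2 : ℝ≥0∞) ^ k < v := by
      by_contra hc
      apply hk
      simp [hF, hc]
    have h3 := zmono (h2.trans hm2)
    refine ⟨(m - k).toNat, ?_⟩
    simp only
    omega
  rw [← hg.tsum_eq hs]
  calc ∑' j : ℕ, F (m - (j : ℤ)) ≤ ∑' j : ℕ, (2 : ℝ≥0∞) ^ m * (2⁻¹) ^ j := by
        apply ENNReal.tsum_le_tsum
        intro j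
        have : (2 : ℝ≥0∞) ^ (m - (j : ℤ)) = 2 ^ m * (2⁻¹) ^ j := by
          rw [sub_eq_add_neg, ENNReal.zpow_add (by simp) (by simp), ENNReal.zpow_neg, zpow_natCast,
            ENNReal.inv_pow]
        simp only [hF]
        split_ifs
        · exact this.le
        · exact zero_le
    _ = 2 ^ m * 2 := by
        rw [ENNReal.tsum_mul_left, ENNReal.tsum_geometric, ENNReal.one_sub_inv_two, inv_inv]
    _ ≤ 2 * v := by
        rw [mul_comm]
        exact mul_le_mul' le_rfl hm1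

lemma dyad (M : ℝ≥0∞) : M ^ 2 ≤ ∑' k : ℤ, (if (2 : ℝ≥0∞) ^ k < M then 4 * ((2 : ℝ≥0∞) ^ k) ^ 2 else 0) := by
  set S := ∑' k : ℤ, (if (2 : ℝ≥0∞) ^ k < M then 4 * ((2 : ℝ≥0∞) ^ k) ^ 2 else 0) with hS
  have key : ∀ t : ℝ≥0∞, t < M → t ≤ S ^ (1 / 2 : ℝ) := by
    intro t ht
    by_cases h0 : t = 0
    · rw [h0]; exact zero_le
    obtain ⟨m, hm1, hm2⟩ := exz t h0 (ne_top_of_lt ht)
    have h1 : 4 * ((2 : ℝ≥0∞) ^ m) ^ 2 ≤ S := by
      have := ENNReal.le_tsum (f := fun k : ℤ => (if (2 : ℝ≥0∞) ^ k < M then 4 * ((2 : ℝ≥0∞) ^ k) ^ 2 else 0)) m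
      rw [if_pos (lt_of_le_of_lt hm1 ht)] at this
      exact this
    have h2 : t ^ 2 ≤ S := by
      refine le_trans ?_ h1
      rw [zp_succ] at hm2
      calc t ^ 2 ≤ (2 * 2 ^ m) ^ 2 := pow_le_pow_left₀ (zero_le) hm2.le 2
        _ = _ := by rw [mul_pow]; norm_num
    calc t = (t ^ 2) ^ (1 / 2 : ℝ) := by
          rw [← ENNReal.rpow_natCast, ← ENNReal.rpow_mul]; norm_num
      _ ≤ _ := ENNReal.rpow_le_rpow h2 (by norm_num)
  have h3 : M ≤ S ^ (1 / 2 : ℝ) := le_of_forall_lt_imp_le_of_dense key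
  calc M ^ 2 ≤ (S ^ (1 / 2 : ℝ)) ^ 2 := pow_le_pow_left₀ (zero_le) h3 2
    _ = S := by rw [← ENNReal.rpow_natCast, ← ENNReal.rpow_mul]; norm_num

/-- level sets of the maximal function -/
def lev (f : V n → ℝ≥0∞) (lam : ℝ≥0∞) : Set (V n) :=
  {x : V n | ∃ r : ℝ, 0 < r ∧ lam * volume (ball x r) < ∫⁻ y in ball x r, f y}

/-- the large part of `f` -/
noncomputable def big (f : V n → ℝ≥0∞) (lam : ℝ≥0∞) (x : V n) : ℝ≥0∞ := if lam < f x then f x else 0

lemma levbig (hn : 0 < n) (f : V n → ℝ≥0∞) (hf : Measurable f) (h2 : ∫⁻ x, f x ^ 2 ≠ ∞) (k : ℤ) :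
    2 ^ k * volume (lev f (2 ^ (k + 1))) ≤ 4 ^ n * ∫⁻ x, big f (2 ^ k) x := by
  have hfin : ∫⁻ x, big f (2 ^ k) x < ∞ := by
    calc ∫⁻ x, big f (2 ^ k) x ≤ ∫⁻ x, (2 ^ k)⁻¹ * f x ^ 2 := by
          apply lintegral_mono
          intro x
          simp only [big]
          split_ifs with h
          · rw [mul_comm, ← div_eq_mul_inv, ENNReal.le_div_iff_mul_le (Or.inl (zp_ne0 k)) (Or.inl (zp_net k)), sq]
            exact mul_le_mul' le_rfl h.le
          · exact zero_le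
      _ = (2 ^ k)⁻¹ * ∫⁻ x, f x ^ 2 := lintegral_const_mul _ (hf.pow_const 2)
      _ < ∞ := ENNReal.mul_lt_top (ENNReal.inv_lt_top.2 (pos_iff_ne_zero.2 (zp_ne0 k))) h2.lt_top
  refine le_trans ?_ (weak hn (big f (2 ^ k)) hfin (2 ^ k) (zp_ne0 k) (zp_net k))
  apply mul_le_mul' le_rfl
  apply measure_mono
  rintro x ⟨r, hr, hx⟩
  refine ⟨r, hr, ?_⟩
  have h3 : ∫⁻ y in ball x r, f y ≤ (∫⁻ y in ball x r, big f (2 ^ k) y) + 2 ^ k * volume (ball x r) := by
    calc ∫⁻ y in ball x r, f y ≤ ∫⁻ y in ball x r, (big f (2 ^ k) y + 2 ^ k) := by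
          apply lintegral_mono
          intro y
          simp only [big]
          split_ifs with h
          · exact le_self_add
          · rw [zero_add]; exact not_lt.1 h
      _ = _ := by
          rw [lintegral_add_right _ measurable_const, setLIntegral_const]
  rw [zp_succ, two_mul, add_mul] at hx
  have h4 := hx.trans_le h3
  exact lt_of_add_lt_add_right h4

end HLx

open HLx

theorem HL_proof : Stm.HL := by
  classical
  intro n hn
  refine ⟨16 * 2 * 4 ^ n, ?_⟩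
  intro f hf
  by_cases h2 : ∫⁻ x, f x ^ 2 = ∞
  · rw [h2, ENNReal.mul_top (by positivity)]
    exact le_top
  have hmem : ∀ (x : V n) (k : ℤ),
      (2 : ℝ≥0∞) ^ k < (⨆ r ∈ Ioi (0 : ℝ), (volume (ball x r))⁻¹ * ∫⁻ y in ball x r, f y) →
      x ∈ lev f (2 ^ k) := by
    intro x k hk
    rw [lt_iSup_iff] at hk
    obtain ⟨r, hk⟩ := hk
    rw [lt_iSup_iff] at hk
    obtain ⟨hr, hk⟩ := hk
    refine ⟨r, hr, ?_⟩
    rw [mul_comm (volume (ball x r))⁻¹, ← div_eq_mul_inv] at hk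
    rwa [ENNReal.lt_div_iff_mul_lt (Or.inl (vol_pos x r hr)) (Or.inl (vol_fin x r))] at hk
  calc ∫⁻ x, (⨆ r ∈ Ioi (0 : ℝ), (volume (ball x r))⁻¹ * ∫⁻ y in ball x r, f y) ^ 2
      ≤ ∫⁻ x, ∑' k : ℤ, (toMeasurable volume (lev f ((2 : ℝ≥0∞) ^ k))).indicator
          (fun _ => 4 * ((2 : ℝ≥0∞) ^ k) ^ 2) x := by
        apply lintegral_mono
        intro x
        refine (dyad _).trans ?_
        apply ENNReal.tsum_le_tsum
        intro k
        split_ifs with h
        · rw [Set.indicator_of_mem (subset_toMeasurable _ _ (hmem x k h))]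
        · exact zero_le
    _ = ∑' k : ℤ, 4 * ((2 : ℝ≥0∞) ^ k) ^ 2 * volume (lev f ((2 : ℝ≥0∞) ^ k)) := by
        rw [lintegral_tsum]
        · apply tsum_congr
          intro k
          rw [lintegral_indicator_const (measurableSet_toMeasurable _ _), measure_toMeasurable]
        · intro k
          exact (measurable_const.indicator (measurableSet_toMeasurable _ _)).aemeasurable
    _ = ∑' k : ℤ, 4 * ((2 : ℝ≥0∞) ^ (k + 1)) ^ 2 * volume (lev f ((2 : ℝ≥0∞) ^ (k + 1))) := by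
        exact ((Equiv.addRight (1 : ℤ)).tsum_eq (fun k : ℤ => 4 * ((2 : ℝ≥0∞) ^ k) ^ 2 * volume (lev f ((2 : ℝ≥0∞) ^ k)))).symm
    _ ≤ ∑' k : ℤ, 16 * (4 ^ n * ∫⁻ x, (2 ^ k * big f (2 ^ k) x)) := by
        apply ENNReal.tsum_le_tsum
        intro k
        have hb : Measurable (big f (2 ^ k)) :=
          Measurable.ite (measurableSet_lt measurable_const hf) hf measurable_const
        rw [lintegral_const_mul _ hb, zp_succ]
        calc 4 * (2 * (2 : ℝ≥0∞) ^ k) ^ 2 * volume (lev f (2 * (2 : ℝ≥0∞) ^ k))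
            = 16 * 2 ^ k * (2 ^ k * volume (lev f (2 ^ (k + 1)))) := by rw [zp_succ]; ring
          _ ≤ 16 * 2 ^ k * (4 ^ n * ∫⁻ x, big f (2 ^ k) x) :=
              mul_le_mul' le_rfl (levbig hn f hf h2 k)
          _ = _ := by ring
    _ = 16 * 4 ^ n * ∫⁻ x, ∑' k : ℤ, (2 ^ k * big f (2 ^ k) x) := by
        rw [lintegral_tsum, ENNReal.tsum_mul_left, ENNReal.tsum_mul_left, mul_assoc]
        intro k
        have hb : Measurable (big f (2 ^ k)) :=
          Measurable.ite (measurableSet_lt measurable_const hf) hf measurable_const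
        exact (hb.const_mul _).aemeasurable
    _ ≤ 16 * 4 ^ n * ∫⁻ x, 2 * f x ^ 2 := by
        apply mul_le_mul' le_rfl
        apply lintegral_mono
        intro x
        calc ∑' k : ℤ, ((2 : ℝ≥0∞) ^ k * big f (2 ^ k) x)
            = ∑' k : ℤ, (if (2 : ℝ≥0∞) ^ k < f x then (2 : ℝ≥0∞) ^ k else 0) * f x := by
              apply tsum_congr
              intro k
              simp only [big]
              split_ifs <;> simp
          _ = (∑' k : ℤ, (if (2 : ℝ≥0∞) ^ k < f x then (2 : ℝ≥0∞) ^ k else 0)) * f x := by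
              rw [ENNReal.tsum_mul_right]
          _ ≤ 2 * f x * f x := mul_le_mul' (geo _) le_rfl
          _ = 2 * f x ^ 2 := by ring
    _ = _ := by
        rw [lintegral_const_mul _ (hf.pow_const 2)]
        push_cast
        ring

end Pool.Agent.R257.SP
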