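import Pool.Agent.R257.SP.Stm2

/-! Piece SP-INV: the ball sums of a Schwartz function converge everywhere. -/

namespace Pool.Agent.R257.SP

open MeasureTheory Set Metric Filter Topology
open scoped ENNReal NNReal FourierTransform SchwartzMap RealInnerProductSpace

theorem INV_proof : Stm.INV := by
  intro n f x
  have hFint : Integrable (𝓕 (f : V n → ℂ)) := by
    rw [← SchwartzMap.fourier_coe f]
    exact (𝓕 f : 𝓢(V n, ℂ)).integrable
  have hint : Integrable (fun ξ => 𝓕 (f : V n → ℂ) ξ * ch x ξ) := by
    refine hFint.mul_bdd (c := 1) ?_ (Filter.Eventually.of_forall fun ξ => ?_)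
    · have : Continuous fun ξ : V n => ch x ξ := by
        unfold ch
        fun_prop
      exact this.aestronglyMeasurable
    · unfold ch
      exact (Complex.norm_exp_ofReal_mul_I _).le
  have hcov : AECover (volume : Measure (V n)) atTop (fun R : ℝ => closedBall (0 : V n) R) :=
    aecover_closedBall tendsto_id
  have h := hcov.integral_tendsto_of_countably_generated hint
  have hinv : ∫ ξ, 𝓕 (f : V n → ℂ) ξ * ch x ξ = f x := by
    have h1 := Continuous.fourierInv_fourier_eq f.continuous f.integrable hFint
    have h2 := congrFun h1 x
    rw [Real.fourierInv_eq'] at h2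
    rw [← h2]
    refine integral_congr_ae (Filter.Eventually.of_forall fun ξ => ?_)
    simp only [smul_eq_mul, ch]
    rw [mul_comm, real_inner_comm]
  rw [hinv] at h
  exact h

end Pool.Agent.R257.SP
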