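import Pool.Agent.R257.SP.Stm
import Pool.Agent.H153R4.Pl

/-!
Lacunary maximal inequality (piece `SP-LAC`).
-/

namespace Pool.Agent.R257.SP

open MeasureTheory Set Metric
open scoped ENNReal NNReal FourierTransform SchwartzMap RealInnerProductSpace

namespace LAC

theorem ch_norm {n : ℕ} (x ξ : V n) : ‖ch x ξ‖ = 1 := by
  unfold ch
  exact Complex.norm_exp_ofReal_mul_I _

theorem ch_cont {n : ℕ} (x : V n) : Continuous fun ξ : V n => ch x ξ := by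
  unfold ch
  fun_prop

theorem ch_eq {n : ℕ} (h : V n → ℂ) (x : V n) : ∫ ξ, h ξ * ch x ξ = 𝓕 h (-x) := by
  rw [Real.fourier_eq']
  congr 1
  funext ξ
  unfold ch
  rw [smul_eq_mul, mul_comm, inner_neg_right, real_inner_comm ξ x]
  congr 3
  push_cast
  ring

theorem four_cont {n : ℕ} {h : V n → ℂ} (h1 : Integrable h) :
    Continuous fun x => ∫ ξ, h ξ * ch x ξ := by
  have hcont : Continuous (𝓕 h) := by
    have := VectorFourier.fourierIntegral_continuous (L := innerₗ (V n))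
      Real.continuous_fourierChar continuous_inner h1
    exact this
  have e : (fun x => ∫ ξ, h ξ * ch x ξ) = fun x => 𝓕 h (-x) := by
    funext x
    exact ch_eq h x
  rw [e]
  exact hcont.comp continuous_neg

theorem planch {n : ℕ} {h : V n → ℂ} (h1 : Integrable h) (h2 : MemLp h 2) :
    ∫⁻ x, ‖∫ ξ, h ξ * ch x ξ‖ₑ ^ 2 = ∫⁻ x, ‖h x‖ₑ ^ 2 := by
  have e : (fun x => ‖∫ ξ, h ξ * ch x ξ‖ₑ ^ 2) = fun x => (fun y => ‖𝓕 h y‖ₑ ^ 2) (-x) := by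
    funext x
    rw [ch_eq h x]
  rw [e, lintegral_neg_eq_self (μ := (volume : Measure (V n))) (fun y => ‖𝓕 h y‖ₑ ^ 2)]
  exact Pool.Agent.H153R4.plancherel h h1 h2

theorem ig {n : ℕ} {g : V n → ℂ} (hg : Integrable g) {c : V n → ℝ} (hc : Measurable c)
    (hb : ∀ ξ, |c ξ| ≤ 1) : Integrable (fun ξ => g ξ * (c ξ : ℂ)) := by
  refine hg.mono (hg.aestronglyMeasurable.mul
    (Complex.measurable_ofReal.comp hc).aestronglyMeasurable)
    (Filter.Eventually.of_forall fun ξ => ?_)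
  rw [norm_mul, Complex.norm_real, Real.norm_eq_abs]
  exact mul_le_of_le_one_right (norm_nonneg _) (hb ξ)

theorem mg {n : ℕ} {g : V n → ℂ} (hg : MemLp g 2) {c : V n → ℝ} (hc : Measurable c)
    (hb : ∀ ξ, |c ξ| ≤ 1) : MemLp (fun ξ => g ξ * (c ξ : ℂ)) 2 := by
  refine hg.mono (hg.aestronglyMeasurable.mul
    (Complex.measurable_ofReal.comp hc).aestronglyMeasurable)
    (Filter.Eventually.of_forall fun ξ => ?_)
  rw [norm_mul, Complex.norm_real, Real.norm_eq_abs]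
  exact mul_le_of_le_one_right (norm_nonneg _) (hb ξ)

theorem ich {n : ℕ} {g : V n → ℂ} (hg : Integrable g) (x : V n) :
    Integrable (fun ξ => g ξ * ch x ξ) := by
  refine hg.mono (hg.aestronglyMeasurable.mul (ch_cont x).aestronglyMeasurable)
    (Filter.Eventually.of_forall fun ξ => ?_)
  rw [norm_mul, ch_norm, mul_one]

theorem sq4 (a b : ℝ≥0∞) : (a + b) ^ 2 ≤ 4 * a ^ 2 + 4 * b ^ 2 := by
  rcases le_total a b with h | h
  · calc (a + b) ^ 2 ≤ (b + b) ^ 2 := by gcongr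
      _ = 4 * b ^ 2 := by rw [← two_mul, mul_pow]; norm_num
      _ ≤ _ := le_add_self
  · calc (a + b) ^ 2 ≤ (a + a) ^ 2 := by gcongr
      _ = 4 * a ^ 2 := by rw [← two_mul, mul_pow]; norm_num
      _ ≤ _ := le_self_add

theorem half_sq (X : ℝ≥0∞) : (X ^ (1 / 2 : ℝ)) ^ 2 = X := by
  rw [← ENNReal.rpow_natCast, ← ENNReal.rpow_mul]
  norm_num

theorem sup_sq {ι : Type} (a : ι → ℝ≥0∞) (X : ℝ≥0∞) (h : ∀ j, a j ^ 2 ≤ X) :
    (⨆ j, a j) ^ 2 ≤ X := by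
  have h1 : ⨆ j, a j ≤ X ^ (1 / 2 : ℝ) := by
    refine iSup_le fun j => ?_
    have h2 : a j = (a j ^ 2) ^ (1 / 2 : ℝ) := by
      rw [← ENNReal.rpow_natCast, ← ENNReal.rpow_mul]
      norm_num
    rw [h2]
    exact ENNReal.rpow_le_rpow (h j) (by norm_num)
  calc (⨆ j, a j) ^ 2 ≤ (X ^ (1 / 2 : ℝ)) ^ 2 := by gcongr
    _ = X := half_sq X

theorem ex_nn (r t : ℝ) : 0 ≤ Real.exp (-(Real.pi * r ^ 2 / t ^ 2)) ∧
    Real.exp (-(Real.pi * r ^ 2 / t ^ 2)) ≤ 1 := by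
  refine ⟨(Real.exp_pos _).le, ?_⟩
  rw [Real.exp_le_one_iff]
  have : 0 ≤ Real.pi * r ^ 2 / t ^ 2 := by positivity
  linarith

end LAC

open LAC in
theorem LAC_proof (hGF : Stm.GF) (hGM : Stm.GM) (hHL : Stm.HL) (hMS : Stm.MS) : Stm.LAC := by
  intro n hn
  obtain ⟨C1, h1⟩ := hGM n hn
  obtain ⟨C2, h2⟩ := hHL n hn
  obtain ⟨C3, h3⟩ := hMS
  refine ⟨4 * (C1 ^ 2 * C2) + 4 * C3, fun f => ?_⟩
  obtain ⟨g, hg⟩ : ∃ g : V n → ℂ, g = 𝓕 (f : V n → ℂ) := ⟨_, rfl⟩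
  have gS : g = ⇑(𝓕 f : 𝓢(V n, ℂ)) := by rw [hg, SchwartzMap.fourier_coe]
  have gi : Integrable g := by rw [gS]; exact SchwartzMap.integrable _
  have g2 : MemLp g 2 := by rw [gS]; exact SchwartzMap.memLp (𝓕 f : 𝓢(V n, ℂ)) 2 volume
  have fi : Integrable (f : V n → ℂ) := SchwartzMap.integrable _
  have f2 : MemLp (f : V n → ℂ) 2 := SchwartzMap.memLp f 2 volume
  have gf : ∫⁻ x, ‖g x‖ₑ ^ 2 = ∫⁻ x, ‖f x‖ₑ ^ 2 := by
    rw [hg]
    exact Pool.Agent.H153R4.plancherel _ fi f2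
  obtain ⟨M, hM⟩ : ∃ M : V n → ℝ≥0∞, M = fun x =>
    ⨆ r ∈ Ioi (0 : ℝ), (volume (ball x r))⁻¹ * ∫⁻ y in ball x r, ‖f y‖ₑ := ⟨_, rfl⟩
  obtain ⟨E, hE⟩ : ∃ E : ℤ → V n → ℝ, E = fun j ξ =>
    Real.exp (-(Real.pi * ‖ξ‖ ^ 2 / ((2 : ℝ) ^ j) ^ 2)) := ⟨_, rfl⟩
  obtain ⟨χ, hχ⟩ : ∃ χ : ℤ → V n → ℝ, χ = fun j ξ =>
    (if ‖ξ‖ ≤ (2 : ℝ) ^ j then 1 else 0) - E j ξ := ⟨_, rfl⟩
  have Em : ∀ j, Measurable (E j) := fun j => by
    rw [hE]
    fun_prop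
  have E1 : ∀ j ξ, |E j ξ| ≤ 1 := fun j ξ => by
    rw [hE]
    have := ex_nn ‖ξ‖ ((2 : ℝ) ^ j)
    rw [abs_of_nonneg this.1]
    exact this.2
  have χm : ∀ j, Measurable (χ j) := fun j => by
    rw [hχ]
    refine Measurable.sub (Measurable.ite ?_ measurable_const measurable_const) (Em j)
    exact measurableSet_le measurable_norm measurable_const
  have χ1 : ∀ j ξ, |χ j ξ| ≤ 1 := fun j ξ => by
    rw [hχ]
    have h5 : 0 ≤ E j ξ ∧ E j ξ ≤ 1 := by rw [hE]; exact ex_nn ‖ξ‖ ((2 : ℝ) ^ j)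
    simp only
    split_ifs
    · rw [abs_le]; constructor <;> linarith
    · rw [abs_le]; constructor <;> linarith
  obtain ⟨D, hD⟩ : ∃ D : ℤ → V n → ℂ, D = fun j x =>
    ∫ ξ, (g ξ * (χ j ξ : ℂ)) * ch x ξ := ⟨_, rfl⟩
  have Dm : ∀ j, Measurable (D j) := fun j => by
    rw [hD]
    exact (four_cont (ig gi (χm j) (χ1 j))).measurable
  -- the decomposition
  have key : ∀ (j : ℤ) (x : V n), ‖part g (closedBall 0 ((2 : ℝ) ^ j)) x‖ₑ ≤
      C1 * M x + ‖D j x‖ₑ := by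
    intro j x
    have e1 : part g (closedBall 0 ((2 : ℝ) ^ j)) x =
        (∫ ξ, (g ξ * (E j ξ : ℂ)) * ch x ξ) + D j x := by
      rw [hD]
      simp only
      rw [← integral_add (ich (ig gi (Em j) (E1 j)) x) (ich (ig gi (χm j) (χ1 j)) x)]
      unfold part
      rw [← integral_indicator measurableSet_closedBall]
      congr 1
      funext ξ
      rw [hχ]
      by_cases hξ : ‖ξ‖ ≤ (2 : ℝ) ^ j
      · rw [indicator_of_mem (by simpa using hξ)]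
        simp only [if_pos hξ]
        push_cast
        ring
      · rw [indicator_of_notMem (by simpa using hξ)]
        simp only [if_neg hξ]
        push_cast
        ring
    have e2 : ∫ ξ, (g ξ * (E j ξ : ℂ)) * ch x ξ =
        ∫ y, ((((2 : ℝ) ^ j) ^ n * Real.exp (-(Real.pi * ((2 : ℝ) ^ j) ^ 2 * ‖x - y‖ ^ 2)) : ℝ)
          : ℂ) * f y := by
      have := hGF n f ((2 : ℝ) ^ j) (by positivity) x
      rw [hg, hE]
      exact this
    rw [e1]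
    refine (enorm_add_le _ _).trans ?_
    gcongr
    rw [e2]
    refine (enorm_integral_le_lintegral_enorm _).trans ?_
    have h6 := h1 (fun y => ‖f y‖ₑ) (f.continuous.measurable.enorm) ((2 : ℝ) ^ j)
      (by positivity) x
    rw [hM]
    refine le_trans (le_of_eq ?_) h6
    refine lintegral_congr fun y => ?_
    rw [enorm_mul]
    congr 1
    rw [← ofReal_norm, Complex.norm_real, Real.norm_of_nonneg (by positivity)]
  have sq : ∀ x, (⨆ j : ℤ, ‖part g (closedBall 0 ((2 : ℝ) ^ j)) x‖ₑ) ^ 2 ≤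
      4 * (C1 ^ 2 * M x ^ 2) + 4 * ∑' j : ℤ, ‖D j x‖ₑ ^ 2 := by
    intro x
    refine sup_sq _ _ fun j => ?_
    calc ‖part g (closedBall 0 ((2 : ℝ) ^ j)) x‖ₑ ^ 2 ≤ (C1 * M x + ‖D j x‖ₑ) ^ 2 := by
          gcongr
          exact key j x
      _ ≤ 4 * (C1 * M x) ^ 2 + 4 * ‖D j x‖ₑ ^ 2 := sq4 _ _
      _ ≤ _ := by
          rw [mul_pow]
          gcongr
          exact ENNReal.le_tsum (f := fun j => ‖D j x‖ₑ ^ 2) j
  have hne : ∀ᵐ ξ : V n, ξ ≠ 0 := by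
    have : Nonempty (Fin n) := ⟨⟨0, hn⟩⟩
    have h7 : (volume : Measure (V n)) {0} = 0 := measure_singleton 0
    exact compl_mem_ae_iff.2 h7
  have dsum : ∫⁻ x, ∑' j : ℤ, ‖D j x‖ₑ ^ 2 ≤ C3 * ∫⁻ x, ‖g x‖ₑ ^ 2 := by
    rw [lintegral_tsum fun j => ((Dm j).enorm.pow_const 2).aemeasurable]
    have e3 : ∀ j, ∫⁻ x, ‖D j x‖ₑ ^ 2 = ∫⁻ ξ, ‖g ξ * (χ j ξ : ℂ)‖ₑ ^ 2 := by
      intro j
      rw [hD]
      exact planch (ig gi (χm j) (χ1 j)) (mg g2 (χm j) (χ1 j))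
    simp only [e3]
    have gm : Measurable g := by
      rw [gS]
      exact (SchwartzMap.continuous _).measurable
    have gm2 : ∀ j, AEMeasurable (fun ξ => ‖g ξ * (χ j ξ : ℂ)‖ₑ ^ 2) := fun j =>
      ((gm.mul (Complex.measurable_ofReal.comp (χm j))).enorm.pow_const 2).aemeasurable
    rw [← lintegral_tsum gm2, ← lintegral_const_mul' _ _ ENNReal.coe_ne_top]
    refine lintegral_mono_ae ?_
    filter_upwards [hne] with ξ hξ
    have h8 := h3 ‖ξ‖ (norm_pos_iff.2 hξ)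
    have e4 : ∀ j : ℤ, ‖g ξ * (χ j ξ : ℂ)‖ₑ ^ 2 =
        ‖g ξ‖ₑ ^ 2 * ENNReal.ofReal (((if ‖ξ‖ ≤ (2 : ℝ) ^ j then 1 else 0) -
          Real.exp (-(Real.pi * ‖ξ‖ ^ 2 / ((2 : ℝ) ^ j) ^ 2))) ^ 2) := by
      intro j
      rw [enorm_mul, mul_pow]
      congr 1
      rw [← ofReal_norm, Complex.norm_real, Real.norm_eq_abs,
        ← ENNReal.ofReal_pow (abs_nonneg _), sq_abs, hχ, hE]
    simp only [e4]
    rw [ENNReal.tsum_mul_left, mul_comm]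
    gcongr
  rw [← hg]
  calc ∫⁻ x, (⨆ j : ℤ, ‖part g (closedBall 0 ((2 : ℝ) ^ j)) x‖ₑ) ^ 2
      ≤ ∫⁻ x, (4 * (C1 ^ 2 * M x ^ 2) + 4 * ∑' j : ℤ, ‖D j x‖ₑ ^ 2) := lintegral_mono sq
    _ = (∫⁻ x, 4 * (C1 ^ 2 * M x ^ 2)) + ∫⁻ x, 4 * ∑' j : ℤ, ‖D j x‖ₑ ^ 2 := by
        refine lintegral_add_right _ ?_
        exact (Measurable.ennreal_tsum fun j => (Dm j).enorm.pow_const 2).const_mul _
    _ = 4 * (C1 ^ 2 * ∫⁻ x, M x ^ 2) + 4 * ∫⁻ x, ∑' j : ℤ, ‖D j x‖ₑ ^ 2 := by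
        rw [lintegral_const_mul' _ _ (by norm_num), lintegral_const_mul' _ _ (by norm_num),
          lintegral_const_mul' _ _ (by simp)]
    _ ≤ 4 * (C1 ^ 2 * (C2 * ∫⁻ x, ‖f x‖ₑ ^ 2)) + 4 * (C3 * ∫⁻ x, ‖g x‖ₑ ^ 2) := by
        gcongr
        rw [hM]
        exact h2 (fun y => ‖f y‖ₑ) f.continuous.measurable.enorm
    _ = _ := by
        rw [gf]
        push_cast
        ring

end Pool.Agent.R257.SP
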