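import Pool.Agent.R257.SP.Stm
import Pool.Agent.H153R4.Pl

set_option autoImplicit false

/-! SP-LP: local Plancherel inequality (helper21) -/

namespace Pool.Agent.R257.SP

open MeasureTheory Set Metric
open scoped ENNReal NNReal FourierTransform SchwartzMap RealInnerProductSpace

namespace LPp

variable {n : ℕ}

lemma norm_ch (x ξ : V n) : ‖ch x ξ‖ = 1 := by
  unfold ch
  exact Complex.norm_exp_ofReal_mul_I _

lemma ch_add (x y ξ : V n) : ch (x + y) ξ = ch x ξ * ch y ξ := by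
  unfold ch
  rw [← Complex.exp_add]
  congr 1
  rw [inner_add_left]
  push_cast
  ring

lemma fourier_neg (g : V n → ℂ) (x : V n) : 𝓕 g (-x) = ∫ ξ, g ξ * ch x ξ := by
  rw [Real.fourier_eq']
  apply integral_congr_ae
  refine Filter.Eventually.of_forall (fun ξ => ?_)
  simp only [smul_eq_mul]
  rw [mul_comm]
  unfold ch
  congr 3
  rw [inner_neg_right, real_inner_comm]
  push_cast
  ring

/-- the indicator function of the small ball -/
noncomputable def kB (n : ℕ) : V n → ℂ := (closedBall (0 : V n) (1 / 8)).indicator (fun _ => (1 : ℂ))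

lemma vol_fin : volume (closedBall (0 : V n) (1 / 8)) ≠ ∞ :=
  (isCompact_closedBall (0 : V n) (1 / 8)).measure_lt_top.ne

lemma kB_int : Integrable (kB n) := by
  unfold kB
  rw [integrable_indicator_iff measurableSet_closedBall]
  exact integrableOn_const (hs := vol_fin)

/-- the volume of the small ball -/
noncomputable def bet (n : ℕ) : ℝ := volume.real (closedBall (0 : V n) (1 / 8))

lemma bet_pos : 0 < bet n := by
  unfold bet Measure.real
  apply ENNReal.toReal_pos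
  · exact (measure_closedBall_pos volume (0 : V n) (by norm_num)).ne'
  · exact vol_fin

lemma kB_fourier (x : V n) (hx : x ∈ ball (0 : V n) 1) : bet n / 2 ≤ ‖𝓕 (kB n) (-x)‖ := by
  rw [fourier_neg]
  have e1 : ∫ ξ, kB n ξ * ch x ξ = ∫ ξ in closedBall (0 : V n) (1 / 8), ch x ξ := by
    rw [← integral_indicator measurableSet_closedBall]
    congr 1
    funext ξ
    unfold kB
    by_cases h : ξ ∈ closedBall (0 : V n) (1 / 8)
    · rw [indicator_of_mem h, indicator_of_mem h, one_mul]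
    · rw [indicator_of_notMem h, indicator_of_notMem h, zero_mul]
  rw [e1]
  refine le_trans ?_ (Complex.re_le_norm _)
  have hc : Continuous (fun ξ : V n => ch x ξ) := by
    unfold ch
    fun_prop
  have hi : IntegrableOn (fun ξ : V n => ch x ξ) (closedBall (0 : V n) (1 / 8)) :=
    hc.continuousOn.integrableOn_compact (isCompact_closedBall _ _)
  have e2 : (∫ ξ in closedBall (0 : V n) (1 / 8), ch x ξ).re =
      ∫ ξ in closedBall (0 : V n) (1 / 8), (ch x ξ).re :=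
    (Complex.reCLM.integral_comp_comm hi).symm
  rw [e2]
  have e3 : bet n / 2 = ∫ _ξ in closedBall (0 : V n) (1 / 8), (1 / 2 : ℝ) := by
    rw [setIntegral_const, smul_eq_mul]
    unfold bet
    ring
  rw [e3]
  apply setIntegral_mono_on
  · exact integrableOn_const (hs := vol_fin)
  · exact Complex.reCLM.integrable_comp hi
  · exact measurableSet_closedBall
  · intro ξ hξ
    rw [mem_closedBall_zero_iff] at hξ
    rw [mem_ball_zero_iff] at hx
    unfold ch
    rw [Complex.exp_ofReal_mul_I_re]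
    have h1 : |inner ℝ x ξ| ≤ 1 / 8 := by
      refine (abs_real_inner_le_norm x ξ).trans ?_
      nlinarith [norm_nonneg x, norm_nonneg ξ]
    rw [← Real.cos_abs, ← Real.cos_pi_div_three]
    apply Real.cos_le_cos_of_nonneg_of_le_pi (abs_nonneg _)
    · linarith [Real.pi_pos]
    · rw [abs_mul, abs_of_pos (by positivity : (0 : ℝ) < 2 * Real.pi)]
      nlinarith [Real.pi_pos]

/-- the local averages -/
noncomputable def HH (g : V n → ℂ) (ξ : V n) : ℝ≥0∞ := ∫⁻ η in closedBall ξ (1 / 8), ‖g η‖ₑ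

lemma conv_le (g : V n → ℂ) (ξ : V n) :
    ‖convolution (kB n) g (ContinuousLinearMap.mul ℂ ℂ) volume ξ‖ₑ ≤ HH g ξ := by
  unfold convolution HH
  refine (enorm_integral_le_lintegral_enorm _).trans (le_of_eq ?_)
  have e1 : ∀ t : V n, ‖(ContinuousLinearMap.mul ℂ ℂ) (kB n t) (g (ξ - t))‖ₑ =
      (fun η => (closedBall ξ (1 / 8)).indicator (fun η => ‖g η‖ₑ) η) (ξ - t) := by
    intro t
    simp only [ContinuousLinearMap.mul_apply']
    unfold kB
    have hiff : t ∈ closedBall (0 : V n) (1 / 8) ↔ ξ - t ∈ closedBall ξ (1 / 8) := by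
      rw [mem_closedBall_zero_iff, mem_closedBall, dist_eq_norm, sub_sub_cancel_left, norm_neg]
    by_cases h : t ∈ closedBall (0 : V n) (1 / 8)
    · rw [indicator_of_mem h, indicator_of_mem (hiff.1 h), one_mul]
    · rw [indicator_of_notMem h, indicator_of_notMem (fun h' => h (hiff.2 h')), zero_mul, enorm_zero]
  simp_rw [e1]
  rw [lintegral_sub_left_eq_self (fun η => (closedBall ξ (1 / 8)).indicator (fun η => ‖g η‖ₑ) η) ξ]
  exact lintegral_indicator measurableSet_closedBall _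

lemma core (g : V n → ℂ) (hg : Integrable g) :
    ∫⁻ x in ball (0 : V n) 1, ‖∫ ξ, g ξ * ch x ξ‖ₑ ^ 2 ≤
      ENNReal.ofReal ((2 / bet n) ^ 2) * ∫⁻ ξ : V n, HH g ξ ^ 2 := by
  have hb := bet_pos (n := n)
  by_cases hfin : ∫⁻ ξ : V n, HH g ξ ^ 2 = ∞
  · rw [hfin, ENNReal.mul_top]
    · exact le_top
    · rw [ne_eq, ENNReal.ofReal_eq_zero, not_le]
      positivity
  set h := convolution (kB n) g (ContinuousLinearMap.mul ℂ ℂ) volume with hh
  have h1 : Integrable h := kB_int.integrable_convolution (ContinuousLinearMap.mul ℂ ℂ) hg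
  have hle : ∫⁻ ξ, ‖h ξ‖ₑ ^ 2 ≤ ∫⁻ ξ : V n, HH g ξ ^ 2 := by
    apply lintegral_mono
    intro ξ
    exact pow_le_pow_left' (conv_le g ξ) 2
  have h2 : MemLp h 2 := by
    refine ⟨h1.1, ?_⟩
    rw [eLpNorm_lt_top_iff_lintegral_rpow_enorm_lt_top (by norm_num) (by norm_num)]
    have e : ∀ ξ : V n, ‖h ξ‖ₑ ^ (ENNReal.toReal 2) = ‖h ξ‖ₑ ^ 2 := by
      intro ξ
      rw [show ENNReal.toReal 2 = ((2 : ℕ) : ℝ) by norm_num, ENNReal.rpow_natCast]
    simp_rw [e]
    exact lt_of_le_of_lt hle (lt_top_iff_ne_top.2 hfin)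
  have hpl := Pool.Agent.H153R4.plancherel h h1 h2
  have hneg : ∫⁻ x : V n, ‖𝓕 h (-x)‖ₑ ^ 2 = ∫⁻ x : V n, ‖𝓕 h x‖ₑ ^ 2 :=
    lintegral_neg_eq_self (fun x : V n => ‖𝓕 h x‖ₑ ^ 2)
  have hpt : ∀ x ∈ ball (0 : V n) 1, ‖∫ ξ, g ξ * ch x ξ‖ₑ ^ 2 ≤
      ENNReal.ofReal ((2 / bet n) ^ 2) * ‖𝓕 h (-x)‖ₑ ^ 2 := by
    intro x hx
    have e1 : 𝓕 h (-x) = 𝓕 (kB n) (-x) * 𝓕 g (-x) :=
      Real.fourier_mul_convolution_eq kB_int hg (-x)
    rw [e1, ← fourier_neg, ← ofReal_norm, ← ofReal_norm, ← ENNReal.ofReal_pow (norm_nonneg _),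
      ← ENNReal.ofReal_pow (norm_nonneg _), ← ENNReal.ofReal_mul (by positivity)]
    apply ENNReal.ofReal_le_ofReal
    rw [norm_mul, ← mul_pow]
    apply pow_le_pow_left₀ (norm_nonneg _)
    have h3 := kB_fourier x hx
    calc ‖𝓕 g (-x)‖ = 2 / bet n * (bet n / 2) * ‖𝓕 g (-x)‖ := by
          field_simp
      _ ≤ 2 / bet n * ‖𝓕 (kB n) (-x)‖ * ‖𝓕 g (-x)‖ := by gcongr
      _ = 2 / bet n * (‖𝓕 (kB n) (-x)‖ * ‖𝓕 g (-x)‖) := by ring
  calc ∫⁻ x in ball (0 : V n) 1, ‖∫ ξ, g ξ * ch x ξ‖ₑ ^ 2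
      ≤ ∫⁻ x in ball (0 : V n) 1, ENNReal.ofReal ((2 / bet n) ^ 2) * ‖𝓕 h (-x)‖ₑ ^ 2 :=
        setLIntegral_mono' measurableSet_ball hpt
    _ ≤ ∫⁻ x : V n, ENNReal.ofReal ((2 / bet n) ^ 2) * ‖𝓕 h (-x)‖ₑ ^ 2 :=
        setLIntegral_le_lintegral _ _
    _ = ENNReal.ofReal ((2 / bet n) ^ 2) * ∫⁻ x : V n, ‖𝓕 h (-x)‖ₑ ^ 2 :=
        lintegral_const_mul' _ _ ENNReal.ofReal_ne_top
    _ = ENNReal.ofReal ((2 / bet n) ^ 2) * ∫⁻ x : V n, ‖h x‖ₑ ^ 2 := by rw [hneg, hpl]
    _ ≤ _ := by gcongr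

end LPp

open LPp in
theorem LP_proof : Stm.LP := by
  intro n
  refine ⟨((2 / bet n) ^ 2).toNNReal, fun g hg _ y => ?_⟩
  set gy : V n → ℂ := fun ξ => g ξ * ch y ξ with hgy
  have hchc : Continuous (fun ξ : V n => ch y ξ) := by
    unfold ch
    fun_prop
  have hgyi : Integrable gy := by
    refine hg.mul_bdd (c := 1) hchc.aestronglyMeasurable ?_
    exact Filter.Eventually.of_forall (fun ξ => (norm_ch y ξ).le)
  have h1 := core gy hgyi
  have e1 : ∫⁻ x in ball y 1, ‖∫ ξ, g ξ * ch x ξ‖ₑ ^ 2 =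
      ∫⁻ x in ball (0 : V n) 1, ‖∫ ξ, gy ξ * ch x ξ‖ₑ ^ 2 := by
    rw [← lintegral_indicator measurableSet_ball, ← lintegral_indicator measurableSet_ball,
      ← lintegral_add_left_eq_self (fun x => (ball y 1).indicator
        (fun x => ‖∫ ξ, g ξ * ch x ξ‖ₑ ^ 2) x) y]
    congr 1
    funext x
    have hiff : y + x ∈ ball y 1 ↔ x ∈ ball (0 : V n) 1 := by
      rw [mem_ball, mem_ball_zero_iff, dist_eq_norm, add_sub_cancel_left]
    by_cases h : x ∈ ball (0 : V n) 1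
    · rw [indicator_of_mem h, indicator_of_mem (hiff.2 h)]
      congr 3
      funext ξ
      rw [ch_add, hgy]
      ring
    · rw [indicator_of_notMem h, indicator_of_notMem (fun h' => h (hiff.1 h'))]
  have e2 : ∀ ξ : V n, HH gy ξ = ∫⁻ η in closedBall ξ (1 / 8), ‖g η‖ₑ := by
    intro ξ
    unfold HH
    congr 1
    funext η
    rw [hgy]
    simp only
    rw [enorm_mul]
    have : ‖ch y η‖ₑ = 1 := by
      rw [← ofReal_norm, norm_ch]
      simp
    rw [this, mul_one]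
  simp_rw [e2] at h1
  rw [e1]
  exact h1

end Pool.Agent.R257.SP
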