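import Pool.Agent.R257.SP.Stm

/-!
# SP-MS: the sum over dyadic scales of the multiplier differences
-/

namespace Pool.Agent.R257.SP

open MeasureTheory Set Metric
open scoped ENNReal NNReal

namespace MSaux

/-- the majorant -/
noncomputable def g (i : ℤ) : ℝ := 10 * (1 / 2 : ℝ) ^ i.natAbs

theorem g_nonneg (i : ℤ) : 0 ≤ g i := by unfold g; positivity

theorem g_summable : Summable g := by
  have h : Summable fun n : ℕ => (10 : ℝ) * (1 / 2 : ℝ) ^ n :=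
    (summable_geometric_of_lt_one (by norm_num) (by norm_num)).mul_left 10
  apply Summable.of_nat_of_neg
  · refine h.congr fun n => ?_
    simp [g]
  · refine h.congr fun n => ?_
    simp [g]

theorem exp_bd (x : ℝ) (hx : 0 < x) : Real.exp (-x) ≤ 1 / x := by
  rw [Real.exp_neg, ← one_div]
  apply one_div_le_one_div_of_le hx
  linarith [Real.add_one_le_exp x]

theorem term_bd (r : ℝ) (hr : 0 < r) (n i : ℤ) (h1 : (2 : ℝ) ^ n < r) (h2 : r ≤ (2 : ℝ) ^ (n + 1)) :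
    ((if r ≤ (2 : ℝ) ^ (n + 1 + i) then 1 else 0) -
      Real.exp (-(Real.pi * r ^ 2 / ((2 : ℝ) ^ (n + 1 + i)) ^ 2))) ^ 2 ≤ g i := by
  have hpi : Real.pi < 3.15 := Real.pi_lt_d2
  have hpi0 : 3 < Real.pi := Real.pi_gt_three
  have hb : (0 : ℝ) < (2 : ℝ) ^ (n + 1 + i) := by positivity
  rcases le_or_gt 0 i with hi | hi
  · obtain ⟨k, rfl⟩ := Int.eq_ofNat_of_zero_le hi
    have e1 : (2 : ℝ) ^ (n + 1 + (k : ℤ)) = (2 : ℝ) ^ (n + 1) * 2 ^ k := by
      rw [zpow_add₀ (by norm_num), zpow_natCast]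
    have hk : (1 : ℝ) ≤ 2 ^ k := one_le_pow₀ (by norm_num)
    have hcond : r ≤ (2 : ℝ) ^ (n + 1 + (k : ℤ)) := by
      rw [e1]
      have : (0 : ℝ) < (2 : ℝ) ^ (n + 1) := by positivity
      nlinarith
    rw [if_pos hcond]
    set q : ℝ := r ^ 2 / ((2 : ℝ) ^ (n + 1 + (k : ℤ))) ^ 2 with hq
    have hq0 : 0 ≤ q := by positivity
    have hq1 : q ≤ (1 / 4) ^ k := by
      rw [hq, e1, mul_pow, div_le_iff₀ (by positivity)]
      have e2 : (1 / 4 : ℝ) ^ k * (((2 : ℝ) ^ (n + 1)) ^ 2 * (2 ^ k) ^ 2) = ((2 : ℝ) ^ (n + 1)) ^ 2 := by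
        have : (1 / 4 : ℝ) ^ k * (2 ^ k) ^ 2 = 1 := by
          rw [← pow_mul, mul_comm k 2, pow_mul, ← mul_pow]
          norm_num
        calc (1 / 4 : ℝ) ^ k * (((2 : ℝ) ^ (n + 1)) ^ 2 * (2 ^ k) ^ 2) =
            ((1 / 4 : ℝ) ^ k * (2 ^ k) ^ 2) * ((2 : ℝ) ^ (n + 1)) ^ 2 := by ring
          _ = _ := by rw [this, one_mul]
      rw [e2]
      exact pow_le_pow_left₀ hr.le h2 2
    have e3 : Real.pi * r ^ 2 / ((2 : ℝ) ^ (n + 1 + (k : ℤ))) ^ 2 = Real.pi * q := by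
      rw [hq]; ring
    rw [e3]
    have h4 : Real.exp (-(Real.pi * q)) ≤ 1 := by
      apply Real.exp_le_one_iff.2
      have : 0 ≤ Real.pi * q := by positivity
      linarith
    have h5 : 1 - Real.exp (-(Real.pi * q)) ≤ Real.pi * q := by
      linarith [Real.add_one_le_exp (-(Real.pi * q))]
    have h6 : (1 - Real.exp (-(Real.pi * q))) ^ 2 ≤ (Real.pi * q) ^ 2 :=
      pow_le_pow_left₀ (by linarith) h5 2
    have h7 : q ^ 2 ≤ (1 / 2) ^ k := by
      have h8 : q ^ 2 ≤ ((1 / 4 : ℝ) ^ k) ^ 2 := pow_le_pow_left₀ hq0 hq1 2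
      have h9 : ((1 / 4 : ℝ) ^ k) ^ 2 ≤ (1 / 2) ^ k := by
        rw [← pow_mul, mul_comm, pow_mul]
        apply pow_le_pow_left₀ (by norm_num)
        norm_num
      exact h8.trans h9
    unfold g
    rw [Int.natAbs_natCast]
    have h10 : Real.pi ^ 2 ≤ 10 := by nlinarith
    calc (1 - Real.exp (-(Real.pi * q))) ^ 2 ≤ (Real.pi * q) ^ 2 := h6
      _ = Real.pi ^ 2 * q ^ 2 := by ring
      _ ≤ 10 * (1 / 2) ^ k := mul_le_mul h10 h7 (by positivity) (by norm_num)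
  · obtain ⟨k, hk⟩ : ∃ k : ℕ, i = -((k : ℤ) + 1) := ⟨(-i - 1).toNat, by omega⟩
    subst hk
    have e1 : (2 : ℝ) ^ (n + 1 + -((k : ℤ) + 1)) = (2 : ℝ) ^ n / 2 ^ k := by
      have : n + 1 + -((k : ℤ) + 1) = n - (k : ℤ) := by ring
      rw [this, zpow_sub₀ (by norm_num), zpow_natCast]
    have hk1 : (1 : ℝ) ≤ 2 ^ k := one_le_pow₀ (by norm_num)
    have hn0 : (0 : ℝ) < (2 : ℝ) ^ n := by positivity
    have hcond : ¬ r ≤ (2 : ℝ) ^ (n + 1 + -((k : ℤ) + 1)) := by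
      rw [e1, not_le]
      exact (div_le_self hn0.le hk1).trans_lt h1
    rw [if_neg hcond]
    set q : ℝ := r ^ 2 / ((2 : ℝ) ^ (n + 1 + -((k : ℤ) + 1))) ^ 2 with hq
    have hq1 : (4 : ℝ) ^ k ≤ q := by
      rw [hq, e1, div_pow, le_div_iff₀ (by positivity)]
      have e2 : (4 : ℝ) ^ k * (((2 : ℝ) ^ n) ^ 2 / (2 ^ k) ^ 2) = ((2 : ℝ) ^ n) ^ 2 := by
        have : (4 : ℝ) ^ k = (2 ^ k) ^ 2 := by
          rw [← pow_mul, mul_comm k 2, pow_mul]; norm_num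
        rw [this]
        field_simp
      rw [e2]
      exact pow_le_pow_left₀ hn0.le h1.le 2
    have hq0 : 0 < q := lt_of_lt_of_le (by positivity) hq1
    have e3 : Real.pi * r ^ 2 / ((2 : ℝ) ^ (n + 1 + -((k : ℤ) + 1))) ^ 2 = Real.pi * q := by
      rw [hq]; ring
    rw [e3, zero_sub, neg_sq, ← Real.exp_nat_mul]
    have e4 : ((2 : ℕ) : ℝ) * -(Real.pi * q) = -(2 * Real.pi * q) := by push_cast; ring
    rw [e4]
    have h4 := exp_bd (2 * Real.pi * q) (by positivity)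
    have h5 : 1 / (2 * Real.pi * q) ≤ 1 / 4 ^ k := by
      apply one_div_le_one_div_of_le (by positivity)
      nlinarith
    have h6 : (1 : ℝ) / 4 ^ k ≤ 10 * (1 / 2) ^ (k + 1) := by
      have h7 : (1 : ℝ) / 4 ^ k ≤ (1 / 2) ^ k := by
        rw [one_div, ← inv_pow]
        apply pow_le_pow_left₀ (by norm_num)
        norm_num
      have h8 : (0 : ℝ) ≤ (1 / 2) ^ k := by positivity
      rw [pow_succ]
      linarith
    unfold g
    have e5 : (-((k : ℤ) + 1)).natAbs = k + 1 := by omega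
    rw [e5]
    exact h4.trans (h5.trans h6)

end MSaux

open MSaux in
theorem MS_proof : Stm.MS := by
  refine ⟨(∑' i, g i).toNNReal, ?_⟩
  intro r hr
  obtain ⟨n, h1, h2⟩ := exists_mem_Ioc_zpow hr (y := 2) (by norm_num)
  rw [← (Equiv.addLeft (n + 1)).tsum_eq]
  calc ∑' i : ℤ, ENNReal.ofReal (((if r ≤ (2 : ℝ) ^ ((Equiv.addLeft (n + 1)) i) then 1 else 0) -
      Real.exp (-(Real.pi * r ^ 2 / ((2 : ℝ) ^ ((Equiv.addLeft (n + 1)) i)) ^ 2))) ^ 2)
      ≤ ∑' i : ℤ, ENNReal.ofReal (g i) := by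
        apply ENNReal.tsum_le_tsum
        intro i
        exact ENNReal.ofReal_le_ofReal (term_bd r hr n i h1 h2)
    _ = ENNReal.ofReal (∑' i, g i) := (ENNReal.ofReal_tsum_of_nonneg g_nonneg g_summable).symm
    _ = _ := rfl

end Pool.Agent.R257.SP
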