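import Pool.Agent.R257.SP.Stm

/-! SP-RM: the Rademacher-Menshov inequality (helper515). -/

namespace Pool.Agent.R257.SP

open MeasureTheory Set
open scoped ENNReal NNReal

namespace RMaux

variable {X : Type} [MeasurableSpace X] {μ : Measure X}

theorem mink {f g : X → ℝ≥0∞} (hf : AEMeasurable f μ) (hg : AEMeasurable g μ) {α β S : ℝ≥0∞}
    (h1 : ∫⁻ x, f x ^ 2 ∂μ ≤ α ^ 2 * S) (h2 : ∫⁻ x, g x ^ 2 ∂μ ≤ β ^ 2 * S) :
    ∫⁻ x, (f x + g x) ^ 2 ∂μ ≤ (α + β) ^ 2 * S := by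
  have h := ENNReal.lintegral_Lp_add_le hf hg (by norm_num : (1 : ℝ) ≤ 2)
  simp only [Pi.add_apply, ENNReal.rpow_two] at h
  have key : ∀ (I γ : ℝ≥0∞), I ≤ γ ^ 2 * S → I ^ (1 / 2 : ℝ) ≤ γ * S ^ (1 / 2 : ℝ) := by
    intro I γ hI
    refine (ENNReal.rpow_le_rpow hI (by norm_num)).trans (le_of_eq ?_)
    rw [ENNReal.mul_rpow_of_nonneg _ _ (by norm_num), ← ENNReal.rpow_two, ← ENNReal.rpow_mul]
    norm_num
  have h3 : (∫⁻ x, (f x + g x) ^ 2 ∂μ) ^ (1 / 2 : ℝ) ≤ (α + β) * S ^ (1 / 2 : ℝ) := by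
    refine h.trans ?_
    rw [add_mul]
    exact add_le_add (key _ _ h1) (key _ _ h2)
  have h4 : ∀ I : ℝ≥0∞, (I ^ (1 / 2 : ℝ)) ^ 2 = I := by
    intro I
    rw [← ENNReal.rpow_two, ← ENNReal.rpow_mul]
    norm_num
  calc ∫⁻ x, (f x + g x) ^ 2 ∂μ = ((∫⁻ x, (f x + g x) ^ 2 ∂μ) ^ (1 / 2 : ℝ)) ^ 2 := (h4 _).symm
    _ ≤ ((α + β) * S ^ (1 / 2 : ℝ)) ^ 2 := by gcongr
    _ = (α + β) ^ 2 * S := by rw [mul_pow, h4]

/-- the maximal function over a window -/
noncomputable def G (D : ℕ → X → ℂ) (p r : ℕ) (x : X) : ℝ≥0∞ :=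
  ⨆ k ∈ Set.Icc p r, ‖∑ i ∈ Finset.Ico p k, D i x‖ₑ

theorem meas_sum {D : ℕ → X → ℂ} (hD : ∀ i, AEStronglyMeasurable (D i) μ) (p k : ℕ) :
    AEMeasurable (fun x => ‖∑ i ∈ Finset.Ico p k, D i x‖ₑ) μ := by
  have : AEStronglyMeasurable (fun x => ∑ i ∈ Finset.Ico p k, D i x) μ :=
    Finset.aestronglyMeasurable_fun_sum _ fun i _ => hD i
  exact this.enorm

theorem meas_G {D : ℕ → X → ℂ} (hD : ∀ i, AEStronglyMeasurable (D i) μ) (p r : ℕ) :
    AEMeasurable (G D p r) μ := by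
  unfold G
  exact AEMeasurable.biSup _ (Set.to_countable _) fun k _ => meas_sum hD p k

theorem window {D : ℕ → X → ℂ} {a : ℕ → ℝ≥0∞} {N : ℕ}
    (hD : ∀ i, AEStronglyMeasurable (D i) μ)
    (ha : ∀ p q : ℕ, p ≤ q → q ≤ N →
      ∫⁻ x, ‖∑ i ∈ Finset.Ico p q, D i x‖ₑ ^ 2 ∂μ ≤ ∑ i ∈ Finset.Ico p q, a i) (m : ℕ) :
    ∀ p r : ℕ, p ≤ r → r ≤ N → r ≤ p + 2 ^ m →
      ∫⁻ x, G D p r x ^ 2 ∂μ ≤ ((m : ℝ≥0∞) + 1) ^ 2 * ∑ i ∈ Finset.Ico p r, a i := by
  induction m with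
  | zero =>
    intro p r hpr hrN hr
    have h1 : ∀ x, G D p r x ≤ ‖∑ i ∈ Finset.Ico p r, D i x‖ₑ := by
      intro x
      refine iSup₂_le fun k hk => ?_
      have h2 : k = p ∨ k = r := by
        have := hk.1; have := hk.2; omega
      rcases h2 with rfl | rfl
      · simp
      · exact le_rfl
    have h3 : ∫⁻ x, G D p r x ^ 2 ∂μ ≤ ∫⁻ x, ‖∑ i ∈ Finset.Ico p r, D i x‖ₑ ^ 2 ∂μ := by
      refine lintegral_mono fun x => ?_
      gcongr
      exact h1 x
    refine (h3.trans (ha p r hpr hrN)).trans (le_of_eq ?_)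
    simp
  | succ m ih =>
    intro p r hpr hrN hr
    rcases le_or_gt r (p + 2 ^ m) with h | h
    · refine (ih p r hpr hrN h).trans ?_
      gcongr
      push_cast
      exact le_self_add
    · set s := p + 2 ^ m with hs
      have hps : p ≤ s := Nat.le_add_right _ _
      have hr' : r ≤ s + 2 ^ m := by rw [hs]; rw [pow_succ] at hr; omega
      have hsum : ∑ i ∈ Finset.Ico p s, a i + ∑ i ∈ Finset.Ico s r, a i =
          ∑ i ∈ Finset.Ico p r, a i := Finset.sum_Ico_consecutive a hps h.le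
      have i1 := ih p s hps (h.le.trans hrN) le_rfl
      have i2 := ih s r h.le hrN hr'
      have hpt : ∀ x, G D p r x ≤ ‖∑ i ∈ Finset.Ico p s, D i x‖ₑ + (G D p s x ⊔ G D s r x) := by
        intro x
        refine iSup₂_le fun k hk => ?_
        rcases le_or_gt k s with hks | hks
        · refine le_add_left (le_trans ?_ le_sup_left)
          exact le_iSup₂ (f := fun k (_ : k ∈ Set.Icc p s) => ‖∑ i ∈ Finset.Ico p k, D i x‖ₑ) k
            ⟨hk.1, hks⟩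
        · rw [← Finset.sum_Ico_consecutive (fun i => D i x) hps hks.le]
          refine (enorm_add_le _ _).trans (add_le_add le_rfl (le_trans ?_ le_sup_right))
          exact le_iSup₂ (f := fun k (_ : k ∈ Set.Icc s r) => ‖∑ i ∈ Finset.Ico s k, D i x‖ₑ) k
            ⟨hks.le, hk.2⟩
      have i3 : ∫⁻ x, (G D p s x ⊔ G D s r x) ^ 2 ∂μ ≤
          ((m : ℝ≥0∞) + 1) ^ 2 * ∑ i ∈ Finset.Ico p r, a i := by
        have h5 : ∫⁻ x, (G D p s x ⊔ G D s r x) ^ 2 ∂μ ≤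
            ∫⁻ x, (G D p s x ^ 2 + G D s r x ^ 2) ∂μ := by
          refine lintegral_mono fun x => ?_
          rcases le_total (G D p s x) (G D s r x) with h6 | h6
          · simp only [sup_eq_right.2 h6]; exact le_add_self
          · simp only [sup_eq_left.2 h6]; exact le_self_add
        refine h5.trans ?_
        rw [lintegral_add_left' ((meas_G hD p s).pow_const 2), ← hsum, mul_add]
        exact add_le_add i1 i2
      have i4 : ∫⁻ x, ‖∑ i ∈ Finset.Ico p s, D i x‖ₑ ^ 2 ∂μ ≤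
          (1 : ℝ≥0∞) ^ 2 * ∑ i ∈ Finset.Ico p r, a i := by
        rw [one_pow, one_mul, ← hsum]
        exact (ha p s hps (h.le.trans hrN)).trans le_self_add
      have h7 := mink (meas_sum hD p s) ((meas_G hD p s).sup (meas_G hD s r)) i4 i3
      refine le_trans (lintegral_mono fun x => ?_) (h7.trans (le_of_eq ?_))
      · have := hpt x
        gcongr
        exact this
      · push_cast
        congr 2
        ring

end RMaux

open RMaux

theorem RM_proof : Stm.RM := by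
  intro X _ μ N D a hD ha
  have h := window hD ha (Nat.clog 2 N) 0 N (Nat.zero_le _) le_rfl (by
    rw [zero_add]; exact Nat.le_pow_clog (by norm_num) N)
  have e : ∀ x, (⨆ k ∈ Set.Iic N, ‖∑ i ∈ Finset.range k, D i x‖ₑ) = G D 0 N x := by
    intro x
    unfold G
    simp only [Finset.range_eq_Ico]
    congr 1
    funext k
    simp
  simp only [e]
  refine h.trans (le_of_eq ?_)
  rw [Finset.range_eq_Ico]
  push_cast
  rfl

end Pool.Agent.R257.SP
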