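import Pool.Agent.R257.SP.Stm

/-!
SP-SV: volume of a thin shell inside a small ball.
-/

namespace Pool.Agent.R257.SP

open MeasureTheory Set Metric
open scoped ENNReal NNReal

namespace SVaux

theorem pow_sub_le (a b : ℝ) (ha : 0 ≤ a) (hab : a ≤ b) (hb : b ≤ 1) (n : ℕ) :
    b ^ n - a ^ n ≤ n * (b - a) := by
  induction n with
  | zero => simp
  | succ n ih =>
    have h1 : a ^ n ≤ 1 := pow_le_one₀ ha (hab.trans hb)
    have h2 : a ^ n ≤ b ^ n := pow_le_pow_left₀ ha hab n
    have h3 : b * (b ^ n - a ^ n) ≤ 1 * (b ^ n - a ^ n) :=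
      mul_le_mul_of_nonneg_right hb (by linarith)
    have h4 : a ^ n * (b - a) ≤ 1 * (b - a) := mul_le_mul_of_nonneg_right h1 (by linarith)
    have h5 : b ^ (n + 1) - a ^ (n + 1) = b * (b ^ n - a ^ n) + a ^ n * (b - a) := by ring
    rw [h5]
    push_cast
    linarith

theorem measurable_shell (n : ℕ) (a b : ℝ) : MeasurableSet (shell n a b) := by
  have h : shell n a b = {ξ : V n | a < ‖ξ‖} ∩ {ξ : V n | ‖ξ‖ ≤ b} := rfl
  rw [h]
  exact (measurableSet_lt measurable_const measurable_norm).inter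
    (measurableSet_le measurable_norm measurable_const)

theorem small (n : ℕ) (ξ : V n) (a b : ℝ) (ha : 0 ≤ a) (hξ : ‖ξ‖ < 3 / 8) :
    volume (closedBall ξ (1 / 8) ∩ shell n a b) ≤
      (n * volume (ball (0 : V n) 1)) * ENNReal.ofReal (b - a) := by
  obtain ⟨b', hb'⟩ : ∃ b' : ℝ, b' = min b (1 / 2) := ⟨_, rfl⟩
  have hsub : closedBall ξ (1 / 8) ∩ shell n a b ⊆
      closedBall (0 : V n) b' \ closedBall (0 : V n) a := by
    rintro η ⟨h1, h2, h3⟩
    rw [mem_sdiff, mem_closedBall_zero_iff, mem_closedBall_zero_iff, not_le]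
    refine ⟨?_, h2⟩
    rw [hb']
    refine le_min h3 ?_
    rw [mem_closedBall, dist_eq_norm] at h1
    have h4 : ‖η‖ ≤ ‖η - ξ‖ + ‖ξ‖ := by
      have := norm_add_le (η - ξ) ξ
      rwa [sub_add_cancel] at this
    linarith
  refine (measure_mono hsub).trans ?_
  rcases le_or_gt b' a with h | h
  · have h1 : closedBall (0 : V n) b' \ closedBall (0 : V n) a = ∅ :=
      sdiff_eq_empty.2 (closedBall_subset_closedBall h)
    rw [h1, measure_empty]
    exact zero_le
  · have hb'1 : b' ≤ 1 := by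
      rw [hb']
      exact (min_le_right _ _).trans (by norm_num)
    have hb'b : b' ≤ b := by
      rw [hb']
      exact min_le_left _ _
    have hfin : volume (closedBall (0 : V n) a) ≠ ∞ := measure_closedBall_lt_top.ne
    rw [measure_sdiff (closedBall_subset_closedBall h.le)
      measurableSet_closedBall.nullMeasurableSet hfin,
      Measure.addHaar_closedBall _ _ (ha.trans h.le), Measure.addHaar_closedBall _ _ ha,
      finrank_euclideanSpace_fin, ← ENNReal.sub_mul (fun _ _ => measure_ball_lt_top.ne),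
      ← ENNReal.ofReal_sub _ (by positivity)]
    have h1 : ENNReal.ofReal (b' ^ n - a ^ n) ≤ n * ENNReal.ofReal (b - a) := by
      have h2 : (n : ℝ≥0∞) = ENNReal.ofReal (n : ℝ) := (ENNReal.ofReal_natCast n).symm
      rw [h2, ← ENNReal.ofReal_mul (Nat.cast_nonneg n)]
      apply ENNReal.ofReal_le_ofReal
      refine (pow_sub_le a b' ha h.le hb'1 n).trans ?_
      exact mul_le_mul_of_nonneg_left (by linarith) (Nat.cast_nonneg n)
    calc ENNReal.ofReal (b' ^ n - a ^ n) * volume (ball (0 : V n) 1) ≤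
          n * ENNReal.ofReal (b - a) * volume (ball (0 : V n) 1) := mul_le_mul_left h1 _
      _ = _ := by ring

theorem norm_grow {n : ℕ} (η e : V n) (he : ‖e‖ = 1) (hin : ‖η‖ / 2 ≤ inner ℝ η e) (t : ℝ)
    (ht : 0 ≤ t) : ‖η‖ + t / 2 ≤ ‖η + t • e‖ := by
  have h1 : ‖η + t • e‖ ^ 2 = ‖η‖ ^ 2 + 2 * (t * inner ℝ η e) + t ^ 2 := by
    rw [norm_add_sq_real, inner_smul_right, norm_smul, he, mul_one, Real.norm_eq_abs, sq_abs]
  have h2 : t * (‖η‖ / 2) ≤ t * inner ℝ η e := mul_le_mul_of_nonneg_left hin ht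
  refine le_of_sq_le_sq ?_ (norm_nonneg _)
  rw [h1]
  nlinarith [norm_nonneg η]

theorem large (n : ℕ) (ξ : V n) (a b : ℝ) (hab : a ≤ b) (hb : b ≤ a + 1)
    (hξ : 3 / 8 ≤ ‖ξ‖) :
    volume (closedBall ξ (1 / 8) ∩ shell n a b) ≤
      volume (closedBall (0 : V n) 5) * ENNReal.ofReal (b - a) := by
  rcases hab.eq_or_lt with h0 | h0
  · have h1 : closedBall ξ (1 / 8) ∩ shell n a b = ∅ := by
      rw [eq_empty_iff_forall_notMem]
      rintro η ⟨_, h2, h3⟩
      linarith
    rw [h1, measure_empty]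
    exact zero_le
  obtain ⟨A, hA⟩ : ∃ A, A = closedBall ξ (1 / 8) ∩ shell n a b := ⟨_, rfl⟩
  have hAm : MeasurableSet A := by
    rw [hA]
    exact measurableSet_closedBall.inter (measurable_shell n a b)
  obtain ⟨h, hh⟩ : ∃ h : ℝ, h = b - a := ⟨_, rfl⟩
  have hpos : 0 < h := by rw [hh]; linarith
  have hle1 : h ≤ 1 := by rw [hh]; linarith
  have hξ0 : 0 < ‖ξ‖ := by linarith
  obtain ⟨e, he⟩ : ∃ e : V n, e = ‖ξ‖⁻¹ • ξ := ⟨_, rfl⟩
  have he1 : ‖e‖ = 1 := by
    rw [he, norm_smul, norm_inv, norm_norm, inv_mul_cancel₀ hξ0.ne']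
  have hξe : inner ℝ ξ e = ‖ξ‖ := by
    rw [he, inner_smul_right, real_inner_self_eq_norm_sq]
    field_simp
  have hin : ∀ η ∈ A, ‖η‖ / 2 ≤ inner ℝ η e := by
    intro η hη
    rw [hA] at hη
    have h1 := hη.1
    rw [mem_closedBall, dist_eq_norm] at h1
    have h4 : ‖η‖ ≤ ‖η - ξ‖ + ‖ξ‖ := by
      have := norm_add_le (η - ξ) ξ
      rwa [sub_add_cancel] at this
    have h5 : inner ℝ η e = inner ℝ (η - ξ) e + inner ℝ ξ e := by
      rw [← inner_add_left, sub_add_cancel]
    have h6 := abs_real_inner_le_norm (η - ξ) e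
    rw [he1, mul_one] at h6
    have h7 := (abs_le.1 h6).1
    rw [h5, hξe]
    linarith
  obtain ⟨B, hB⟩ : ∃ B : ℕ → Set (V n), B = fun j : ℕ => (fun x => x + -((2 * (j : ℝ) * h) • e)) ⁻¹' A :=
    ⟨_, rfl⟩
  have hBm : ∀ j, MeasurableSet (B j) := by
    intro j
    rw [hB]
    exact (measurable_add_const _) hAm
  have hBv : ∀ j, volume (B j) = volume A := by
    intro j
    rw [hB]
    exact measure_preimage_add_right volume _ A
  obtain ⟨J, hJ⟩ : ∃ J : ℕ, J = ⌈1 / h⌉₊ := ⟨_, rfl⟩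
  have hJ1 : 1 ≤ h * J := by
    have h1 : 1 / h ≤ J := by
      rw [hJ]
      exact Nat.le_ceil _
    rw [div_le_iff₀ hpos] at h1
    linarith
  have hJ2 : h * J ≤ 2 := by
    have h1 : (J : ℝ) < 1 / h + 1 := by
      rw [hJ]
      exact Nat.ceil_lt_add_one (by positivity)
    have h2 : h * J ≤ h * (1 / h + 1) := mul_le_mul_of_nonneg_left h1.le hpos.le
    have h3 : h * (1 / h + 1) = 1 + h := by
      field_simp
    linarith
  have hdis : ∀ i j : ℕ, i < j → Disjoint (B i) (B j) := by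
    intro i j hij
    rw [Set.disjoint_left]
    intro x hxi hxj
    rw [hB] at hxi hxj
    have h1 : x + -((2 * (i : ℝ) * h) • e) ∈ A := hxi
    have h2 : x + -((2 * (j : ℝ) * h) • e) ∈ A := hxj
    have hijR : (i : ℝ) + 1 ≤ j := by exact_mod_cast hij
    have h3 := norm_grow _ e he1 (hin _ h2) (2 * (((j : ℝ) - i) * h))
      (by
        have : 0 ≤ ((j : ℝ) - i) * h := mul_nonneg (by linarith) hpos.le
        linarith)
    have h4 : x + -((2 * (j : ℝ) * h) • e) + (2 * (((j : ℝ) - i) * h)) • e =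
        x + -((2 * (i : ℝ) * h) • e) := by
      module
    rw [h4] at h3
    rw [hA] at h1 h2
    have h5 := h1.2.2
    have h6 := h2.2.1
    have h7 : 1 * h ≤ ((j : ℝ) - i) * h := mul_le_mul_of_nonneg_right (by linarith) hpos.le
    linarith
  have hsub : ⋃ j ∈ Finset.range J, B j ⊆ closedBall ξ 5 := by
    refine iUnion₂_subset fun j hj => ?_
    intro x hx
    rw [hB] at hx
    have h1 : x + -((2 * (j : ℝ) * h) • e) ∈ A := hx
    rw [hA] at h1
    have h2 := h1.1
    rw [mem_closedBall, dist_eq_norm] at h2 ⊢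
    have h3 : x - ξ = (x + -((2 * (j : ℝ) * h) • e) - ξ) + (2 * (j : ℝ) * h) • e := by
      module
    rw [h3]
    refine (norm_add_le _ _).trans ?_
    rw [norm_smul, he1, mul_one, Real.norm_eq_abs, abs_of_nonneg (by positivity)]
    have h4 : (j : ℝ) ≤ J := by
      have := Finset.mem_range.1 hj
      exact_mod_cast this.le
    have h5 : h * j ≤ h * J := mul_le_mul_of_nonneg_left h4 hpos.le
    linarith
  have hsum : (J : ℝ≥0∞) * volume A ≤ volume (closedBall (0 : V n) 5) := by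
    have h1 : volume (⋃ j ∈ Finset.range J, B j) = ∑ j ∈ Finset.range J, volume (B j) := by
      refine measure_biUnion_finset ?_ fun j _ => hBm j
      intro i _ j _ hij
      rcases lt_or_gt_of_ne hij with h | h
      · exact hdis i j h
      · exact (hdis j i h).symm
    have h2 : ∑ j ∈ Finset.range J, volume (B j) = (J : ℝ≥0∞) * volume A := by
      rw [Finset.sum_congr rfl (fun j _ => hBv j), Finset.sum_const, Finset.card_range,
        nsmul_eq_mul]
    rw [← h2, ← h1]
    refine (measure_mono hsub).trans (le_of_eq ?_)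
    rw [Measure.addHaar_closedBall _ _ (by norm_num), Measure.addHaar_closedBall _ _ (by norm_num)]
  rw [← hA, ← hh]
  calc volume A = 1 * volume A := (one_mul _).symm
    _ ≤ ENNReal.ofReal (h * J) * volume A := by
        refine mul_le_mul_left ?_ _
        rw [← ENNReal.ofReal_one]
        exact ENNReal.ofReal_le_ofReal hJ1
    _ = ENNReal.ofReal h * (J * volume A) := by
        rw [ENNReal.ofReal_mul hpos.le, ENNReal.ofReal_natCast, mul_assoc]
    _ ≤ ENNReal.ofReal h * volume (closedBall (0 : V n) 5) := mul_le_mul_right hsum _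
    _ = _ := mul_comm _ _

end SVaux

open SVaux in
theorem SV_proof : Stm.SV := by
  intro n _
  obtain ⟨K, hK⟩ : ∃ K : ℝ≥0∞, K = n * volume (ball (0 : V n) 1) +
    volume (closedBall (0 : V n) 5) := ⟨_, rfl⟩
  have hKf : K ≠ ∞ := by
    rw [hK]
    exact ENNReal.add_ne_top.2 ⟨ENNReal.mul_ne_top (ENNReal.natCast_ne_top n)
      measure_ball_lt_top.ne, measure_closedBall_lt_top.ne⟩
  refine ⟨K.toNNReal, fun ξ a b ha hab hb => ?_⟩
  rw [ENNReal.coe_toNNReal hKf]
  rcases lt_or_ge ‖ξ‖ (3 / 8) with h | h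
  · refine (small n ξ a b ha h).trans (mul_le_mul_left ?_ _)
    rw [hK]
    exact le_self_add
  · refine (large n ξ a b hab hb h).trans (mul_le_mul_left ?_ _)
    rw [hK]
    exact le_add_self

end Pool.Agent.R257.SP
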