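import Pool.Agent.R257.SP.Defs

/-!
Statements of the pieces. `V n = EuclideanSpace ℝ (Fin n)`.
-/

namespace Pool.Agent.R257.SP.Stm

open MeasureTheory Set Metric
open scoped ENNReal NNReal FourierTransform SchwartzMap RealInnerProductSpace

/-- SP-LP: local Plancherel inequality. -/
def LP : Prop := ∀ n : ℕ, ∃ C : ℝ≥0, ∀ g : V n → ℂ, Integrable g → MemLp g 2 → ∀ y : V n,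
  ∫⁻ x in ball y 1, ‖∫ ξ, g ξ * ch x ξ‖ₑ ^ 2 ≤
    C * ∫⁻ ξ : V n, (∫⁻ η in closedBall ξ (1 / 8), ‖g η‖ₑ) ^ 2

/-- SP-SV: volume of a thin shell inside a small ball. -/
def SV : Prop := ∀ n : ℕ, 0 < n → ∃ C : ℝ≥0, ∀ (ξ : V n) (a b : ℝ), 0 ≤ a → a ≤ b → b ≤ a + 1 →
  volume (closedBall ξ (1 / 8) ∩ shell n a b) ≤ C * ENNReal.ofReal (b - a)

/-- SP-TH: thin shells. -/
def TH : Prop := ∀ n : ℕ, 0 < n → ∃ C : ℝ≥0, ∀ g : V n → ℂ, Integrable g → MemLp g 2 →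
  ∀ (a b : ℝ), 0 ≤ a → a ≤ b → b ≤ a + 1 → ∀ y : V n,
  ∫⁻ x in ball y 1, ‖part g (shell n a b) x‖ₑ ^ 2 ≤
    C * ENNReal.ofReal (b - a) * nsq g (shell n a b)

/-- SP-CORE: maximal inequality inside a unit shell. -/
def CORE : Prop := ∀ n : ℕ, 0 < n → ∃ C : ℝ≥0, ∀ g : V n → ℂ, Integrable g → MemLp g 2 →
  ∀ (a : ℝ), 0 ≤ a → ∀ y : V n,
  ∫⁻ x in ball y 1, (⨆ R ∈ Icc a (a + 1), ‖part g (shell n a R) x‖ₑ) ^ 2 ≤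
    C * nsq g (shell n a (a + 1))

/-- SP-RM: Rademacher-Menshov inequality. -/
def RM : Prop := ∀ (X : Type) [MeasurableSpace X] (μ : Measure X) (N : ℕ) (D : ℕ → X → ℂ)
  (a : ℕ → ℝ≥0∞), (∀ i, AEStronglyMeasurable (D i) μ) →
  (∀ p q : ℕ, p ≤ q → q ≤ N →
    ∫⁻ x, ‖∑ i ∈ Finset.Ico p q, D i x‖ₑ ^ 2 ∂μ ≤ ∑ i ∈ Finset.Ico p q, a i) →
  ∫⁻ x, (⨆ k ∈ Set.Iic N, ‖∑ i ∈ Finset.range k, D i x‖ₑ) ^ 2 ∂μ ≤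
    (Nat.clog 2 N + 1 : ℕ) ^ 2 * ∑ i ∈ Finset.range N, a i

/-- SP-HL: Hardy-Littlewood maximal inequality in `L²`. -/
def HL : Prop := ∀ n : ℕ, 0 < n → ∃ C : ℝ≥0, ∀ f : V n → ℝ≥0∞, Measurable f →
  ∫⁻ x, (⨆ r ∈ Ioi (0 : ℝ), (volume (ball x r))⁻¹ * ∫⁻ y in ball x r, f y) ^ 2 ≤
    C * ∫⁻ x, f x ^ 2

/-- SP-GM: Gaussian averages are bounded by the maximal function. -/
def GM : Prop := ∀ n : ℕ, 0 < n → ∃ C : ℝ≥0, ∀ f : V n → ℝ≥0∞, Measurable f → ∀ (t : ℝ), 0 < t →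
  ∀ x : V n, ∫⁻ y, ENNReal.ofReal (t ^ n * Real.exp (-(Real.pi * t ^ 2 * ‖x - y‖ ^ 2))) * f y ≤
    C * ⨆ r ∈ Ioi (0 : ℝ), (volume (ball x r))⁻¹ * ∫⁻ y in ball x r, f y

/-- SP-GF: Gaussian cut-off of a Fourier integral as a Gaussian average. -/
def GF : Prop := ∀ n : ℕ, ∀ f : 𝓢(V n, ℂ), ∀ (t : ℝ), 0 < t → ∀ x : V n,
  ∫ ξ, (𝓕 (f : V n → ℂ) ξ * ((Real.exp (-(Real.pi * ‖ξ‖ ^ 2 / t ^ 2)) : ℝ) : ℂ)) * ch x ξ =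
    ∫ y, ((t ^ n * Real.exp (-(Real.pi * t ^ 2 * ‖x - y‖ ^ 2)) : ℝ) : ℂ) * f y

/-- SP-MS: sum over dyadic scales of the multiplier differences. -/
def MS : Prop := ∃ C : ℝ≥0, ∀ r : ℝ, 0 < r →
  ∑' j : ℤ, ENNReal.ofReal (((if r ≤ (2 : ℝ) ^ j then 1 else 0) -
    Real.exp (-(Real.pi * r ^ 2 / ((2 : ℝ) ^ j) ^ 2))) ^ 2) ≤ C

/-- SP-LAC: lacunary maximal inequality. -/
def LAC : Prop := ∀ n : ℕ, 0 < n → ∃ C : ℝ≥0, ∀ f : 𝓢(V n, ℂ),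
  ∫⁻ x, (⨆ j : ℤ, ‖part (𝓕 (f : V n → ℂ)) (closedBall 0 ((2 : ℝ) ^ j)) x‖ₑ) ^ 2 ≤
    C * ∫⁻ x, ‖f x‖ₑ ^ 2

/-- SP-BLK: the maximal inequality over few radii of one dyadic block. -/
def BLK : Prop := ∀ n : ℕ, 0 < n → ∀ g : V n → ℂ, Integrable g → MemLp g 2 →
  ∀ (b c : ℕ) (K : Finset ℕ), (∀ k ∈ K, b ≤ k ∧ k ≤ c) → ∀ y : V n,
  ∫⁻ x in ball y 1, (⨆ k ∈ K, ‖part g (shell n b k) x‖ₑ) ^ 2 ≤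
    (Nat.clog 2 K.card + 2 : ℕ) ^ 2 * nsq g (shell n b c)

/-- SP-UNIT: the theorem at unit scale. -/
def UNIT : Prop := ∀ n : ℕ, 0 < n → ∃ C : ℝ≥0, ∀ (N : ℕ), 1 ≤ N → ∀ E : Set ℝ, E ⊆ Ioi 0 →
  (∀ j : ℕ, (cells E 1 j).encard ≤ N) → ∀ (f : 𝓢(V n, ℂ)) (y : V n),
  ∫⁻ x in ball y 1, (⨆ R ∈ E, ‖ballSum f R x‖ₑ) ^ 2 ≤
    C * (Nat.clog 2 N + 1 : ℕ) ^ 2 * ∫⁻ x, ‖f x‖ₑ ^ 2

/-- SP-DIL: dilation. -/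
def DIL : Prop := ∀ n : ℕ, ∀ (f : 𝓢(V n, ℂ)) (ρ : ℝ), 0 < ρ → ∃ h : 𝓢(V n, ℂ),
  (∀ (R : ℝ) (x : V n), ballSum f R x = ballSum h (ρ * R) (ρ⁻¹ • x)) ∧
  ENNReal.ofReal (ρ ^ n) * ∫⁻ x, ‖h x‖ₑ ^ 2 = ∫⁻ x, ‖f x‖ₑ ^ 2 ∧
  ∀ (F : V n → ℝ≥0∞) (y : V n), ∫⁻ x in ball y ρ, F (ρ⁻¹ • x) =
    ENNReal.ofReal (ρ ^ n) * ∫⁻ x in ball (ρ⁻¹ • y) 1, F x

/-- SP-FIN: the theorem at all scales. -/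
def FIN : Prop := ∀ n : ℕ, 2 ≤ n → ∃ C : ℝ, ∀ (ρ : ℝ), 0 < ρ → ∀ (N : ℕ), 1 ≤ N →
  ∀ E : Set ℝ, E ⊆ Ioi 0 → (∀ j : ℕ, (cells E ρ j).encard ≤ N) → ∀ (f : 𝓢(V n, ℂ)) (y : V n),
  ∫⁻ x in ball y ρ, (⨆ R ∈ E, ‖ballSum f R x‖ₑ) ^ 2 ≤
    ENNReal.ofReal (C * (1 + Real.log N) ^ 2) * ∫⁻ x, ‖f x‖ₑ ^ 2

end Pool.Agent.R257.SP.Stm
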