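import Pool.Agent.R257.SP.Stm

/-!
Second batch: extension to all of `L²` and convergence almost everywhere.
-/

namespace Pool.Agent.R257.SP

open MeasureTheory Set Metric Filter Topology
open scoped ENNReal NNReal FourierTransform SchwartzMap RealInnerProductSpace

/-- the ball partial sum `S_R f(x)` of `f ∈ L²`, with the `L²` Fourier transform of Mathlib -/
noncomputable def lpSum {n : ℕ} (f : Lp ℂ 2 (volume : Measure (V n))) (R : ℝ) (x : V n) : ℂ :=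
  part ((𝓕 f : Lp ℂ 2 (volume : Measure (V n))) : V n → ℂ) (closedBall 0 R) x

namespace Stm

/-- SP-INV: convergence for Schwartz functions. -/
def INV : Prop := ∀ (n : ℕ) (f : 𝓢(V n, ℂ)) (x : V n),
  Tendsto (fun R : ℝ => ballSum f R x) atTop (𝓝 (f x))

/-- SP-EXT: a maximal inequality extends from Schwartz functions to `L²`. -/
def EXT : Prop := ∀ (n : ℕ) (E : Set ℝ) (U : Set (V n)) (M : ℝ≥0∞), M ≠ ∞ → MeasurableSet U →
  (∀ f : 𝓢(V n, ℂ), ∫⁻ x in U, (⨆ R ∈ E, ‖ballSum f R x‖ₑ) ^ 2 ≤ M * ∫⁻ x, ‖f x‖ₑ ^ 2) →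
  ∀ f : Lp ℂ 2 (volume : Measure (V n)),
    ∫⁻ x in U, (⨆ R ∈ E, ‖lpSum f R x‖ₑ) ^ 2 ≤ M * ∫⁻ x, ‖f x‖ₑ ^ 2

/-- SP-AE: a maximal inequality on balls implies convergence almost everywhere. -/
def AE : Prop := ∀ (n : ℕ) (E : Set ℝ) (r : ℝ) (M : ℝ≥0∞), 0 < r → M ≠ ∞ →
  (∀ (f : Lp ℂ 2 (volume : Measure (V n))) (y : V n),
    ∫⁻ x in ball y r, (⨆ R ∈ E, ‖lpSum f R x‖ₑ) ^ 2 ≤ M * ∫⁻ x, ‖f x‖ₑ ^ 2) →
  ∀ f : Lp ℂ 2 (volume : Measure (V n)),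
    ∀ᵐ x, Tendsto (fun R : ℝ => lpSum f R x) (atTop ⊓ 𝓟 E) (𝓝 (f x))

end Stm

end Pool.Agent.R257.SP
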