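import Pool.Agent.R257.SP.Stm

/-!
Piece TH: the thin shell estimate, from the local Plancherel inequality and the volume bound.
-/

namespace Pool.Agent.R257.SP

open MeasureTheory Set Metric
open scoped ENNReal NNReal FourierTransform SchwartzMap RealInnerProductSpace

namespace THaux

theorem cs {X : Type} [MeasurableSpace X] {μ : Measure X} {f : X → ℝ≥0∞} (hf : AEMeasurable f μ) :
    (∫⁻ x, f x ∂μ) ^ 2 ≤ μ univ * ∫⁻ x, f x ^ 2 ∂μ := by
  have h := ENNReal.lintegral_mul_le_Lp_mul_Lq μ (Real.HolderConjugate.two_two) hf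
    (aemeasurable_const (b := (1 : ℝ≥0∞)))
  simp only [Pi.mul_apply, mul_one, ENNReal.one_rpow, lintegral_const, one_mul] at h
  calc (∫⁻ x, f x ∂μ) ^ 2 ≤ ((∫⁻ a, f a ^ (2 : ℝ) ∂μ) ^ ((1 : ℝ) / 2) * (μ univ) ^ ((1 : ℝ) / 2)) ^ 2 :=
        pow_le_pow_left' h 2
    _ = μ univ * ∫⁻ x, f x ^ 2 ∂μ := by
        rw [mul_pow, ← ENNReal.rpow_natCast, ← ENNReal.rpow_natCast, ← ENNReal.rpow_mul,
          ← ENNReal.rpow_mul]
        norm_num
        rw [mul_comm]

theorem measurableSet_shell (n : ℕ) (a b : ℝ) : MeasurableSet (shell n a b) := by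
  unfold shell
  exact (measurableSet_lt measurable_const measurable_norm).inter
    (measurableSet_le measurable_norm measurable_const)

theorem part_eq {n : ℕ} (g : V n → ℂ) {A : Set (V n)} (hA : MeasurableSet A) (x : V n) :
    part g A x = ∫ ξ, A.indicator g ξ * ch x ξ := by
  unfold part
  rw [← integral_indicator hA]
  congr 1
  ext ξ
  by_cases h : ξ ∈ A
  · rw [indicator_of_mem h, indicator_of_mem h]
  · rw [indicator_of_notMem h, indicator_of_notMem h, zero_mul]

theorem tonelli {n : ℕ} (F : V n → ℝ≥0∞) (hF : AEMeasurable F) (δ : ℝ) :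
    ∫⁻ ξ : V n, ∫⁻ η in closedBall ξ δ, F η = volume (closedBall (0 : V n) δ) * ∫⁻ η, F η := by
  have h1 : ∀ ξ : V n, ∫⁻ η in closedBall ξ δ, F η =
      ∫⁻ η, (closedBall (0 : V n) δ).indicator 1 (η - ξ) * F η := by
    intro ξ
    rw [← lintegral_indicator measurableSet_closedBall]
    refine lintegral_congr (fun η => ?_)
    by_cases h : η ∈ closedBall ξ δ
    · have h' : η - ξ ∈ closedBall (0 : V n) δ := by
        rw [mem_closedBall_zero_iff, ← dist_eq_norm]
        exact h
      rw [indicator_of_mem h, indicator_of_mem h', Pi.one_apply, one_mul]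
    · have h' : η - ξ ∉ closedBall (0 : V n) δ := by
        rw [mem_closedBall_zero_iff, ← dist_eq_norm]
        exact h
      rw [indicator_of_notMem h, indicator_of_notMem h', zero_mul]
  simp only [h1]
  have hm : Measurable (fun z : V n => (closedBall (0 : V n) δ).indicator (1 : V n → ℝ≥0∞) z) :=
    measurable_one.indicator measurableSet_closedBall
  rw [lintegral_lintegral_swap]
  · have h2 : ∀ η : V n, ∫⁻ ξ, (closedBall (0 : V n) δ).indicator 1 (η - ξ) * F η =
        volume (closedBall (0 : V n) δ) * F η := by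
      intro η
      rw [lintegral_mul_const _ (by fun_prop)]
      congr 1
      have h3 := lintegral_sub_left_eq_self (μ := (volume : Measure (V n)))
        (fun z => (closedBall (0 : V n) δ).indicator (1 : V n → ℝ≥0∞) z) η
      rw [h3, lintegral_indicator_one measurableSet_closedBall]
    simp only [h2]
    rw [lintegral_const_mul'' _ hF]
  · apply AEMeasurable.mul
    · exact (hm.comp (measurable_snd.sub measurable_fst)).aemeasurable
    · exact hF.comp_snd

end THaux

open THaux in
theorem TH_proof (hLP : Stm.LP) (hSV : Stm.SV) : Stm.TH := by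
  intro n hn
  obtain ⟨C₁, h₁⟩ := hLP n
  obtain ⟨C₂, h₂⟩ := hSV n hn
  have hB : volume (closedBall (0 : V n) (1 / 8)) ≠ ∞ := measure_closedBall_lt_top.ne
  refine ⟨C₁ * C₂ * (volume (closedBall (0 : V n) (1 / 8))).toNNReal, ?_⟩
  intro g hg hg2 a b ha hab hb y
  set A := shell n a b with hA
  have hAm : MeasurableSet A := measurableSet_shell n a b
  have hgi : Integrable (A.indicator g) := hg.indicator hAm
  have hgm : MemLp (A.indicator g) 2 := hg2.indicator hAm
  simp only [part_eq g hAm]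
  refine le_trans (h₁ (A.indicator g) hgi hgm y) ?_
  have hF : AEMeasurable (fun η => ‖A.indicator g η‖ₑ ^ 2) :=
    (hgi.aestronglyMeasurable.enorm).pow_const 2
  have hcs : ∀ ξ : V n, (∫⁻ η in closedBall ξ (1 / 8), ‖A.indicator g η‖ₑ) ^ 2 ≤
      (C₂ * ENNReal.ofReal (b - a)) * ∫⁻ η in closedBall ξ (1 / 8), ‖A.indicator g η‖ₑ ^ 2 := by
    intro ξ
    have e1 : ∫⁻ η in closedBall ξ (1 / 8), ‖A.indicator g η‖ₑ =
        ∫⁻ η in closedBall ξ (1 / 8) ∩ A, ‖g η‖ₑ := by
      rw [← lintegral_indicator measurableSet_closedBall,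
        ← lintegral_indicator (measurableSet_closedBall.inter hAm)]
      refine lintegral_congr (fun η => ?_)
      by_cases h : η ∈ closedBall ξ (1 / 8) <;> by_cases h' : η ∈ A <;>
        simp [indicator, h, h']
    have e2 : ∫⁻ η in closedBall ξ (1 / 8), ‖A.indicator g η‖ₑ ^ 2 =
        ∫⁻ η in closedBall ξ (1 / 8) ∩ A, ‖g η‖ₑ ^ 2 := by
      rw [← lintegral_indicator measurableSet_closedBall,
        ← lintegral_indicator (measurableSet_closedBall.inter hAm)]
      refine lintegral_congr (fun η => ?_)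
      by_cases h : η ∈ closedBall ξ (1 / 8) <;> by_cases h' : η ∈ A <;>
        simp [indicator, h, h']
    rw [e1, e2]
    have h3 := cs (μ := volume.restrict (closedBall ξ (1 / 8) ∩ A)) (f := fun η => ‖g η‖ₑ)
      hg.aestronglyMeasurable.enorm.restrict
    refine le_trans h3 ?_
    rw [Measure.restrict_apply_univ]
    gcongr
    exact h₂ ξ a b ha hab hb
  calc (C₁ : ℝ≥0∞) * ∫⁻ ξ : V n, (∫⁻ η in closedBall ξ (1 / 8), ‖A.indicator g η‖ₑ) ^ 2
      ≤ C₁ * ∫⁻ ξ : V n, (C₂ * ENNReal.ofReal (b - a)) *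
          ∫⁻ η in closedBall ξ (1 / 8), ‖A.indicator g η‖ₑ ^ 2 := by
        gcongr with ξ
        exact hcs ξ
    _ = C₁ * ((C₂ * ENNReal.ofReal (b - a)) *
          ∫⁻ ξ : V n, ∫⁻ η in closedBall ξ (1 / 8), ‖A.indicator g η‖ₑ ^ 2) := by
        rw [lintegral_const_mul' _ _ (ENNReal.mul_ne_top ENNReal.coe_ne_top ENNReal.ofReal_ne_top)]
    _ = C₁ * ((C₂ * ENNReal.ofReal (b - a)) *
          (volume (closedBall (0 : V n) (1 / 8)) * ∫⁻ η, ‖A.indicator g η‖ₑ ^ 2)) := by
        rw [tonelli _ hF]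
    _ = ((C₁ * C₂ * (volume (closedBall (0 : V n) (1 / 8))).toNNReal : ℝ≥0) : ℝ≥0∞) *
          ENNReal.ofReal (b - a) * nsq g A := by
        have e3 : ∫⁻ η, ‖A.indicator g η‖ₑ ^ 2 = nsq g A := by
          unfold nsq
          rw [← lintegral_indicator hAm]
          refine lintegral_congr (fun η => ?_)
          by_cases h' : η ∈ A <;> simp [indicator, h']
        rw [e3]
        push_cast
        rw [ENNReal.coe_toNNReal hB]
        ring

end Pool.Agent.R257.SP
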