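import Pool.Agent.R257.SP.Stm
import Pool.Agent.H153R4.Pl

namespace Pool.Agent.R257.SP

open MeasureTheory Set Metric Filter Topology
open scoped ENNReal NNReal FourierTransform SchwartzMap RealInnerProductSpace

variable {n : ℕ}

lemma norm_ch (x ξ : V n) : ‖ch x ξ‖ = 1 := by
  unfold ch
  exact Complex.norm_exp_ofReal_mul_I _

lemma cont_ch : Continuous fun p : V n × V n => ch p.1 p.2 := by
  unfold ch
  fun_prop

lemma shell_meas (a b : ℝ) : MeasurableSet (shell n a b) := by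
  unfold shell
  exact (measurableSet_lt measurable_const measurable_norm).inter
    (measurableSet_le measurable_norm measurable_const)

lemma int_ch {g : V n → ℂ} (hg : Integrable g) (A : Set (V n)) (x : V n) :
    IntegrableOn (fun ξ => g ξ * ch x ξ) A := by
  refine Integrable.integrableOn ?_
  refine hg.mul_bdd (c := 1) ?_ (Filter.Eventually.of_forall fun ξ => (norm_ch x ξ).le)
  exact (cont_ch.comp (by fun_prop : Continuous fun ξ : V n => (x, ξ))).aestronglyMeasurable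

lemma part_cont {g : V n → ℂ} (hg : Integrable g) (A : Set (V n)) :
    Continuous (part g A) := by
  unfold part
  refine continuous_of_dominated (F := fun x ξ => g ξ * ch x ξ) (bound := fun ξ => ‖g ξ‖) ?_ ?_ ?_ ?_
  · intro x
    exact (int_ch hg A x).aestronglyMeasurable
  · intro x
    exact Filter.Eventually.of_forall fun ξ => by rw [norm_mul, norm_ch, mul_one]
  · exact hg.norm.integrableOn
  · exact Filter.Eventually.of_forall fun ξ =>
      continuous_const.mul (cont_ch.comp (by fun_prop : Continuous fun x : V n => (x, ξ)))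

lemma part_union {g : V n → ℂ} (hg : Integrable g) {A B : Set (V n)} (hB : MeasurableSet B)
    (hd : Disjoint A B) (x : V n) : part g (A ∪ B) x = part g A x + part g B x := by
  unfold part
  exact setIntegral_union hd hB (int_ch hg A x) (int_ch hg B x)

lemma part_shell_add {g : V n → ℂ} (hg : Integrable g) {a b c : ℝ} (hab : a ≤ b) (hbc : b ≤ c)
    (x : V n) : part g (shell n a c) x = part g (shell n a b) x + part g (shell n b c) x := by
  rw [← part_union hg (shell_meas b c)]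
  · congr 1
    ext ξ
    simp only [shell, mem_ofPred_eq, mem_union]
    constructor
    · intro h
      rcases le_or_gt ‖ξ‖ b with h1 | h1
      · exact Or.inl ⟨h.1, h1⟩
      · exact Or.inr ⟨h1, h.2⟩
    · rintro (h | h)
      · exact ⟨h.1, h.2.trans hbc⟩
      · exact ⟨hab.trans_lt h.1, h.2⟩
  · rw [Set.disjoint_left]
    intro ξ h1 h2
    exact absurd h2.1 (not_lt.2 h1.2)

lemma part_ball_add {g : V n → ℂ} (hg : Integrable g) {a b : ℝ} (hab : a ≤ b)
    (x : V n) : part g (closedBall 0 b) x = part g (closedBall 0 a) x + part g (shell n a b) x := by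
  rw [← part_union hg (shell_meas a b)]
  · congr 1
    ext ξ
    simp only [shell, mem_ofPred_eq, mem_union, mem_closedBall, dist_zero_right]
    constructor
    · intro h
      rcases le_or_gt ‖ξ‖ a with h1 | h1
      · exact Or.inl h1
      · exact Or.inr ⟨h1, h⟩
    · rintro (h | h)
      · exact h.trans hab
      · exact h.2
  · rw [Set.disjoint_left]
    intro ξ h1 h2
    rw [mem_closedBall, dist_zero_right] at h1
    exact absurd h2.1 (not_lt.2 h1)

lemma part_ball_zero (hn : 0 < n) (g : V n → ℂ) (x : V n) : part g (closedBall 0 0) x = 0 := by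
  unfold part
  rw [closedBall_zero]
  have : Nonempty (Fin n) := ⟨⟨0, hn⟩⟩
  have : Nontrivial (V n) := inferInstance
  rw [Measure.restrict_singleton]
  simp

lemma enorm_add3_sq (a b c : ℂ) :
    ‖a + b + c‖ₑ ^ 2 ≤ 3 * (‖a‖ₑ ^ 2 + ‖b‖ₑ ^ 2 + ‖c‖ₑ ^ 2) := by
  have h1 : ‖a + b + c‖ ^ 2 ≤ 3 * (‖a‖ ^ 2 + ‖b‖ ^ 2 + ‖c‖ ^ 2) := by
    have h2 : ‖a + b + c‖ ≤ ‖a‖ + ‖b‖ + ‖c‖ := norm_add₃_le
    nlinarith [sq_nonneg (‖a‖ - ‖b‖), sq_nonneg (‖b‖ - ‖c‖), sq_nonneg (‖a‖ - ‖c‖), norm_nonneg (a + b + c),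
      norm_nonneg a, norm_nonneg b, norm_nonneg c]
  have h3 := ENNReal.ofReal_le_ofReal h1
  rw [ENNReal.ofReal_mul (by norm_num), ENNReal.ofReal_add (by positivity) (by positivity),
    ENNReal.ofReal_add (by positivity) (by positivity)] at h3
  simp only [ENNReal.ofReal_pow (norm_nonneg _), ofReal_norm] at h3
  simpa using h3

lemma sum_nsq_le (g : V n → ℂ) (t : ℕ → ℝ) (ht : Monotone t) :
    ∑' j : ℕ, nsq g (shell n (t j) (t (j + 1))) ≤ ∫⁻ ξ, ‖g ξ‖ₑ ^ 2 := by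
  unfold nsq
  rw [← lintegral_iUnion (fun j => shell_meas _ _)]
  · exact setLIntegral_le_lintegral _ _
  · have key : ∀ i j : ℕ, i < j →
        Disjoint (shell n (t i) (t (i + 1))) (shell n (t j) (t (j + 1))) := by
      intro i j hij
      rw [Set.disjoint_left]
      intro ξ h1 h2
      have h3 : t (i + 1) ≤ t j := ht hij
      exact absurd h2.1 (not_lt.2 (h1.2.trans h3))
    intro i j hij
    rcases lt_or_gt_of_ne hij with h | h
    · exact key i j h
    · exact (key j i h).symm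

theorem UNIT_proof (hLAC : Stm.LAC) (hBLK : Stm.BLK) (hCORE : Stm.CORE) : Stm.UNIT := by
  intro n hn
  obtain ⟨C1, hC1⟩ := hLAC n hn
  obtain ⟨C2, hC2⟩ := hCORE n hn
  refine ⟨3 * (C1 + 4 + C2), ?_⟩
  intro N hN E hE hcell f y
  set g : V n → ℂ := 𝓕 (f : V n → ℂ) with hgdef
  have hgc : ⇑(𝓕 f : 𝓢(V n, ℂ)) = g := SchwartzMap.fourier_coe f
  have hg1 : Integrable g := by rw [← hgc]; exact (𝓕 f : 𝓢(V n, ℂ)).integrable
  have hg2 : MemLp g 2 := by rw [← hgc]; exact (𝓕 f : 𝓢(V n, ℂ)).memLp 2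
  have hPl : ∫⁻ ξ, ‖g ξ‖ₑ ^ 2 = ∫⁻ x, ‖f x‖ₑ ^ 2 :=
    Pool.Agent.H153R4.plancherel f f.integrable (f.memLp 2)
  have hfin : ∀ j, (cells E 1 j).Finite := fun j =>
    Set.finite_of_encard_le_coe (hcell j)
  set K : ℕ → Finset ℕ := fun j => (hfin j).toFinset with hK
  have hKc : ∀ j, (K j).card ≤ N := by
    intro j
    have h := hcell j
    rw [(hfin j).encard_eq_coe_toFinset_card] at h
    exact_mod_cast h
  have hKb : ∀ j, ∀ k ∈ K j, 2 ^ j ≤ k ∧ k ≤ 2 ^ (j + 1) := by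
    intro j k hk
    rw [hK, Set.Finite.mem_toFinset] at hk
    obtain ⟨R, hR, h1, h2, rfl⟩ := hk
    have h0 : (0 : ℝ) ≤ 1 * R := le_trans (by positivity) h1
    constructor
    · apply Nat.le_floor
      push_cast
      exact h1
    · have h3 : ((⌊1 * R⌋₊ : ℕ) : ℝ) < 2 ^ (j + 1) := (Nat.floor_le h0).trans_lt h2
      exact_mod_cast h3.le
  -- the three majorants
  set A : V n → ℝ≥0∞ := fun x => ⨆ j : ℤ, ‖part g (closedBall 0 ((2 : ℝ) ^ j)) x‖ₑ with hA
  set B : ℕ → V n → ℝ≥0∞ := fun j x =>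
    ⨆ k ∈ K j, ‖part g (shell n ((2 ^ j : ℕ) : ℝ) k) x‖ₑ with hB
  set D : ℕ → V n → ℝ≥0∞ := fun k x =>
    ⨆ R ∈ Icc (k : ℝ) (k + 1), ‖part g (shell n k R) x‖ₑ with hD
  have hpc : ∀ S : Set (V n), Continuous fun x => ‖part g S x‖ₑ := fun S =>
    continuous_enorm.comp (part_cont hg1 S)
  have hAm : Measurable A := by
    rw [hA]
    exact Measurable.iSup fun j => (hpc _).measurable
  have hBm : ∀ j, Measurable (B j) := by
    intro j
    rw [hB]
    exact (lowerSemicontinuous_biSup fun k _ => (hpc _).lowerSemicontinuous).measurable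
  have hDm : ∀ j, Measurable (D j) := by
    intro j
    rw [hD]
    exact (lowerSemicontinuous_biSup fun k _ => (hpc _).lowerSemicontinuous).measurable
  -- pointwise bound
  have hpt : ∀ x, (⨆ R ∈ E, ‖ballSum f R x‖ₑ) ^ 2 ≤
      3 * (A x ^ 2 + ∑' j, B j x ^ 2 + ∑' k, D k x ^ 2) := by
    intro x
    set M := 3 * (A x ^ 2 + ∑' j, B j x ^ 2 + ∑' k, D k x ^ 2) with hM
    have h1 : ∀ R ∈ E, ‖ballSum f R x‖ₑ ^ 2 ≤ M := by
      intro R hR
      have hR0 : 0 < R := hE hR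
      have e0 : ballSum f R x = part g (closedBall 0 R) x := rfl
      rcases lt_or_ge R 1 with hR1 | hR1
      · have e1 : ballSum f R x = part g (shell n ((0 : ℕ) : ℝ) R) x := by
          rw [e0, part_ball_add hg1 hR0.le, part_ball_zero hn, zero_add, Nat.cast_zero]
        have h2 : ‖ballSum f R x‖ₑ ≤ D 0 x := by
          rw [e1, hD]
          refine le_iSup₂_of_le R ?_ le_rfl
          constructor
          · simpa using hR0.le
          · simpa using hR1.le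
        calc ‖ballSum f R x‖ₑ ^ 2 ≤ D 0 x ^ 2 := by gcongr
          _ ≤ ∑' k, D k x ^ 2 := ENNReal.le_tsum 0
          _ ≤ A x ^ 2 + ∑' j, B j x ^ 2 + ∑' k, D k x ^ 2 := le_add_self
          _ ≤ M := by
            rw [hM]
            exact le_mul_of_one_le_left (by positivity) (by norm_num)
      · set k := ⌊R⌋₊ with hk
        set j := Nat.log 2 k with hj
        have hk1 : 1 ≤ k := Nat.le_floor (by simpa using hR1)
        have hkR : (k : ℝ) ≤ R := Nat.floor_le hR0.le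
        have hRk : R < k + 1 := Nat.lt_floor_add_one R
        have hj1 : 2 ^ j ≤ k := Nat.pow_log_le_self 2 (by omega)
        have hj2 : k < 2 ^ (j + 1) := Nat.lt_pow_succ_log_self (by norm_num) k
        have hj1' : ((2 ^ j : ℕ) : ℝ) ≤ k := by exact_mod_cast hj1
        have hkc : k ∈ K j := by
          rw [hK, Set.Finite.mem_toFinset]
          refine ⟨R, hR, ?_, ?_, ?_⟩
          · rw [one_mul]
            refine le_trans ?_ hkR
            exact_mod_cast hj1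
          · rw [one_mul]
            have h3 : ((k : ℝ)) + 1 ≤ 2 ^ (j + 1) := by exact_mod_cast hj2
            linarith
          · rw [one_mul]
        have e1 : ballSum f R x = part g (closedBall 0 ((2 : ℝ) ^ (j : ℤ))) x +
            part g (shell n ((2 ^ j : ℕ) : ℝ) k) x + part g (shell n k R) x := by
          have e2 : ((2 : ℝ) ^ (j : ℤ)) = ((2 ^ j : ℕ) : ℝ) := by push_cast; rw [zpow_natCast]
          rw [e0, part_ball_add hg1 hkR, part_ball_add hg1 hj1', e2]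
        have a1 : ‖part g (closedBall 0 ((2 : ℝ) ^ (j : ℤ))) x‖ₑ ≤ A x := by
          rw [hA]
          exact le_iSup (fun j : ℤ => ‖part g (closedBall 0 ((2 : ℝ) ^ j)) x‖ₑ) (j : ℤ)
        have a2 : ‖part g (shell n ((2 ^ j : ℕ) : ℝ) k) x‖ₑ ≤ B j x := by
          rw [hB]
          exact le_iSup₂_of_le k hkc le_rfl
        have a3 : ‖part g (shell n k R) x‖ₑ ≤ D k x := by
          rw [hD]
          exact le_iSup₂_of_le R ⟨hkR, hRk.le⟩ le_rfl
        calc ‖ballSum f R x‖ₑ ^ 2 ≤ 3 * (‖part g (closedBall 0 ((2 : ℝ) ^ (j : ℤ))) x‖ₑ ^ 2 +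
              ‖part g (shell n ((2 ^ j : ℕ) : ℝ) k) x‖ₑ ^ 2 + ‖part g (shell n k R) x‖ₑ ^ 2) := by
              rw [e1]; exact enorm_add3_sq _ _ _
          _ ≤ 3 * (A x ^ 2 + B j x ^ 2 + D k x ^ 2) := by gcongr
          _ ≤ M := by
            rw [hM]
            gcongr
            · exact ENNReal.le_tsum j
            · exact ENNReal.le_tsum k
    have h2 : (⨆ R ∈ E, ‖ballSum f R x‖ₑ) ≤ M ^ (1 / 2 : ℝ) := by
      refine iSup₂_le fun R hR => ?_
      have h3 := h1 R hR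
      have h4 : (1 / 2 : ℝ) = (2 : ℝ)⁻¹ := by norm_num
      rw [h4, ENNReal.le_rpow_inv_iff (by norm_num : (0 : ℝ) < 2)]
      exact_mod_cast h3
    calc (⨆ R ∈ E, ‖ballSum f R x‖ₑ) ^ 2 ≤ (M ^ (1 / 2 : ℝ)) ^ 2 := by gcongr
      _ = M := by
        rw [← ENNReal.rpow_natCast, ← ENNReal.rpow_mul]
        norm_num
  -- integrate
  have hA2 : ∫⁻ x, A x ^ 2 ≤ C1 * ∫⁻ x, ‖f x‖ₑ ^ 2 := hC1 f
  have hB2 : ∫⁻ x in ball y 1, ∑' j, B j x ^ 2 ≤
      (Nat.clog 2 N + 2 : ℕ) ^ 2 * ∫⁻ x, ‖f x‖ₑ ^ 2 := by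
    rw [lintegral_tsum (fun j => ((hBm j).pow_const 2).aemeasurable)]
    calc ∑' j, ∫⁻ x in ball y 1, B j x ^ 2
        ≤ ∑' j, ((Nat.clog 2 N + 2 : ℕ) : ℝ≥0∞) ^ 2 *
          nsq g (shell n ((2 ^ j : ℕ) : ℝ) ((2 ^ (j + 1) : ℕ) : ℝ)) := by
          refine ENNReal.tsum_le_tsum fun j => ?_
          refine (hBLK n hn g hg1 hg2 (2 ^ j) (2 ^ (j + 1)) (K j) (hKb j) y).trans ?_
          gcongr
          exact hKc j
      _ = ((Nat.clog 2 N + 2 : ℕ) : ℝ≥0∞) ^ 2 *
          ∑' j, nsq g (shell n ((2 ^ j : ℕ) : ℝ) ((2 ^ (j + 1) : ℕ) : ℝ)) := ENNReal.tsum_mul_left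
      _ ≤ _ := by
        rw [← hPl]
        gcongr
        refine sum_nsq_le g (fun j => ((2 ^ j : ℕ) : ℝ)) ?_
        intro i j hij
        have h5 : 2 ^ i ≤ 2 ^ j := Nat.pow_le_pow_right (by norm_num) hij
        show ((2 ^ i : ℕ) : ℝ) ≤ ((2 ^ j : ℕ) : ℝ)
        exact_mod_cast h5
  have hD2 : ∫⁻ x in ball y 1, ∑' k, D k x ^ 2 ≤ C2 * ∫⁻ x, ‖f x‖ₑ ^ 2 := by
    rw [lintegral_tsum (fun j => ((hDm j).pow_const 2).aemeasurable)]
    calc ∑' k, ∫⁻ x in ball y 1, D k x ^ 2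
        ≤ ∑' k : ℕ, (C2 : ℝ≥0∞) * nsq g (shell n (k : ℝ) ((k : ℝ) + 1)) := by
          refine ENNReal.tsum_le_tsum fun k => ?_
          exact hC2 g hg1 hg2 k (Nat.cast_nonneg k) y
      _ = (C2 : ℝ≥0∞) * ∑' k : ℕ, nsq g (shell n (k : ℝ) ((k : ℝ) + 1)) := ENNReal.tsum_mul_left
      _ ≤ _ := by
        rw [← hPl]
        gcongr
        have h := sum_nsq_le g (fun j => (j : ℝ)) Nat.mono_cast
        simpa using h
  calc ∫⁻ x in ball y 1, (⨆ R ∈ E, ‖ballSum f R x‖ₑ) ^ 2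
      ≤ ∫⁻ x in ball y 1, 3 * (A x ^ 2 + ∑' j, B j x ^ 2 + ∑' k, D k x ^ 2) :=
        lintegral_mono fun x => hpt x
    _ = 3 * ((∫⁻ x in ball y 1, A x ^ 2) + (∫⁻ x in ball y 1, ∑' j, B j x ^ 2) +
          (∫⁻ x in ball y 1, ∑' k, D k x ^ 2)) := by
        have m1 : Measurable fun x => A x ^ 2 := hAm.pow_const 2
        have m2 : Measurable fun x => ∑' j, B j x ^ 2 :=
          Measurable.tsum fun j => (hBm j).pow_const 2
        have m3 : Measurable fun x => ∑' j, D j x ^ 2 :=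
          Measurable.tsum fun j => (hDm j).pow_const 2
        have m12 : Measurable fun x => A x ^ 2 + ∑' j, B j x ^ 2 := m1.add m2
        have m123 : Measurable fun x => A x ^ 2 + ∑' j, B j x ^ 2 + ∑' j, D j x ^ 2 := m12.add m3
        rw [lintegral_const_mul _ m123, lintegral_add_left m12, lintegral_add_left m1]
    _ ≤ 3 * (C1 * (∫⁻ x, ‖f x‖ₑ ^ 2) + (Nat.clog 2 N + 2 : ℕ) ^ 2 * (∫⁻ x, ‖f x‖ₑ ^ 2) +
          C2 * (∫⁻ x, ‖f x‖ₑ ^ 2)) := by
        have hA3 := (setLIntegral_le_lintegral (ball y 1) (fun x => A x ^ 2)).trans hA2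
        exact mul_le_mul' le_rfl (add_le_add (add_le_add hA3 hB2) hD2)
    _ = 3 * (C1 + (Nat.clog 2 N + 2 : ℕ) ^ 2 + C2) * ∫⁻ x, ‖f x‖ₑ ^ 2 := by ring
    _ ≤ _ := by
        refine mul_le_mul' ?_ le_rfl
        set m := Nat.clog 2 N
        have h1 : ((m + 2 : ℕ) : ℝ≥0∞) ≤ 2 * ((m + 1 : ℕ) : ℝ≥0∞) := by
          norm_cast; omega
        have h2 : (1 : ℝ≥0∞) ≤ ((m + 1 : ℕ) : ℝ≥0∞) ^ 2 := by
          norm_cast; exact Nat.one_le_pow _ _ (by omega)
        calc 3 * ((C1 : ℝ≥0∞) + ((m + 2 : ℕ) : ℝ≥0∞) ^ 2 + C2)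
            ≤ 3 * ((C1 : ℝ≥0∞) * ((m + 1 : ℕ) : ℝ≥0∞) ^ 2 + (2 * ((m + 1 : ℕ) : ℝ≥0∞)) ^ 2 +
              C2 * ((m + 1 : ℕ) : ℝ≥0∞) ^ 2) := by
              gcongr
              · exact le_mul_of_one_le_right (by positivity) h2
              · exact le_mul_of_one_le_right (by positivity) h2
          _ = 3 * ((C1 : ℝ≥0∞) + 4 + C2) * ((m + 1 : ℕ) : ℝ≥0∞) ^ 2 := by ring
          _ = _ := by push_cast; ring

end Pool.Agent.R257.SP
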