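import Pool.Agent.R257.SP.UNIT
import Pool.Agent.R257.SP.DIL
import Pool.Agent.R257.SP.FIN

namespace Pool.Agent.R257.SP

open MeasureTheory Set Metric Filter Topology
open scoped ENNReal NNReal FourierTransform SchwartzMap RealInnerProductSpace

variable {n : ℕ}

lemma exists_nat_pow_near' {t : ℝ} (h : 1 < t) {b : ℝ} (hb : 1 < b) :
    ∃ j : ℕ, b ^ j < t ∧ t ≤ b ^ (j + 1) := by
  obtain ⟨m, hm⟩ := exists_mem_Ioc_zpow (by linarith : (0:ℝ) < t) hb
  have h1 : 0 ≤ m := by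
    by_contra hcon
    push Not at hcon
    have h2 : b ^ (m + 1) ≤ b ^ (0 : ℤ) := zpow_le_zpow_right₀ hb.le (by omega)
    rw [zpow_zero] at h2
    linarith [hm.2]
  obtain ⟨j, rfl⟩ := Int.eq_ofNat_of_zero_le h1
  refine ⟨j, ?_, ?_⟩
  · have := hm.1; simpa using this
  · have := hm.2
    rw [← zpow_natCast]; push_cast; exact this

/-- the theorem at unit scale with the weights given by the number of cells of each block -/
theorem unit_weighted (hLAC : Stm.LAC) (hBLK : Stm.BLK) (hCORE : Stm.CORE) (n : ℕ) (hn : 0 < n) :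
    ∃ C : ℝ≥0, ∀ (N : ℕ → ℕ) (E : Set ℝ), E ⊆ Ioi 0 →
    (∀ j : ℕ, (cells E 1 j).encard ≤ N j) → ∀ (f : 𝓢(V n, ℂ)) (y : V n),
    ∫⁻ x in ball y 1, (⨆ R ∈ E, ‖ballSum f R x‖ₑ) ^ 2 ≤
      C * (nsq (𝓕 (f : V n → ℂ)) (closedBall 0 1) + ∑' j : ℕ, ((Nat.clog 2 (N j) + 1 : ℕ) : ℝ≥0∞) ^ 2 *
        nsq (𝓕 (f : V n → ℂ)) (shell n (2 ^ j) (2 ^ (j + 1)))) := by
  obtain ⟨C1, hC1⟩ := hLAC n hn
  obtain ⟨C2, hC2⟩ := hCORE n hn
  refine ⟨3 * (C1 + 4 + C2), ?_⟩
  intro N E hE hcell f y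
  set g : V n → ℂ := 𝓕 (f : V n → ℂ) with hgdef
  have hgc : ⇑(𝓕 f : 𝓢(V n, ℂ)) = g := SchwartzMap.fourier_coe f
  have hg1 : Integrable g := by rw [← hgc]; exact (𝓕 f : 𝓢(V n, ℂ)).integrable
  have hg2 : MemLp g 2 := by rw [← hgc]; exact (𝓕 f : 𝓢(V n, ℂ)).memLp 2
  have hPl : ∫⁻ ξ, ‖g ξ‖ₑ ^ 2 = ∫⁻ x, ‖f x‖ₑ ^ 2 :=
    Pool.Agent.H153R4.plancherel f f.integrable (f.memLp 2)
  have hfin : ∀ j, (cells E 1 j).Finite := fun j =>
    Set.finite_of_encard_le_coe (hcell j)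
  set K : ℕ → Finset ℕ := fun j => (hfin j).toFinset with hK
  have hKc : ∀ j, (K j).card ≤ N j := by
    intro j
    have h := hcell j
    rw [(hfin j).encard_eq_coe_toFinset_card] at h
    exact_mod_cast h
  have hKb : ∀ j, ∀ k ∈ K j, 2 ^ j ≤ k ∧ k ≤ 2 ^ (j + 1) := by
    intro j k hk
    rw [hK, Set.Finite.mem_toFinset] at hk
    obtain ⟨R, hR, h1, h2, rfl⟩ := hk
    have h0 : (0 : ℝ) ≤ 1 * R := le_trans (by positivity) h1
    constructor
    · apply Nat.le_floor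
      push_cast
      exact h1
    · have h3 : ((⌊1 * R⌋₊ : ℕ) : ℝ) < 2 ^ (j + 1) := (Nat.floor_le h0).trans_lt h2
      exact_mod_cast h3.le
  -- the three majorants
  set A : V n → ℝ≥0∞ := fun x => ⨆ j : ℤ, ‖part g (closedBall 0 ((2 : ℝ) ^ j)) x‖ₑ with hA
  set B : ℕ → V n → ℝ≥0∞ := fun j x =>
    ⨆ k ∈ K j, ‖part g (shell n ((2 ^ j : ℕ) : ℝ) k) x‖ₑ with hB
  set D : ℕ → V n → ℝ≥0∞ := fun k x =>
    ⨆ R ∈ Icc (k : ℝ) (k + 1), ‖part g (shell n k R) x‖ₑ with hD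
  have hpc : ∀ S : Set (V n), Continuous fun x => ‖part g S x‖ₑ := fun S =>
    continuous_enorm.comp (part_cont hg1 S)
  have hAm : Measurable A := by
    rw [hA]
    exact Measurable.iSup fun j => (hpc _).measurable
  have hBm : ∀ j, Measurable (B j) := by
    intro j
    rw [hB]
    exact (lowerSemicontinuous_biSup fun k _ => (hpc _).lowerSemicontinuous).measurable
  have hDm : ∀ j, Measurable (D j) := by
    intro j
    rw [hD]
    exact (lowerSemicontinuous_biSup fun k _ => (hpc _).lowerSemicontinuous).measurable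
  -- pointwise bound
  have hpt : ∀ x, (⨆ R ∈ E, ‖ballSum f R x‖ₑ) ^ 2 ≤
      3 * (A x ^ 2 + ∑' j, B j x ^ 2 + ∑' k, D k x ^ 2) := by
    intro x
    set M := 3 * (A x ^ 2 + ∑' j, B j x ^ 2 + ∑' k, D k x ^ 2) with hM
    have h1 : ∀ R ∈ E, ‖ballSum f R x‖ₑ ^ 2 ≤ M := by
      intro R hR
      have hR0 : 0 < R := hE hR
      have e0 : ballSum f R x = part g (closedBall 0 R) x := rfl
      rcases lt_or_ge R 1 with hR1 | hR1
      · have e1 : ballSum f R x = part g (shell n ((0 : ℕ) : ℝ) R) x := by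
          rw [e0, part_ball_add hg1 hR0.le, part_ball_zero hn, zero_add, Nat.cast_zero]
        have h2 : ‖ballSum f R x‖ₑ ≤ D 0 x := by
          rw [e1, hD]
          refine le_iSup₂_of_le R ?_ le_rfl
          constructor
          · simpa using hR0.le
          · simpa using hR1.le
        calc ‖ballSum f R x‖ₑ ^ 2 ≤ D 0 x ^ 2 := by gcongr
          _ ≤ ∑' k, D k x ^ 2 := ENNReal.le_tsum 0
          _ ≤ A x ^ 2 + ∑' j, B j x ^ 2 + ∑' k, D k x ^ 2 := le_add_self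
          _ ≤ M := by
            rw [hM]
            exact le_mul_of_one_le_left (by positivity) (by norm_num)
      · set k := ⌊R⌋₊ with hk
        set j := Nat.log 2 k with hj
        have hk1 : 1 ≤ k := Nat.le_floor (by simpa using hR1)
        have hkR : (k : ℝ) ≤ R := Nat.floor_le hR0.le
        have hRk : R < k + 1 := Nat.lt_floor_add_one R
        have hj1 : 2 ^ j ≤ k := Nat.pow_log_le_self 2 (by omega)
        have hj2 : k < 2 ^ (j + 1) := Nat.lt_pow_succ_log_self (by norm_num) k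
        have hj1' : ((2 ^ j : ℕ) : ℝ) ≤ k := by exact_mod_cast hj1
        have hkc : k ∈ K j := by
          rw [hK, Set.Finite.mem_toFinset]
          refine ⟨R, hR, ?_, ?_, ?_⟩
          · rw [one_mul]
            refine le_trans ?_ hkR
            exact_mod_cast hj1
          · rw [one_mul]
            have h3 : ((k : ℝ)) + 1 ≤ 2 ^ (j + 1) := by exact_mod_cast hj2
            linarith
          · rw [one_mul]
        have e1 : ballSum f R x = part g (closedBall 0 ((2 : ℝ) ^ (j : ℤ))) x +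
            part g (shell n ((2 ^ j : ℕ) : ℝ) k) x + part g (shell n k R) x := by
          have e2 : ((2 : ℝ) ^ (j : ℤ)) = ((2 ^ j : ℕ) : ℝ) := by push_cast; rw [zpow_natCast]
          rw [e0, part_ball_add hg1 hkR, part_ball_add hg1 hj1', e2]
        have a1 : ‖part g (closedBall 0 ((2 : ℝ) ^ (j : ℤ))) x‖ₑ ≤ A x := by
          rw [hA]
          exact le_iSup (fun j : ℤ => ‖part g (closedBall 0 ((2 : ℝ) ^ j)) x‖ₑ) (j : ℤ)
        have a2 : ‖part g (shell n ((2 ^ j : ℕ) : ℝ) k) x‖ₑ ≤ B j x := by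
          rw [hB]
          exact le_iSup₂_of_le k hkc le_rfl
        have a3 : ‖part g (shell n k R) x‖ₑ ≤ D k x := by
          rw [hD]
          exact le_iSup₂_of_le R ⟨hkR, hRk.le⟩ le_rfl
        calc ‖ballSum f R x‖ₑ ^ 2 ≤ 3 * (‖part g (closedBall 0 ((2 : ℝ) ^ (j : ℤ))) x‖ₑ ^ 2 +
              ‖part g (shell n ((2 ^ j : ℕ) : ℝ) k) x‖ₑ ^ 2 + ‖part g (shell n k R) x‖ₑ ^ 2) := by
              rw [e1]; exact enorm_add3_sq _ _ _
          _ ≤ 3 * (A x ^ 2 + B j x ^ 2 + D k x ^ 2) := by gcongr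
          _ ≤ M := by
            rw [hM]
            gcongr
            · exact ENNReal.le_tsum j
            · exact ENNReal.le_tsum k
    have h2 : (⨆ R ∈ E, ‖ballSum f R x‖ₑ) ≤ M ^ (1 / 2 : ℝ) := by
      refine iSup₂_le fun R hR => ?_
      have h3 := h1 R hR
      have h4 : (1 / 2 : ℝ) = (2 : ℝ)⁻¹ := by norm_num
      rw [h4, ENNReal.le_rpow_inv_iff (by norm_num : (0 : ℝ) < 2)]
      exact_mod_cast h3
    calc (⨆ R ∈ E, ‖ballSum f R x‖ₑ) ^ 2 ≤ (M ^ (1 / 2 : ℝ)) ^ 2 := by gcongr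
      _ = M := by
        rw [← ENNReal.rpow_natCast, ← ENNReal.rpow_mul]
        norm_num
  -- integrate
  set W := nsq g (closedBall 0 1) + ∑' j : ℕ, ((Nat.clog 2 (N j) + 1 : ℕ) : ℝ≥0∞) ^ 2 *
        nsq g (shell n (2 ^ j) (2 ^ (j + 1))) with hW
  have hgW : ∫⁻ ξ, ‖g ξ‖ₑ ^ 2 ≤ W := by
    have hcov : (univ : Set (V n)) ⊆ closedBall 0 1 ∪ ⋃ j : ℕ, shell n (2 ^ j) (2 ^ (j + 1)) := by
      intro ξ _
      rcases le_or_gt ‖ξ‖ 1 with h | h
      · exact Or.inl (by simpa using h)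
      · right
        obtain ⟨j, hj1, hj2⟩ := exists_nat_pow_near' h (by norm_num : (1 : ℝ) < 2)
        exact mem_iUnion.2 ⟨j, hj1, hj2⟩
    calc ∫⁻ ξ, ‖g ξ‖ₑ ^ 2 = ∫⁻ ξ in univ, ‖g ξ‖ₑ ^ 2 := (setLIntegral_univ _).symm
      _ ≤ ∫⁻ ξ in closedBall 0 1 ∪ ⋃ j : ℕ, shell n (2 ^ j) (2 ^ (j + 1)), ‖g ξ‖ₑ ^ 2 :=
          lintegral_mono_set hcov
      _ ≤ (∫⁻ ξ in closedBall 0 1, ‖g ξ‖ₑ ^ 2) +
          ∫⁻ ξ in ⋃ j : ℕ, shell n (2 ^ j) (2 ^ (j + 1)), ‖g ξ‖ₑ ^ 2 := lintegral_union_le _ _ _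
      _ ≤ (∫⁻ ξ in closedBall 0 1, ‖g ξ‖ₑ ^ 2) +
          ∑' j : ℕ, ∫⁻ ξ in shell n (2 ^ j) (2 ^ (j + 1)), ‖g ξ‖ₑ ^ 2 := by
          gcongr
          exact lintegral_iUnion_le _ _
      _ ≤ W := by
        rw [hW]
        unfold nsq
        gcongr with j
        refine le_mul_of_one_le_left (by positivity) ?_
        norm_cast
        exact Nat.one_le_pow _ _ (by omega)
  have hA2 : ∫⁻ x, A x ^ 2 ≤ C1 * W := by
    refine (hC1 f).trans ?_
    rw [← hPl]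
    gcongr
  have hB2 : ∫⁻ x in ball y 1, ∑' j, B j x ^ 2 ≤ 4 * W := by
    rw [lintegral_tsum (fun j => ((hBm j).pow_const 2).aemeasurable)]
    calc ∑' j, ∫⁻ x in ball y 1, B j x ^ 2
        ≤ ∑' j, 4 * (((Nat.clog 2 (N j) + 1 : ℕ) : ℝ≥0∞) ^ 2 *
          nsq g (shell n (2 ^ j) (2 ^ (j + 1)))) := by
          refine ENNReal.tsum_le_tsum fun j => ?_
          have h5 := hBLK n hn g hg1 hg2 (2 ^ j) (2 ^ (j + 1)) (K j) (hKb j) y
          push_cast at h5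
          have h6 : ((Nat.clog 2 (K j).card : ℕ) : ℝ≥0∞) + 2 ≤
              2 * ((Nat.clog 2 (N j) + 1 : ℕ) : ℝ≥0∞) := by
            have h7 : Nat.clog 2 (K j).card ≤ Nat.clog 2 (N j) := Nat.clog_mono_right 2 (hKc j)
            norm_cast; omega
          have h8 : ∫⁻ x in ball y 1, B j x ^ 2 ≤ (((Nat.clog 2 (K j).card : ℕ) : ℝ≥0∞) + 2) ^ 2 *
              nsq g (shell n (2 ^ j) (2 ^ (j + 1))) := by
            refine le_trans (le_of_eq ?_) h5
            refine lintegral_congr fun x => ?_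
            rw [hB]
            push_cast
            rfl
          refine h8.trans ?_
          calc (((Nat.clog 2 (K j).card : ℕ) : ℝ≥0∞) + 2) ^ 2 *
              nsq g (shell n (2 ^ j) (2 ^ (j + 1)))
              ≤ (2 * ((Nat.clog 2 (N j) + 1 : ℕ) : ℝ≥0∞)) ^ 2 *
              nsq g (shell n (2 ^ j) (2 ^ (j + 1))) := by gcongr
            _ = _ := by ring
      _ = 4 * ∑' j, (((Nat.clog 2 (N j) + 1 : ℕ) : ℝ≥0∞) ^ 2 *
          nsq g (shell n (2 ^ j) (2 ^ (j + 1)))) := ENNReal.tsum_mul_left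
      _ ≤ _ := by
        rw [hW]
        gcongr
        exact le_add_self
  have hD2 : ∫⁻ x in ball y 1, ∑' k, D k x ^ 2 ≤ C2 * W := by
    rw [lintegral_tsum (fun j => ((hDm j).pow_const 2).aemeasurable)]
    calc ∑' k, ∫⁻ x in ball y 1, D k x ^ 2
        ≤ ∑' k : ℕ, (C2 : ℝ≥0∞) * nsq g (shell n (k : ℝ) ((k : ℝ) + 1)) := by
          refine ENNReal.tsum_le_tsum fun k => ?_
          exact hC2 g hg1 hg2 k (Nat.cast_nonneg k) y
      _ = (C2 : ℝ≥0∞) * ∑' k : ℕ, nsq g (shell n (k : ℝ) ((k : ℝ) + 1)) := ENNReal.tsum_mul_left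
      _ ≤ (C2 : ℝ≥0∞) * ∫⁻ ξ, ‖g ξ‖ₑ ^ 2 := by
        gcongr
        have h := sum_nsq_le g (fun j => (j : ℝ)) Nat.mono_cast
        simpa using h
      _ ≤ _ := by gcongr
  calc ∫⁻ x in ball y 1, (⨆ R ∈ E, ‖ballSum f R x‖ₑ) ^ 2
      ≤ ∫⁻ x in ball y 1, 3 * (A x ^ 2 + ∑' j, B j x ^ 2 + ∑' k, D k x ^ 2) :=
        lintegral_mono fun x => hpt x
    _ = 3 * ((∫⁻ x in ball y 1, A x ^ 2) + (∫⁻ x in ball y 1, ∑' j, B j x ^ 2) +
          (∫⁻ x in ball y 1, ∑' k, D k x ^ 2)) := by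
        have m1 : Measurable fun x => A x ^ 2 := hAm.pow_const 2
        have m2 : Measurable fun x => ∑' j, B j x ^ 2 :=
          Measurable.tsum fun j => (hBm j).pow_const 2
        have m3 : Measurable fun x => ∑' j, D j x ^ 2 :=
          Measurable.tsum fun j => (hDm j).pow_const 2
        have m12 : Measurable fun x => A x ^ 2 + ∑' j, B j x ^ 2 := m1.add m2
        have m123 : Measurable fun x => A x ^ 2 + ∑' j, B j x ^ 2 + ∑' j, D j x ^ 2 := m12.add m3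
        rw [lintegral_const_mul _ m123, lintegral_add_left m12, lintegral_add_left m1]
    _ ≤ 3 * (C1 * W + 4 * W + C2 * W) := by
        have hA3 := (setLIntegral_le_lintegral (ball y 1) (fun x => A x ^ 2)).trans hA2
        exact mul_le_mul' le_rfl (add_le_add (add_le_add hA3 hB2) hD2)
    _ = _ := by push_cast; ring

end Pool.Agent.R257.SP
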