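import Pool.Agent.R257.SP.W

namespace Pool.Agent.R257.SP

open MeasureTheory Set Metric Filter Topology
open scoped ENNReal NNReal FourierTransform SchwartzMap RealInnerProductSpace Pointwise

variable {n : ℕ}

lemma nsq_dil (f : V n → ℂ) (ρ : ℝ) (hρ : 0 < ρ) {S : Set (V n)} (hS : MeasurableSet S) :
    ENNReal.ofReal (ρ ^ n) * nsq (𝓕 (fun x : V n => f (ρ • x))) S =
      nsq (𝓕 f) {ξ | ρ • ξ ∈ S} := by
  have hpos : (0 : ℝ) < ρ ^ n := by positivity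
  have h1 := DILaux.lint_smul (n := n) ρ hρ
    (fun η => S.indicator (fun η => ‖𝓕 (fun x : V n => f (ρ • x)) η‖ₑ ^ 2) η)
  have hT : MeasurableSet {ξ : V n | ρ • ξ ∈ S} := hS.preimage (measurable_const_smul ρ)
  have h2 : ∀ ξ : V n, S.indicator (fun η => ‖𝓕 (fun x : V n => f (ρ • x)) η‖ₑ ^ 2) (ρ • ξ) =
      ENNReal.ofReal ((ρ ^ n)⁻¹) ^ 2 *
        {ξ : V n | ρ • ξ ∈ S}.indicator (fun ξ => ‖𝓕 f ξ‖ₑ ^ 2) ξ := by
    intro ξ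
    by_cases h : ρ • ξ ∈ S
    · rw [indicator_of_mem h, indicator_of_mem (show ξ ∈ {ξ : V n | ρ • ξ ∈ S} from h)]
      rw [DILaux.four_smul f ρ hρ ξ, enorm_smul, mul_pow, Real.enorm_eq_ofReal (by positivity)]
    · rw [indicator_of_notMem h, indicator_of_notMem (show ξ ∉ {ξ : V n | ρ • ξ ∈ S} from h),
        mul_zero]
  simp only [h2] at h1
  rw [lintegral_const_mul' _ _ (by finiteness), lintegral_indicator hS, lintegral_indicator hT] at h1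
  unfold nsq
  have h3 : ENNReal.ofReal (ρ ^ n) * ENNReal.ofReal ((ρ ^ n)⁻¹) = 1 := by
    rw [← ENNReal.ofReal_mul hpos.le, mul_inv_cancel₀ hpos.ne', ENNReal.ofReal_one]
  calc ENNReal.ofReal (ρ ^ n) * ∫⁻ ξ in S, ‖𝓕 (fun x : V n => f (ρ • x)) ξ‖ₑ ^ 2
      = ENNReal.ofReal (ρ ^ n) * (ENNReal.ofReal (ρ ^ n) * ENNReal.ofReal ((ρ ^ n)⁻¹)) *
        ∫⁻ ξ in S, ‖𝓕 (fun x : V n => f (ρ • x)) ξ‖ₑ ^ 2 := by rw [h3, mul_one]
    _ = ENNReal.ofReal (ρ ^ n) * ENNReal.ofReal (ρ ^ n) * (ENNReal.ofReal ((ρ ^ n)⁻¹) *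
        ∫⁻ ξ in S, ‖𝓕 (fun x : V n => f (ρ • x)) ξ‖ₑ ^ 2) := by ring
    _ = ENNReal.ofReal (ρ ^ n) * ENNReal.ofReal (ρ ^ n) * (ENNReal.ofReal ((ρ ^ n)⁻¹) ^ 2 *
        ∫⁻ ξ in {ξ : V n | ρ • ξ ∈ S}, ‖𝓕 f ξ‖ₑ ^ 2) := by rw [h1]
    _ = (ENNReal.ofReal (ρ ^ n) * ENNReal.ofReal ((ρ ^ n)⁻¹)) ^ 2 *
        ∫⁻ ξ in {ξ : V n | ρ • ξ ∈ S}, ‖𝓕 f ξ‖ₑ ^ 2 := by ring
    _ = _ := by rw [h3]; simp

lemma preim_ball (ρ : ℝ) (hρ : 0 < ρ) :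
    {ξ : V n | ρ • ξ ∈ closedBall (0 : V n) 1} = closedBall 0 ρ⁻¹ := by
  ext ξ
  simp only [mem_ofPred_eq, mem_closedBall, dist_zero_right, norm_smul, Real.norm_eq_abs,
    abs_of_pos hρ]
  rw [← le_div_iff₀' hρ, one_div]

lemma preim_shell (ρ : ℝ) (hρ : 0 < ρ) (a b : ℝ) :
    {ξ : V n | ρ • ξ ∈ shell n a b} = shell n (a / ρ) (b / ρ) := by
  ext ξ
  simp only [mem_ofPred_eq, shell, norm_smul, Real.norm_eq_abs, abs_of_pos hρ]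
  rw [← le_div_iff₀' hρ, div_lt_iff₀' hρ]

lemma clog_le' (N : ℕ) : ((Nat.clog 2 N + 1 : ℕ) : ℝ) ≤ 4 * (1 + Real.log N) := by
  rcases Nat.eq_zero_or_pos N with h | h
  · subst h; simp
  · exact clog_le N h

/-- the weighted maximal inequality at all scales -/
theorem weighted (hLAC : Stm.LAC) (hBLK : Stm.BLK) (hCORE : Stm.CORE) (n : ℕ) (hn : 0 < n) :
    ∃ C : ℝ, 0 < C ∧ ∀ (ρ : ℝ), 0 < ρ → ∀ (N : ℕ → ℕ) (E : Set ℝ), E ⊆ Ioi 0 →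
    (∀ j : ℕ, (cells E ρ j).encard ≤ N j) → ∀ (f : 𝓢(V n, ℂ)) (y : V n),
    ∫⁻ x in ball y ρ, (⨆ R ∈ E, ‖ballSum f R x‖ₑ) ^ 2 ≤
      ENNReal.ofReal C * (nsq (𝓕 (f : V n → ℂ)) (closedBall 0 ρ⁻¹) +
        ∑' j : ℕ, ENNReal.ofReal ((1 + Real.log (N j)) ^ 2) *
        nsq (𝓕 (f : V n → ℂ)) (shell n (2 ^ j / ρ) (2 ^ (j + 1) / ρ))) := by
  obtain ⟨C, hC⟩ := unit_weighted hLAC hBLK hCORE n hn
  refine ⟨(C : ℝ) * 16 + 1, by positivity, ?_⟩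
  intro ρ hρ N E hE hcell f y
  have hD := DIL_proof n f ρ hρ
  set h : 𝓢(V n, ℂ) := SchwartzMap.compCLMOfContinuousLinearEquiv ℝ (DILaux.dil n ρ hρ.ne') f
    with hh
  have hhf : (h : V n → ℂ) = fun x => f (ρ • x) := rfl
  have h1 : ∀ (R : ℝ) (x : V n), ballSum f R x = ballSum h (ρ * R) (ρ⁻¹ • x) := by
    intro R x
    have hpos : (0 : ℝ) < ρ ^ n := by positivity
    unfold ballSum part
    rw [hhf]
    have h1 := Measure.setIntegral_comp_smul_of_pos (volume : Measure (V n))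
      (fun ξ : V n => 𝓕 (fun x : V n => f (ρ • x)) ξ * ch (ρ⁻¹ • x) ξ) (closedBall (0 : V n) R) hρ
    rw [finrank_euclideanSpace, Fintype.card_fin, smul_closedBall' hρ.ne', smul_zero,
      Real.norm_eq_abs, abs_of_pos hρ] at h1
    have h2 : ∀ ξ : V n, 𝓕 (fun x : V n => f (ρ • x)) (ρ • ξ) * ch (ρ⁻¹ • x) (ρ • ξ) =
        ((ρ ^ n)⁻¹ : ℝ) • (𝓕 (f : V n → ℂ) ξ * ch x ξ) := by
      intro ξ
      rw [DILaux.ch_smul ρ hρ.ne', DILaux.four_smul _ ρ hρ, smul_mul_assoc]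
    simp only [h2] at h1
    rw [integral_smul] at h1
    exact smul_right_injective ℂ (inv_ne_zero hpos.ne') h1
  obtain ⟨_, _, _, h3⟩ := hD
  set E' : Set ℝ := (fun R => ρ * R) '' E with hE'
  have hE'0 : E' ⊆ Ioi 0 := by
    rintro _ ⟨R, hR, rfl⟩
    exact mul_pos hρ (hE hR)
  have hcell' : ∀ j, (cells E' 1 j).encard ≤ N j := by
    intro j
    refine le_trans (Set.encard_le_encard ?_) (hcell j)
    rintro k ⟨_, ⟨R, hR, rfl⟩, a1, a2, a3⟩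
    simp only [one_mul] at a1 a2 a3
    exact ⟨R, hR, a1, a2, a3⟩
  have key := hC N E' hE'0 hcell' h (ρ⁻¹ • y)
  have e1 : ∀ x, (⨆ R ∈ E, ‖ballSum f R x‖ₑ) = ⨆ R' ∈ E', ‖ballSum h R' (ρ⁻¹ • x)‖ₑ := by
    intro x
    rw [hE', iSup_image]
    refine iSup_congr fun R => iSup_congr fun _ => ?_
    rw [h1]
  have hq1 : ENNReal.ofReal (ρ ^ n) * nsq (𝓕 (h : V n → ℂ)) (closedBall 0 1) =
      nsq (𝓕 (f : V n → ℂ)) (closedBall 0 ρ⁻¹) := by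
    rw [hhf, nsq_dil (f : V n → ℂ) ρ hρ measurableSet_closedBall, preim_ball ρ hρ]
  have hq2 : ∀ j : ℕ, ENNReal.ofReal (ρ ^ n) * nsq (𝓕 (h : V n → ℂ)) (shell n (2 ^ j) (2 ^ (j + 1))) =
      nsq (𝓕 (f : V n → ℂ)) (shell n (2 ^ j / ρ) (2 ^ (j + 1) / ρ)) := by
    intro j
    rw [hhf, nsq_dil (f : V n → ℂ) ρ hρ (shell_meas _ _), preim_shell ρ hρ]
  calc ∫⁻ x in ball y ρ, (⨆ R ∈ E, ‖ballSum f R x‖ₑ) ^ 2
      = ∫⁻ x in ball y ρ, (fun z => (⨆ R' ∈ E', ‖ballSum h R' z‖ₑ) ^ 2) (ρ⁻¹ • x) := by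
        refine lintegral_congr fun x => ?_
        rw [e1]
    _ = ENNReal.ofReal (ρ ^ n) *
          ∫⁻ x in ball (ρ⁻¹ • y) 1, (⨆ R' ∈ E', ‖ballSum h R' x‖ₑ) ^ 2 :=
        h3 (fun z => (⨆ R' ∈ E', ‖ballSum h R' z‖ₑ) ^ 2) y
    _ ≤ ENNReal.ofReal (ρ ^ n) * (C * (nsq (𝓕 (h : V n → ℂ)) (closedBall 0 1) +
          ∑' j : ℕ, ((Nat.clog 2 (N j) + 1 : ℕ) : ℝ≥0∞) ^ 2 *
        nsq (𝓕 (h : V n → ℂ)) (shell n (2 ^ j) (2 ^ (j + 1))))) := by gcongr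
    _ = C * (ENNReal.ofReal (ρ ^ n) * nsq (𝓕 (h : V n → ℂ)) (closedBall 0 1) +
          ∑' j : ℕ, ENNReal.ofReal (ρ ^ n) * (((Nat.clog 2 (N j) + 1 : ℕ) : ℝ≥0∞) ^ 2 *
        nsq (𝓕 (h : V n → ℂ)) (shell n (2 ^ j) (2 ^ (j + 1))))) := by
        rw [ENNReal.tsum_mul_left]; ring
    _ = C * (nsq (𝓕 (f : V n → ℂ)) (closedBall 0 ρ⁻¹) +
          ∑' j : ℕ, ((Nat.clog 2 (N j) + 1 : ℕ) : ℝ≥0∞) ^ 2 *
        nsq (𝓕 (f : V n → ℂ)) (shell n (2 ^ j / ρ) (2 ^ (j + 1) / ρ))) := by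
        rw [hq1]
        congr 2
        refine tsum_congr fun j => ?_
        rw [← hq2]; ring
    _ ≤ C * (16 * nsq (𝓕 (f : V n → ℂ)) (closedBall 0 ρ⁻¹) +
          ∑' j : ℕ, 16 * (ENNReal.ofReal ((1 + Real.log (N j)) ^ 2) *
        nsq (𝓕 (f : V n → ℂ)) (shell n (2 ^ j / ρ) (2 ^ (j + 1) / ρ)))) := by
        refine mul_le_mul' le_rfl (add_le_add ?_ (ENNReal.tsum_le_tsum fun j => ?_))
        · exact le_mul_of_one_le_left (by positivity) (by norm_num)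
        · rw [← mul_assoc]
          refine mul_le_mul' ?_ le_rfl
          have h4 := clog_le' (N j)
          have h6 : ((Nat.clog 2 (N j) + 1 : ℕ) : ℝ) ^ 2 ≤ (4 * (1 + Real.log (N j))) ^ 2 := by
            gcongr
          have h7 : ((Nat.clog 2 (N j) + 1 : ℕ) : ℝ) ^ 2 ≤ 16 * (1 + Real.log (N j)) ^ 2 := by
            refine h6.trans (le_of_eq (by ring))
          have h8 := ENNReal.ofReal_le_ofReal h7
          rw [ENNReal.ofReal_mul (by norm_num), ENNReal.ofReal_pow (by positivity),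
            ENNReal.ofReal_natCast] at h8
          refine h8.trans (le_of_eq ?_)
          norm_num
    _ = C * 16 * (nsq (𝓕 (f : V n → ℂ)) (closedBall 0 ρ⁻¹) +
          ∑' j : ℕ, (ENNReal.ofReal ((1 + Real.log (N j)) ^ 2) *
        nsq (𝓕 (f : V n → ℂ)) (shell n (2 ^ j / ρ) (2 ^ (j + 1) / ρ)))) := by
        rw [ENNReal.tsum_mul_left]; ring
    _ ≤ _ := by
        gcongr
        have h9 : ((C : ℝ≥0∞) * 16) = ENNReal.ofReal ((C : ℝ) * 16) := by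
          rw [ENNReal.ofReal_mul (by positivity), ENNReal.ofReal_coe_nnreal]
          norm_num
        rw [h9]
        exact ENNReal.ofReal_le_ofReal (by linarith)

end Pool.Agent.R257.SP
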